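import Mathlib

/-!
# T5 (MP_12a1af_nt): the failure probabilities `exp (-K ^ c0)` are summable over all pairs
-/

set_option autoImplicit false

namespace Pool.Agent.Helper42.T5

open Finset Filter

theorem tail_small {f : ℕ → ℝ} (hf : Summable f) (hf0 : ∀ K, 0 ≤ f K) {δ : ℝ} (hδ : 0 < δ) :
    ∃ K0 : ℕ, ∀ K1, K0 ≤ K1 → ∀ S, ∑ K ∈ Finset.Ico K1 S, f K < δ := by
  obtain ⟨K0, hK0⟩ := Metric.cauchySeq_iff.1 (hf.hasSum.tendsto_sum_nat.cauchySeq) δ hδ
  refine ⟨K0, fun K1 hK1 S => ?_⟩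
  rcases le_total S K1 with h | h
  · rw [Finset.Ico_eq_empty_of_le h]
    simpa using hδ
  · have h1 := hK0 S (hK1.trans h) K1 hK1
    rw [Real.dist_eq, ← Finset.sum_Ico_eq_sub _ h] at h1
    rwa [abs_of_nonneg (Finset.sum_nonneg fun K _ => hf0 K)] at h1

theorem summable_pair {c0 : ℝ} (hc : 0 < c0) (m : ℝ) :
    Summable (fun K : ℕ => ((K : ℝ) + 1) * (m * Real.exp (-((K : ℝ) ^ c0)))) := by
  -- eventually `exp (-K ^ c0) ≤ K ^ (-3)`
  have h1 : ∀ᶠ x : ℝ in atTop, 3 * Real.log x ≤ x ^ c0 := by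
    have h2 := (isLittleO_log_rpow_atTop hc).bound (show (0 : ℝ) < 1 / 3 by norm_num)
    filter_upwards [h2, eventually_ge_atTop 1] with x hx hx1
    rw [Real.norm_of_nonneg (Real.log_nonneg hx1),
      Real.norm_of_nonneg (Real.rpow_nonneg (by linarith) _)] at hx
    linarith
  have h3 : ∀ᶠ K : ℕ in atTop, 3 * Real.log (K : ℝ) ≤ (K : ℝ) ^ c0 :=
    tendsto_natCast_atTop_atTop.eventually h1
  have hs : Summable (fun K : ℕ => 2 * |m| * (1 / (K : ℝ) ^ 2)) :=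
    (Real.summable_one_div_nat_pow.2 (by norm_num)).mul_left _
  refine Summable.of_norm_bounded_eventually_nat hs ?_
  filter_upwards [h3, eventually_ge_atTop 1] with K hK hK1
  have hK0 : (1 : ℝ) ≤ K := by exact_mod_cast hK1
  have hKp : (0 : ℝ) < K := by linarith
  have h4 : Real.exp (-((K : ℝ) ^ c0)) ≤ 1 / (K : ℝ) ^ 3 := by
    have h5 : Real.exp (-((K : ℝ) ^ c0)) ≤ Real.exp (-(3 * Real.log K)) :=
      Real.exp_le_exp.2 (by linarith)
    refine h5.trans (le_of_eq ?_)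
    rw [Real.exp_neg, one_div]
    congr 1
    rw [show (3 : ℝ) * Real.log K = Real.log ((K : ℝ) ^ 3) by
      rw [Real.log_pow]; norm_num, Real.exp_log (by positivity)]
  rw [norm_mul, norm_mul, Real.norm_of_nonneg (by linarith : (0 : ℝ) ≤ (K : ℝ) + 1),
    Real.norm_of_nonneg (Real.exp_pos _).le, Real.norm_eq_abs]
  have h6 : ((K : ℝ) + 1) * (|m| * Real.exp (-((K : ℝ) ^ c0))) ≤
      (2 * K) * (|m| * (1 / (K : ℝ) ^ 3)) := by
    apply mul_le_mul (by linarith) (mul_le_mul_of_nonneg_left h4 (abs_nonneg _))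
      (mul_nonneg (abs_nonneg _) (Real.exp_pos _).le) (by linarith)
  refine h6.trans (le_of_eq ?_)
  field_simp

/-- the sum of all failure probabilities is small -/
theorem pairs_small {c0 : ℝ} (hc : 0 < c0) (m : ℝ) (hm : 0 ≤ m) :
    ∃ K0 : ℕ, ∀ K1, K0 ≤ K1 → ∀ S,
      ∑ K ∈ Finset.Ico K1 S, ((K : ℝ) + 1) * (m * Real.exp (-((K : ℝ) ^ c0))) < 1 :=
  tail_small (summable_pair hc m) (fun K => by positivity) one_pos

end Pool.Agent.Helper42.T5
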