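import Pool.Agent.Helper42.T5.CountGap
import Pool.Agent.Helper42.T5.Sums

/-!
# T5 (MP_12a1af_nt): the final statements from the horizons
-/

set_option autoImplicit false

namespace Pool.Agent.Helper42.T5

open Finset Pool.Agent.Helper44.T4

/-- **T5a from the horizons** -/
theorem gap_final {N : ℕ → ℕ} (hN : ∀ K, 2 * N K ≤ N (K + 1)) (hN0 : 1 ≤ N 0) {K0 m Λ : ℕ}
    {C0 C C1 ε c c' : ℝ} (hC0 : 0 ≤ C0) (hC : 0 < C) (hC1 : 0 ≤ C1) (hε : 0 ≤ ε) (hΛ : 1 ≤ Λ)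
    (hc : 0 < c) (hcc : c < c') (hc' : c' < 1) (Used : ℕ → Prop) (b : ℕ → ℝ)
    (H1 : ∀ K1 : ℕ, ∃ K2 : ℕ, ∀ K, K2 ≤ K → ∃ K', K1 ≤ K' ∧ K' ≤ K ∧ Used K' ∧
      Real.log (N (K + 2)) - Real.log (N K') ≤ C0 * (K : ℝ) ^ (1 - c'))
    (H2 : ∃ K2 : ℕ, ∀ K, K2 ≤ K → (Used K ∧ N (K + 2) ≤ Λ * N K) ∨
      ∃ j, |Real.log (N (K + 2)) - b j| ≤ C0 * (K : ℝ) ^ (1 - c') ∧
        |Real.log (N K) - b j| ≤ C0 * (K : ℝ) ^ (1 - c'))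
    (h : ∀ S : ℕ, ∃ A : ℕ → Finset ℕ,
      (∀ K, K0 ≤ K → ∀ a ∈ A K, N K ≤ a ∧ a < N (K + 1)) ∧
      (∀ K, K0 ≤ K → K < S → Used K → Real.sqrt (N K) ≤ C * (K : ℝ) ^ m * (A K).card) ∧
      (∀ K K', K0 ≤ K' → K' ≤ K → ∀ n : ℕ,
        (((A K ×ˢ A K').filter (fun q => q.1 + q.2 = n)).card : ℝ) ≤ C1 * (K : ℝ) ^ ε)) :
    ∃ (A : Set ℕ) (C : ℝ), 0 < C ∧
      (∀ n : ℕ, 2 ≤ n →
        (({q : ℕ × ℕ | q.1 ∈ A ∧ q.2 ∈ A ∧ q.1 + q.2 = n}.ncard : ℕ) : ℝ) ≤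
          C * (Real.log n) ^ ε) ∧
      (∀ x : ℕ, 2 ≤ x → (∀ j, (Real.log x) ^ (1 - c) ≤ |Real.log x - b j|) →
        Real.sqrt x / (C * (Real.log x) ^ (m + 2)) ≤ ((A ∩ Set.Iio x).ncard : ℝ)) ∧
      (∀ x : ℕ, 2 ≤ x → Real.sqrt x * Real.exp (-(C * (Real.log x) ^ (1 - c))) ≤
        ((A ∩ Set.Iio x).ncard : ℝ)) := by
  obtain ⟨B, C2, K1, hC2, hB1, hrep, hcnt⟩ := set_of_horizons hN hN0 hC hC1 hε Used h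
  obtain ⟨C3, hC3, hall⟩ := count_gap hN hN0 hC0 hC2 hΛ hc hcc hc' hB1 b hcnt (H1 K1) H2
  obtain ⟨r1, r2⟩ := hall (C2 + C3) (by linarith)
  refine ⟨B, C2 + C3, by linarith, ?_, r1, r2⟩
  intro n hn
  refine (hrep n hn).trans ?_
  have hlog : 0 ≤ Real.log n := Real.log_nonneg (by exact_mod_cast (by omega : 1 ≤ n))
  exact mul_le_mul_of_nonneg_right (by linarith) (Real.rpow_nonneg hlog _)

/-- **T5 (no gaps) from the horizons** -/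
theorem full_final {N : ℕ → ℕ} (hN : ∀ K, 2 * N K ≤ N (K + 1)) (hN0 : 1 ≤ N 0) {K0 m Λ : ℕ}
    (hΛ : ∀ K, N (K + 1) ≤ Λ * N K) {C C1 ε : ℝ} (hC : 0 < C) (hC1 : 0 ≤ C1) (hε : 0 ≤ ε)
    (h : ∀ S : ℕ, ∃ A : ℕ → Finset ℕ,
      (∀ K, K0 ≤ K → ∀ a ∈ A K, N K ≤ a ∧ a < N (K + 1)) ∧
      (∀ K, K0 ≤ K → K < S → Real.sqrt (N K) ≤ C * (K : ℝ) ^ m * (A K).card) ∧
      (∀ K K', K0 ≤ K' → K' ≤ K → ∀ n : ℕ,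
        (((A K ×ˢ A K').filter (fun q => q.1 + q.2 = n)).card : ℝ) ≤ C1 * (K : ℝ) ^ ε)) :
    ∃ (A : Set ℕ) (C : ℝ), 0 < C ∧
      (∀ n : ℕ, 2 ≤ n →
        (({q : ℕ × ℕ | q.1 ∈ A ∧ q.2 ∈ A ∧ q.1 + q.2 = n}.ncard : ℕ) : ℝ) ≤
          C * (Real.log n) ^ ε) ∧
      (∀ x : ℕ, 2 ≤ x →
        Real.sqrt x / (C * (Real.log x) ^ (m + 2)) ≤ ((A ∩ Set.Iio x).ncard : ℝ)) := by
  obtain ⟨B, C2, K1, hC2, hB1, hrep, hcnt⟩ := set_of_horizons (K0 := K0) (c := m) hN hN0 hC hC1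
    hε (fun _ => True) (fun S => by
      obtain ⟨A, a1, a2, a3⟩ := h S
      exact ⟨A, a1, fun K hK hS _ => a2 K hK hS, a3⟩)
  obtain ⟨C3, hC3, hall⟩ := count_all hN hN0 hΛ hC2 hB1 (fun K hK => hcnt K hK trivial)
  refine ⟨B, C2 + C3, by linarith, ?_, hall (C2 + C3) (by linarith)⟩
  intro n hn
  refine (hrep n hn).trans ?_
  have hlog : 0 ≤ Real.log n := Real.log_nonneg (by exact_mod_cast (by omega : 1 ≤ n))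
  exact mul_le_mul_of_nonneg_right (by linarith) (Real.rpow_nonneg hlog _)

end Pool.Agent.Helper42.T5
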