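import Pool.Agent.Helper42.T5.Pr
import Pool.Agent.Helper42.T5.Wrap

/-!
# T5 (MP_12a1af_nt), block Z: from the pair block, the range and the count to the final theorem

Everything is stated for arbitrary keys, arbitrary random sets `AA l w` and an arbitrary chain `N`.
-/

set_option autoImplicit false

namespace Pool.Agent.Helper42.T5

open Finset Pool.Agent.Helper42.T5.Pr

variable {κ : Type*} [DecidableEq κ] {M : κ → ℕ}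

/-- union bound over all pairs of states below the horizon -/
theorem exists_all_pairs (hM : ∀ k, 0 < M k) (keysOf : ℕ → Finset κ) {c0 : ℝ} (hc0 : 0 < c0)
    (K0 : ℕ) (m : ℝ) (hm : 0 ≤ m) (Bad : ℕ → ℕ → (κ → ℕ) → Prop)
    (h : ∀ l l', K0 ≤ l' → l' ≤ l → ∀ K : Finset κ, keysOf l ⊆ K → keysOf l' ⊆ K →
      PrLe M K (Bad l l') (m * Real.exp (-((l : ℝ) ^ c0)))) :
    ∃ K1, K0 ≤ K1 ∧ ∀ S, ∃ w : κ → ℕ, (∀ k, w k < M k) ∧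
      ∀ l l', K1 ≤ l' → l' ≤ l → l < S → ¬ Bad l l' w := by
  obtain ⟨K2, hK2⟩ := pairs_small hc0 m hm
  refine ⟨max K0 K2, le_max_left _ _, fun S => ?_⟩
  set K1 := max K0 K2 with hK1
  set K : Finset κ := (range S).biUnion keysOf with hK
  have hKs : ∀ s, s < S → keysOf s ⊆ K := fun s hs => subset_biUnion_of_mem keysOf (mem_range.2 hs)
  have hev : ∀ l ∈ Ico K1 S, ∀ l' ∈ range (l + 1),
      PrLe M K (fun w => K1 ≤ l' ∧ Bad l l' w) (m * Real.exp (-((l : ℝ) ^ c0))) := by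
    intro l hl l' hl'
    rw [mem_Ico] at hl
    rw [mem_range] at hl'
    by_cases hc : K1 ≤ l'
    · exact PrLe_mono (fun _ _ hw => hw.2) le_rfl
        (h l l' ((le_max_left _ _).trans hc) (by omega) K (hKs l hl.2) (hKs l' (by omega)))
    · exact PrLe_false (fun _ _ hw => hc hw.1) (mul_nonneg hm (Real.exp_pos _).le)
  have hall : PrLe M K (fun w => ∃ l ∈ Ico K1 S, ∃ l' ∈ range (l + 1), K1 ≤ l' ∧ Bad l l' w)
      (∑ l ∈ Ico K1 S, ((l : ℝ) + 1) * (m * Real.exp (-((l : ℝ) ^ c0)))) := by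
    refine PrLe_exists _ fun l hl => ?_
    have h := PrLe_exists (range (l + 1)) (fun l' hl' => hev l hl l' hl')
    refine PrLe_mono (fun _ _ hw => hw) ?_ h
    rw [sum_const, card_range, nsmul_eq_mul]
    push_cast
    exact le_rfl
  obtain ⟨w, hw, hgood⟩ := exists_of_PrLe hM (hK2 K1 (le_max_right _ _) S) hall
  exact ⟨w, hw, fun l l' h1 h2 h3 h4 =>
    hgood ⟨l, mem_Ico.2 ⟨h1.trans h2, h3⟩, l', mem_range.2 (by omega), h1, h4⟩⟩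

/-- the families for all horizons -/
theorem horizons_of_pairs (hM : ∀ k, 0 < M k) (keysOf : ℕ → Finset κ)
    (AA : ℕ → (κ → ℕ) → Finset ℕ) (N : ℕ → ℕ) (Used : ℕ → Prop) {K0 m : ℕ} {C C1 ε c0 m' : ℝ}
    (hC1 : 0 ≤ C1) (hc0 : 0 < c0) (hm' : 0 ≤ m')
    (hrange : ∀ l, K0 ≤ l → Used l → ∀ w : κ → ℕ, (∀ k, w k < M k) →
      ∀ a ∈ AA l w, N l ≤ a ∧ a < N (l + 1))
    (hcount : ∀ l, K0 ≤ l → Used l → ∀ w : κ → ℕ, (∀ k, w k < M k) →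
      Real.sqrt (N l) ≤ C * (l : ℝ) ^ m * (AA l w).card)
    (hpair : ∀ l l', K0 ≤ l' → l' ≤ l → Used l → Used l' → ∀ K : Finset κ,
      keysOf l ⊆ K → keysOf l' ⊆ K →
      PrLe M K (fun w => ∃ n, C1 * (l : ℝ) ^ ε <
        (((AA l w ×ˢ AA l' w).filter (fun q => q.1 + q.2 = n)).card : ℝ))
        (m' * Real.exp (-((l : ℝ) ^ c0)))) :
    ∃ K1, ∀ S : ℕ, ∃ A : ℕ → Finset ℕ,
      (∀ K, K1 ≤ K → ∀ a ∈ A K, N K ≤ a ∧ a < N (K + 1)) ∧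
      (∀ K, K1 ≤ K → K < S → Used K → Real.sqrt (N K) ≤ C * (K : ℝ) ^ m * (A K).card) ∧
      (∀ K K', K1 ≤ K' → K' ≤ K → ∀ n : ℕ,
        (((A K ×ˢ A K').filter (fun q => q.1 + q.2 = n)).card : ℝ) ≤ C1 * (K : ℝ) ^ ε) := by
  classical
  obtain ⟨K1, hK01, hK1⟩ := exists_all_pairs hM keysOf hc0 K0 m' hm'
    (fun l l' w => (Used l ∧ Used l') ∧ ∃ n, C1 * (l : ℝ) ^ ε <
        (((AA l w ×ˢ AA l' w).filter (fun q => q.1 + q.2 = n)).card : ℝ))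
    (by
      intro l l' h1 h2 K hK hK'
      by_cases hU : Used l ∧ Used l'
      · exact PrLe_mono (fun _ _ hw => hw.2) le_rfl (hpair l l' h1 h2 hU.1 hU.2 K hK hK')
      · exact PrLe_false (fun _ _ hw => hU hw.1) (mul_nonneg hm' (Real.exp_pos _).le))
  refine ⟨K1, fun S => ?_⟩
  obtain ⟨w, hw, hgood⟩ := hK1 S
  refine ⟨fun l => if l < S ∧ Used l then AA l w else ∅, ?_, ?_, ?_⟩
  · intro l hl a ha
    dsimp only at ha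
    split_ifs at ha with hc
    · exact hrange l (hK01.trans hl) hc.2 w hw a ha
    · simp at ha
  · intro l hl hlS hU
    dsimp only
    rw [if_pos ⟨hlS, hU⟩]
    exact hcount l (hK01.trans hl) hU w hw
  · intro l l' hl' hll n
    have hnn : 0 ≤ C1 * (l : ℝ) ^ ε := mul_nonneg hC1 (Real.rpow_nonneg (Nat.cast_nonneg _) _)
    dsimp only
    by_cases hc : l < S ∧ Used l
    · by_cases hc' : l' < S ∧ Used l'
      · rw [if_pos hc, if_pos hc']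
        by_contra hcon
        rw [not_le] at hcon
        exact hgood l l' hl' hll hc.1 ⟨⟨hc.2, hc'.2⟩, n, hcon⟩
      · rw [if_neg hc']
        simpa using hnn
    · rw [if_neg hc]
      simpa using hnn

/-- **T5a from the blocks** -/
theorem gap_final_of_pairs (hM : ∀ k, 0 < M k) (keysOf : ℕ → Finset κ)
    (AA : ℕ → (κ → ℕ) → Finset ℕ) {N : ℕ → ℕ} (hN : ∀ K, 2 * N K ≤ N (K + 1)) (hN0 : 1 ≤ N 0)
    {K0 m Λ : ℕ} {C0 C C1 ε c c' c0 m' : ℝ} (hC0 : 0 ≤ C0) (hC : 0 < C) (hC1 : 0 ≤ C1)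
    (hε : 0 ≤ ε) (hΛ : 1 ≤ Λ) (hc : 0 < c) (hcc : c < c') (hc' : c' < 1) (hc0 : 0 < c0)
    (hm' : 0 ≤ m') (Used : ℕ → Prop) (b : ℕ → ℝ)
    (H1 : ∀ K1 : ℕ, ∃ K2 : ℕ, ∀ K, K2 ≤ K → ∃ K', K1 ≤ K' ∧ K' ≤ K ∧ Used K' ∧
      Real.log (N (K + 2)) - Real.log (N K') ≤ C0 * (K : ℝ) ^ (1 - c'))
    (H2 : ∃ K2 : ℕ, ∀ K, K2 ≤ K → (Used K ∧ N (K + 2) ≤ Λ * N K) ∨
      ∃ j, |Real.log (N (K + 2)) - b j| ≤ C0 * (K : ℝ) ^ (1 - c') ∧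
        |Real.log (N K) - b j| ≤ C0 * (K : ℝ) ^ (1 - c'))
    (hrange : ∀ l, K0 ≤ l → Used l → ∀ w : κ → ℕ, (∀ k, w k < M k) →
      ∀ a ∈ AA l w, N l ≤ a ∧ a < N (l + 1))
    (hcount : ∀ l, K0 ≤ l → Used l → ∀ w : κ → ℕ, (∀ k, w k < M k) →
      Real.sqrt (N l) ≤ C * (l : ℝ) ^ m * (AA l w).card)
    (hpair : ∀ l l', K0 ≤ l' → l' ≤ l → Used l → Used l' → ∀ K : Finset κ,
      keysOf l ⊆ K → keysOf l' ⊆ K →
      PrLe M K (fun w => ∃ n, C1 * (l : ℝ) ^ ε <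
        (((AA l w ×ˢ AA l' w).filter (fun q => q.1 + q.2 = n)).card : ℝ))
        (m' * Real.exp (-((l : ℝ) ^ c0)))) :
    ∃ (A : Set ℕ) (C : ℝ), 0 < C ∧
      (∀ n : ℕ, 2 ≤ n →
        (({q : ℕ × ℕ | q.1 ∈ A ∧ q.2 ∈ A ∧ q.1 + q.2 = n}.ncard : ℕ) : ℝ) ≤
          C * (Real.log n) ^ ε) ∧
      (∀ x : ℕ, 2 ≤ x → (∀ j, (Real.log x) ^ (1 - c) ≤ |Real.log x - b j|) →
        Real.sqrt x / (C * (Real.log x) ^ (m + 2)) ≤ ((A ∩ Set.Iio x).ncard : ℝ)) ∧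
      (∀ x : ℕ, 2 ≤ x → Real.sqrt x * Real.exp (-(C * (Real.log x) ^ (1 - c))) ≤
        ((A ∩ Set.Iio x).ncard : ℝ)) := by
  obtain ⟨K1, h⟩ := horizons_of_pairs hM keysOf AA N Used hC1 hc0 hm' hrange hcount hpair
  exact gap_final (K0 := K1) hN hN0 hC0 hC hC1 hε hΛ hc hcc hc' Used b H1 H2 h

/-- **T5 (no gaps) from the blocks** -/
theorem full_final_of_pairs (hM : ∀ k, 0 < M k) (keysOf : ℕ → Finset κ)
    (AA : ℕ → (κ → ℕ) → Finset ℕ) {N : ℕ → ℕ} (hN : ∀ K, 2 * N K ≤ N (K + 1)) (hN0 : 1 ≤ N 0)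
    {K0 m Λ : ℕ} (hΛ : ∀ K, N (K + 1) ≤ Λ * N K) {C C1 ε c0 m' : ℝ} (hC : 0 < C) (hC1 : 0 ≤ C1)
    (hε : 0 ≤ ε) (hc0 : 0 < c0) (hm' : 0 ≤ m')
    (hrange : ∀ l, K0 ≤ l → ∀ w : κ → ℕ, (∀ k, w k < M k) →
      ∀ a ∈ AA l w, N l ≤ a ∧ a < N (l + 1))
    (hcount : ∀ l, K0 ≤ l → ∀ w : κ → ℕ, (∀ k, w k < M k) →
      Real.sqrt (N l) ≤ C * (l : ℝ) ^ m * (AA l w).card)
    (hpair : ∀ l l', K0 ≤ l' → l' ≤ l → ∀ K : Finset κ,
      keysOf l ⊆ K → keysOf l' ⊆ K →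
      PrLe M K (fun w => ∃ n, C1 * (l : ℝ) ^ ε <
        (((AA l w ×ˢ AA l' w).filter (fun q => q.1 + q.2 = n)).card : ℝ))
        (m' * Real.exp (-((l : ℝ) ^ c0)))) :
    ∃ (A : Set ℕ) (C : ℝ), 0 < C ∧
      (∀ n : ℕ, 2 ≤ n →
        (({q : ℕ × ℕ | q.1 ∈ A ∧ q.2 ∈ A ∧ q.1 + q.2 = n}.ncard : ℕ) : ℝ) ≤
          C * (Real.log n) ^ ε) ∧
      (∀ x : ℕ, 2 ≤ x →
        Real.sqrt x / (C * (Real.log x) ^ (m + 2)) ≤ ((A ∩ Set.Iio x).ncard : ℝ)) := by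
  obtain ⟨K1, h⟩ := horizons_of_pairs hM keysOf AA N (fun _ => True) hC1 hc0 hm'
    (fun l hl _ => hrange l hl) (fun l hl _ => hcount l hl)
    (fun l l' h1 h2 _ _ => hpair l l' h1 h2)
  refine full_final (K0 := K1) hN hN0 hΛ hC hC1 hε fun S => ?_
  obtain ⟨A, a1, a2, a3⟩ := h S
  exact ⟨A, a1, fun K hK hS => a2 K hK hS trivial, a3⟩

end Pool.Agent.Helper42.T5
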