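import Pool.Agent.Helper11.T5.Defs
import Pool.Agent.Helper42.T5.Pairs

/-!
# T5a, block Z: the final theorem from the pair block, the range block and the count block
-/

set_option autoImplicit false

namespace Pool.Agent.Helper42.T5

open Finset Pool.Agent.Helper27.T5 Pool.Agent.Helper30.T5
open Pool.Agent.Helper11.T5 Pool.Agent.Helper42.T5.Pr
open Pool.Agent.Helper5.ET (bb era Nj)

theorem sum_dg_le (m j i : ℕ) : ∑ f : Fin 3, dg m j i f ≤ W m j (i - 1) - W m j i := by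
  rw [Fin.sum_univ_three]
  simp only [dg, gw, Matrix.cons_val_zero, Matrix.cons_val_one, Matrix.cons_val]
  omega

theorem Qs_le_all (m j i : ℕ) : Qs m j i ≤ (10 ^ 6) ^ (W m j (i - 1) - W m j i) := by
  refine le_trans ?_ (Nat.pow_le_pow_right (by norm_num) (sum_dg_le m j i))
  rw [← Finset.prod_pow_eq_pow_sum]
  exact Finset.prod_le_prod' (fun f _ => Qf_le m j i f)

theorem Lp_le_all (m j s : ℕ) (hs1 : 1 ≤ s) : Lp m j s ≤ (10 ^ 6) ^ (W m j 1 - W m j s) := by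
  induction s, hs1 using Nat.le_induction with
  | base => simp [Lp_one]
  | succ s h1 ih =>
    rw [Lp_succ h1]
    have e2 := Qs_le_all m j (s + 1)
    have e3 : W m j (s + 1) ≤ W m j s := W_anti m j (by omega)
    have e4 : W m j s ≤ W m j 1 := W_anti m j h1
    rw [Nat.add_sub_cancel] at e2
    calc Lp m j s * Qs m j (s + 1)
        ≤ (10 ^ 6) ^ (W m j 1 - W m j s) * (10 ^ 6) ^ (W m j s - W m j (s + 1)) :=
          Nat.mul_le_mul ih e2
      _ = (10 ^ 6) ^ (W m j 1 - W m j (s + 1)) := by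
          rw [← pow_add]
          congr 1
          omega

/-- the static modulus of every era is smaller than the window of the main level -/
theorem LA_le_all (m k j : ℕ) : LA m k j ≤ (10 ^ 6) ^ (W m j 1) := by
  unfold LA
  rw [LL_QQ]
  exact (Lp_le_all m j (k + 1) (by omega)).trans (Nat.pow_le_pow_right (by norm_num) (by omega))

/-- the pair block -/
def PairB (m k : ℕ) (ε : ℝ) : Prop := ∃ (C1 c0 : ℝ) (K0 : ℕ), 0 ≤ C1 ∧ 0 < c0 ∧
  ∀ l l', K0 ≤ l' → l' ≤ l → used m l → used m l' → ∀ K : Finset Key,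
    keysOf m k l ⊆ K → keysOf m k l' ⊆ K →
    PrLe (Mk m) K (fun w => ∃ n, C1 * (l : ℝ) ^ ε < Rp m k l l' w n) (Real.exp (-((l : ℝ) ^ c0)))

/-- the range block -/
def RangeB (m k : ℕ) : Prop := ∃ K0 : ℕ, ∀ l, K0 ≤ l → used m l → ∀ w : Key → ℕ,
  (∀ q, w q < Mk m q) → ∀ a ∈ AA m k l w, XA m k l ≤ a ∧ a < XA m k (l + 1)

/-- the count block -/
def CountB (m k : ℕ) : Prop := ∃ (C : ℝ) (M K0 : ℕ), 0 < C ∧ ∀ l, K0 ≤ l → used m l →
  ∀ w : Key → ℕ, (∀ q, w q < Mk m q) →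
    Real.sqrt (XA m k l) ≤ C * (l : ℝ) ^ M * ((AA m k l w).card : ℝ)

/-- **T5a from the blocks** -/
theorem t5a_of_blocks {m k : ℕ} (hm : 1 < m) {ε : ℝ} (hε : 0 ≤ ε) (hP : PairB m k ε) (hR : RangeB m k) (hC : CountB m k) :
    ∃ (A : Set ℕ) (C c : ℝ) (M : ℕ) (b : ℕ → ℝ), 0 < C ∧ 0 < c ∧ 0 < b 0 ∧
      (∀ j, 1.4 * b j ≤ b (j + 1)) ∧
      (∀ n : ℕ, 2 ≤ n →
        (({q : ℕ × ℕ | q.1 ∈ A ∧ q.2 ∈ A ∧ q.1 + q.2 = n}.ncard : ℕ) : ℝ) ≤
          C * (Real.log n) ^ ε) ∧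
      (∀ x : ℕ, 2 ≤ x → (∀ j, (Real.log x) ^ (1 - c) ≤ |Real.log x - b j|) →
        Real.sqrt x / (C * (Real.log x) ^ M) ≤ ((A ∩ Set.Iio x).ncard : ℝ)) ∧
      (∀ x : ℕ, 2 ≤ x → Real.sqrt x * Real.exp (-(C * (Real.log x) ^ (1 - c))) ≤
        ((A ∩ Set.Iio x).ncard : ℝ)) := by
  obtain ⟨C1, c0, K0, hC1, hc0, hP⟩ := hP
  obtain ⟨K1, hR⟩ := hR
  obtain ⟨C, M, K2, hCp, hC⟩ := hC
  have hTB : TB m (TA m k) := TB_of (LA m k) (LA_pos m k) (LA_le_all m k)
  obtain ⟨j1, hj1⟩ := sch_14 hTB hm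
  have hm1 : (1 : ℝ) < m := by exact_mod_cast hm
  have hm0 : 0 < m := by omega
  have hc'1 : (1 : ℝ) / m < 1 := by
    rw [div_lt_one (by linarith)]
    exact hm1
  obtain ⟨A, C', hC', h1, h2, h3⟩ := gap_final_of_pairs (M := Mk m) (Mk_pos m) (keysOf m k)
    (AA m k) (N := XA m k) (fun K => XT_succ hTB hm0 K) (XT_pos hTB 0)
    (K0 := max K0 (max K1 K2)) (m := M) (Λ := 1000037 ^ 2) (C0 := 30000) (C := C) (C1 := C1)
    (ε := ε) (c := 1 / (2 * m)) (c' := 1 / m) (c0 := c0) (m' := 1)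
    (by norm_num) hCp hC1 hε (by norm_num) (by positivity)
    (by
      rw [div_lt_div_iff₀ (by linarith) (by linarith)]
      linarith)
    hc'1 hc0 zero_le_one (used m) (fun j => Real.log (XA m k (bb (j1 + j))))
    (sch_H1 hTB hm le_rfl)
    (by
      obtain ⟨K3, hK3⟩ := sch_H2 hTB hm le_rfl j1
      exact ⟨K3, hK3⟩)
    (fun l hl hu w hw => hR l ((le_max_left _ _).trans ((le_max_right _ _).trans hl)) hu w hw)
    (fun l hl hu w hw => hC l ((le_max_right _ _).trans ((le_max_right _ _).trans hl)) hu w hw)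
    (fun l l' h1 h2 hu hu' K hK hK' => by
      rw [one_mul]
      exact hP l l' ((le_max_left _ _).trans h1) h2 hu hu' K hK hK')
  refine ⟨A, C', 1 / (2 * m), M + 2, fun j => Real.log (XA m k (bb (j1 + j))), hC', by positivity,
    log_XT_bb_pos hTB _, fun j => hj1 (j1 + j) (by omega), h1, h2, h3⟩

end Pool.Agent.Helper42.T5
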