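import Pool.Agent.Helper42.T5.Horizon

/-!
# T5 (MP_12a1af_nt): the counting function from the used scales
-/

set_option autoImplicit false

namespace Pool.Agent.Helper42.T5

open Finset Pool.Agent.Helper44.T4

theorem scale_le_log {N : ℕ → ℕ} (hN : ∀ K, 2 * N K ≤ N (K + 1)) (hN0 : 1 ≤ N 0) {K x : ℕ}
    (hx : N K ≤ x) : (K : ℝ) ≤ 2 * Real.log x := by
  have h1 : 2 ^ K ≤ x := (two_pow_le_chain hN hN0 K).trans hx
  have h2 : ((2 : ℝ) ^ K) ≤ x := by exact_mod_cast h1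
  have h3 := Real.log_le_log (by positivity) h2
  rw [Real.log_pow] at h3
  have h4 : (0.69 : ℝ) < Real.log 2 := by linarith [Real.log_two_gt_d9]
  have h5 : (0 : ℝ) ≤ K := Nat.cast_nonneg K
  nlinarith

/-- count at `x` from one used scale -/
theorem count_from_scale {N : ℕ → ℕ} (hN : ∀ K, 2 * N K ≤ N (K + 1)) (hN0 : 1 ≤ N 0)
    {K1 c : ℕ} {C2 : ℝ} (hC2 : 0 < C2) {B : Set ℕ} {Used : ℕ → Prop}
    (h : ∀ K, K1 ≤ K → Used K → ∀ x : ℕ, 2 * N (K + 1) ≤ x → Real.sqrt (N K) ≤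
        C2 * (K : ℝ) ^ c * ((B ∩ Set.Iio x).ncard : ℝ)) :
    ∀ K, K1 ≤ K → Used K → ∀ x : ℕ, 2 * N (K + 1) ≤ x →
      Real.sqrt (N K) ≤ C2 * 2 ^ c * (Real.log x) ^ c * ((B ∩ Set.Iio x).ncard : ℝ) := by
  intro K hK hU x hx
  have h1 := h K hK hU x hx
  have hNK := hN K
  have h2 := scale_le_log hN hN0 (show N K ≤ x by omega)
  have h3 : (K : ℝ) ^ c ≤ 2 ^ c * (Real.log x) ^ c := by
    rw [← mul_pow]
    exact pow_le_pow_left₀ (Nat.cast_nonneg _) h2 c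
  calc Real.sqrt (N K) ≤ C2 * (K : ℝ) ^ c * ((B ∩ Set.Iio x).ncard : ℝ) := h1
    _ ≤ C2 * (2 ^ c * (Real.log x) ^ c) * ((B ∩ Set.Iio x).ncard : ℝ) := by
      apply mul_le_mul_of_nonneg_right _ (Nat.cast_nonneg _)
      exact mul_le_mul_of_nonneg_left h3 hC2.le
    _ = _ := by ring

/-- the largest scale with `2 N_(K+1) ≤ x` -/
theorem exists_scale {N : ℕ → ℕ} (hN : ∀ K, 2 * N K ≤ N (K + 1)) (hN0 : 1 ≤ N 0) (K1 x : ℕ)
    (hx : 2 * N (K1 + 1) ≤ x) : ∃ K, K1 ≤ K ∧ 2 * N (K + 1) ≤ x ∧ x < 2 * N (K + 2) := by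
  set P : ℕ → Prop := fun K => 2 * N (K + 1) ≤ x with hP
  have hb : ∀ K, P K → K ≤ x := by
    intro K hK
    have h1 := two_pow_le_chain hN hN0 (K + 1)
    have h2 : K + 1 < 2 ^ (K + 1) := Nat.lt_two_pow_self
    simp only [hP] at hK
    omega
  classical
  set K := Nat.findGreatest P x with hKd
  have hK1 : P K1 := hx
  have h3 : P K := Nat.findGreatest_spec (hb K1 hK1) hK1
  have h4 : K1 ≤ K := Nat.le_findGreatest (hb K1 hK1) hK1
  refine ⟨K, h4, h3, ?_⟩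
  by_contra hcon
  push Not at hcon
  have h5 : P (K + 1) := hcon
  have h6 : K + 1 ≤ K := Nat.le_findGreatest (hb _ h5) h5
  omega

/-- all scales used: the bound for every `x ≥ 2` -/
theorem count_all {N : ℕ → ℕ} (hN : ∀ K, 2 * N K ≤ N (K + 1)) (hN0 : 1 ≤ N 0) {Λ : ℕ}
    (hΛ : ∀ K, N (K + 1) ≤ Λ * N K) {K1 c : ℕ} {C2 : ℝ} (hC2 : 0 < C2) {B : Set ℕ}
    (hB : 1 ∈ B) (h : ∀ K, K1 ≤ K → ∀ x : ℕ, 2 * N (K + 1) ≤ x → Real.sqrt (N K) ≤
        C2 * (K : ℝ) ^ c * ((B ∩ Set.Iio x).ncard : ℝ)) :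
    ∃ C3 : ℝ, 0 < C3 ∧ ∀ C4 : ℝ, C3 ≤ C4 → ∀ x : ℕ, 2 ≤ x →
      Real.sqrt x / (C4 * (Real.log x) ^ c) ≤ ((B ∩ Set.Iio x).ncard : ℝ) := by
  have hNpos : ∀ K, 1 ≤ N K := fun K =>
    (Nat.one_le_two_pow).trans (two_pow_le_chain hN hN0 K)
  have hΛ1 : 1 ≤ Λ := by
    have h1 := hΛ 0
    have h2 := hN 0
    by_contra hcon
    have : Λ = 0 := by omega
    rw [this] at h1
    omega
  have hlog2 : (0 : ℝ) < Real.log 2 := Real.log_pos (by norm_num)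
  set x0 := 2 * N (K1 + 1) with hx0
  refine ⟨2 * Λ * (C2 * 2 ^ c) + Real.sqrt x0 / (Real.log 2) ^ c, ?_, ?_⟩
  · have : 0 < 2 * (Λ : ℝ) * (C2 * 2 ^ c) := by
      have : (1 : ℝ) ≤ Λ := by exact_mod_cast hΛ1
      positivity
    positivity
  intro C4 hC4 x hx
  have hlogx : Real.log 2 ≤ Real.log x := by
    apply Real.log_le_log (by norm_num)
    exact_mod_cast hx
  have hlx : 0 < Real.log x := hlog2.trans_le hlogx
  have hΛr : (1 : ℝ) ≤ Λ := by exact_mod_cast hΛ1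
  have p1 : 0 < 2 * (Λ : ℝ) * (C2 * 2 ^ c) := by positivity
  have p2 : 0 ≤ Real.sqrt x0 / (Real.log 2) ^ c := by positivity
  have hC4p : 0 < C4 := by linarith
  rw [div_le_iff₀ (by positivity)]
  rcases lt_or_ge x x0 with hlt | hge
  · have h1 : 1 ≤ (B ∩ Set.Iio x).ncard := by
      rw [Nat.one_le_iff_ne_zero, ← Nat.pos_iff_ne_zero,
        Set.ncard_pos ((Set.finite_Iio x).subset Set.inter_subset_right)]
      exact ⟨1, hB, by rw [Set.mem_Iio]; omega⟩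
    have h1' : (1 : ℝ) ≤ ((B ∩ Set.Iio x).ncard : ℝ) := by exact_mod_cast h1
    have h2 : Real.sqrt x ≤ Real.sqrt x0 := Real.sqrt_le_sqrt (by exact_mod_cast hlt.le)
    have h3 : Real.sqrt x0 / (Real.log 2) ^ c ≤ C4 := by linarith
    rw [div_le_iff₀ (by positivity)] at h3
    have h4 : C4 * (Real.log 2) ^ c ≤ C4 * (Real.log x) ^ c :=
      mul_le_mul_of_nonneg_left (pow_le_pow_left₀ hlog2.le hlogx c) hC4p.le
    calc Real.sqrt x ≤ C4 * (Real.log x) ^ c := by linarith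
      _ = 1 * (C4 * (Real.log x) ^ c) := (one_mul _).symm
      _ ≤ _ := mul_le_mul_of_nonneg_right h1' (by positivity)
  · obtain ⟨K, hK, hK2, hK3⟩ := exists_scale hN hN0 K1 x hge
    have h1 := count_from_scale (Used := fun _ => True) hN hN0 hC2 (fun K hK _ => h K hK) K hK
      trivial x hK2
    have h2 : x ≤ 2 * (Λ * (Λ * N K)) := by
      have e1 := hΛ K
      have e2 := hΛ (K + 1)
      have e3 : Λ * N (K + 1) ≤ Λ * (Λ * N K) := Nat.mul_le_mul_left _ e1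
      have e4 : N (K + 1 + 1) = N (K + 2) := rfl
      omega
    have h3 : Real.sqrt x ≤ 2 * Λ * Real.sqrt (N K) := by
      have e1 : (x : ℝ) ≤ (2 * Λ) ^ 2 * N K := by
        have : (x : ℝ) ≤ 2 * (Λ * (Λ * N K)) := by exact_mod_cast h2
        have e2 : (0 : ℝ) ≤ (Λ : ℝ) ^ 2 * N K := by positivity
        nlinarith
      calc Real.sqrt x ≤ Real.sqrt ((2 * Λ) ^ 2 * N K) := Real.sqrt_le_sqrt e1
        _ = 2 * Λ * Real.sqrt (N K) := by
          rw [Real.sqrt_mul (by positivity), Real.sqrt_sq (by positivity)]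
    have h4 : 2 * (Λ : ℝ) * Real.sqrt (N K) ≤
        2 * Λ * (C2 * 2 ^ c * (Real.log x) ^ c * ((B ∩ Set.Iio x).ncard : ℝ)) :=
      mul_le_mul_of_nonneg_left h1 (by positivity)
    have h5 : 2 * (Λ : ℝ) * (C2 * 2 ^ c) ≤ C4 := by linarith
    calc Real.sqrt x ≤ _ := h3
      _ ≤ _ := h4
      _ = (2 * Λ * (C2 * 2 ^ c)) * ((Real.log x) ^ c * ((B ∩ Set.Iio x).ncard : ℝ)) := by ring
      _ ≤ C4 * ((Real.log x) ^ c * ((B ∩ Set.Iio x).ncard : ℝ)) :=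
        mul_le_mul_of_nonneg_right h5 (by positivity)
      _ = _ := by ring

end Pool.Agent.Helper42.T5
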