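import Pool.Agent.Helper42.T5.CountAll

/-!
# T5a (MP_12a1af_nt): the counting function when some scales are not used
-/

set_option autoImplicit false

namespace Pool.Agent.Helper42.T5

open Finset Pool.Agent.Helper44.T4 Filter

/-- for large `x`: `m log x ≤ x ^ δ` -/
theorem log_le_rpow_eventually {δ : ℝ} (hδ : 0 < δ) (m : ℝ) :
    ∃ X : ℝ, 1 ≤ X ∧ ∀ x : ℝ, X ≤ x → m * Real.log x ≤ x ^ δ := by
  have h2 := (isLittleO_log_rpow_atTop hδ).bound (show (0 : ℝ) < 1 / (|m| + 1) by positivity)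
  obtain ⟨X, hX⟩ := (h2.and (eventually_ge_atTop 1)).exists_forall_of_atTop
  refine ⟨max X 1, le_max_right _ _, fun x hx => ?_⟩
  obtain ⟨h3, h4⟩ := hX x ((le_max_left _ _).trans hx)
  have h5 : 0 ≤ Real.log x := Real.log_nonneg h4
  rw [Real.norm_of_nonneg h5, Real.norm_of_nonneg (Real.rpow_nonneg (by linarith) _)] at h3
  rw [one_div, inv_mul_eq_div, le_div_iff₀ (by positivity)] at h3
  have h6 : m ≤ |m| := le_abs_self m
  nlinarith [abs_nonneg m]

/-- for large `x`: `C x ^ α ≤ x ^ β` if `α < β` -/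
theorem rpow_le_rpow_eventually {α β : ℝ} (h : α < β) (C : ℝ) :
    ∃ X : ℝ, 1 ≤ X ∧ ∀ x : ℝ, X ≤ x → C * x ^ α ≤ x ^ β := by
  have h1 := (tendsto_rpow_atTop (sub_pos.2 h)).eventually_ge_atTop C
  obtain ⟨X, hX⟩ := (h1.and (eventually_ge_atTop 1)).exists_forall_of_atTop
  refine ⟨max X 1, le_max_right _ _, fun x hx => ?_⟩
  obtain ⟨h3, h4⟩ := hX x ((le_max_left _ _).trans hx)
  have h5 : x ^ β = x ^ (β - α) * x ^ α := by
    rw [← Real.rpow_add (by linarith)]
    congr 1
    ring
  rw [h5]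
  exact mul_le_mul_of_nonneg_right h3 (Real.rpow_nonneg (by linarith) _)

/-- trivial bound for small `x` -/
theorem one_le_count {B : Set ℕ} (hB : 1 ∈ B) {x : ℕ} (hx : 2 ≤ x) :
    (1 : ℝ) ≤ ((B ∩ Set.Iio x).ncard : ℝ) := by
  have h1 : 1 ≤ (B ∩ Set.Iio x).ncard := by
    rw [Nat.one_le_iff_ne_zero, ← Nat.pos_iff_ne_zero,
      Set.ncard_pos ((Set.finite_Iio x).subset Set.inter_subset_right)]
    exact ⟨1, hB, by rw [Set.mem_Iio]; omega⟩
  exact_mod_cast h1

/-- **count with gaps** -/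
theorem count_gap {N : ℕ → ℕ} (hN : ∀ K, 2 * N K ≤ N (K + 1)) (hN0 : 1 ≤ N 0)
    {K1 m Λ : ℕ} {C0 C2 c c' : ℝ} (hC0 : 0 ≤ C0) (hC2 : 0 < C2) (hΛ : 1 ≤ Λ)
    (hc : 0 < c) (hcc : c < c') (hc' : c' < 1)
    {B : Set ℕ} (hB : 1 ∈ B) {Used : ℕ → Prop} (b : ℕ → ℝ)
    (h : ∀ K, K1 ≤ K → Used K → ∀ x : ℕ, 2 * N (K + 1) ≤ x → Real.sqrt (N K) ≤
        C2 * (K : ℝ) ^ m * ((B ∩ Set.Iio x).ncard : ℝ))
    (H1 : ∃ K2 : ℕ, ∀ K, K2 ≤ K → ∃ K', K1 ≤ K' ∧ K' ≤ K ∧ Used K' ∧
      Real.log (N (K + 2)) - Real.log (N K') ≤ C0 * (K : ℝ) ^ (1 - c'))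
    (H2 : ∃ K2 : ℕ, ∀ K, K2 ≤ K → (Used K ∧ N (K + 2) ≤ Λ * N K) ∨
      ∃ j, |Real.log (N (K + 2)) - b j| ≤ C0 * (K : ℝ) ^ (1 - c') ∧
        |Real.log (N K) - b j| ≤ C0 * (K : ℝ) ^ (1 - c')) :
    ∃ C3 : ℝ, 0 < C3 ∧ ∀ C4 : ℝ, C3 ≤ C4 →
      (∀ x : ℕ, 2 ≤ x → (∀ j, (Real.log x) ^ (1 - c) ≤ |Real.log x - b j|) →
        Real.sqrt x / (C4 * (Real.log x) ^ m) ≤ ((B ∩ Set.Iio x).ncard : ℝ)) ∧
      (∀ x : ℕ, 2 ≤ x →
        Real.sqrt x * Real.exp (-(C4 * (Real.log x) ^ (1 - c))) ≤
          ((B ∩ Set.Iio x).ncard : ℝ)) := by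
  have hNpos : ∀ K, 1 ≤ N K := fun K =>
    (Nat.one_le_two_pow).trans (two_pow_le_chain hN hN0 K)
  have hNposr : ∀ K, (0 : ℝ) < N K := fun K => by exact_mod_cast (hNpos K)
  have hmono : Monotone N := by
    apply monotone_nat_of_le_succ
    intro K
    have := hN K
    omega
  have hscale := count_from_scale hN hN0 hC2 h
  obtain ⟨K2, hK2⟩ := H1
  obtain ⟨K3, hK3⟩ := H2
  -- thresholds
  obtain ⟨Y1, hY1, hY1'⟩ := rpow_le_rpow_eventually (show 1 - c' < 1 - c by linarith)
    (2 * C0 + 2)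
  obtain ⟨Y2, hY2, hY2'⟩ := log_le_rpow_eventually (show (0 : ℝ) < 1 - c by linarith) (m : ℝ)
  set Y := max Y1 Y2 with hY
  set K4 := max (max K1 K2) K3 with hK4
  -- x0 large
  obtain ⟨x0, hx0⟩ : ∃ x0 : ℕ, 2 * N (K4 + 1) ≤ x0 ∧ Real.exp Y ≤ x0 := by
    obtain ⟨n, hn⟩ := exists_nat_ge (Real.exp Y)
    exact ⟨max (2 * N (K4 + 1)) n, le_max_left _ _, hn.trans (by exact_mod_cast le_max_right _ _)⟩
  have hlog2 : (0 : ℝ) < Real.log 2 := Real.log_pos (by norm_num)
  have hΛr : (1 : ℝ) ≤ Λ := by exact_mod_cast hΛ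
  set E := C2 * 2 ^ m with hE
  have hEp : 0 < E := by positivity
  have hl2e : 0 < (Real.log 2) ^ (1 - c) := Real.rpow_pos_of_pos hlog2 _
  set C3 := 2 * Λ * E + Real.sqrt x0 / (Real.log 2) ^ m + (1 + 1 + |Real.log (2 * E)| +
    |Real.log (Real.sqrt x0 + 1)|) / (Real.log 2) ^ (1 - c) + 2 with hC3
  have q1 : 0 < 2 * (Λ : ℝ) * E := by positivity
  have q2 : 0 ≤ Real.sqrt x0 / (Real.log 2) ^ m := by positivity
  have q3 : 0 ≤ (1 + 1 + |Real.log (2 * E)| +
    |Real.log (Real.sqrt x0 + 1)|) / (Real.log 2) ^ (1 - c) := by positivity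
  refine ⟨C3, by linarith, ?_⟩
  intro C4 hC4
  have hC4p : 0 < C4 := by linarith
  refine ⟨?_, ?_⟩
  · -- off the gaps
    intro x hx hgap
    have hlogx : Real.log 2 ≤ Real.log x := by
      apply Real.log_le_log (by norm_num)
      exact_mod_cast hx
    have hlx : 0 < Real.log x := hlog2.trans_le hlogx
    rw [div_le_iff₀ (by positivity)]
    rcases lt_or_ge x x0 with hlt | hge
    · have h1' := one_le_count hB hx
      have h2 : Real.sqrt x ≤ Real.sqrt x0 := Real.sqrt_le_sqrt (by exact_mod_cast hlt.le)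
      have h3 : Real.sqrt x0 / (Real.log 2) ^ m ≤ C4 := by linarith
      rw [div_le_iff₀ (by positivity)] at h3
      have h4 : C4 * (Real.log 2) ^ m ≤ C4 * (Real.log x) ^ m :=
        mul_le_mul_of_nonneg_left (pow_le_pow_left₀ hlog2.le hlogx m) hC4p.le
      calc Real.sqrt x ≤ C4 * (Real.log x) ^ m := by linarith
        _ = 1 * (C4 * (Real.log x) ^ m) := (one_mul _).symm
        _ ≤ _ := mul_le_mul_of_nonneg_right h1' (by positivity)
    · obtain ⟨K, hK, hKa, hKb⟩ := exists_scale hN hN0 K4 x (hx0.1.trans hge)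
      have hxY : Y ≤ Real.log x := by
        rw [Real.le_log_iff_exp_le (by exact_mod_cast (by omega : 0 < x))]
        exact hx0.2.trans (by exact_mod_cast hge)
      have hKl : (K : ℝ) ≤ 2 * Real.log x := by
        apply scale_le_log hN hN0
        have := hN K
        omega
      rcases hK3 K ((le_max_right _ _).trans hK) with ⟨hU, hr⟩ | ⟨j, hj1, hj2⟩
      · have h1 := hscale K (((le_max_left _ _).trans (le_max_left _ _)).trans hK) hU x hKa
        have h2 : x ≤ 2 * (Λ * N K) := by omega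
        have h3 : Real.sqrt x ≤ 2 * Λ * Real.sqrt (N K) := by
          have e1 : (x : ℝ) ≤ (2 * Λ) ^ 2 * N K := by
            have e0 : (x : ℝ) ≤ 2 * (Λ * N K) := by exact_mod_cast h2
            have e2 : (0 : ℝ) ≤ (Λ : ℝ) * N K := by positivity
            have e3 : (Λ : ℝ) * N K ≤ Λ * (Λ * N K) := by nlinarith
            nlinarith
          calc Real.sqrt x ≤ Real.sqrt ((2 * Λ) ^ 2 * N K) := Real.sqrt_le_sqrt e1
            _ = 2 * Λ * Real.sqrt (N K) := by
              rw [Real.sqrt_mul (by positivity), Real.sqrt_sq (by positivity)]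
        have h4 : 2 * (Λ : ℝ) * Real.sqrt (N K) ≤
            2 * Λ * (C2 * 2 ^ m * (Real.log x) ^ m * ((B ∩ Set.Iio x).ncard : ℝ)) :=
          mul_le_mul_of_nonneg_left h1 (by positivity)
        have h5 : 2 * (Λ : ℝ) * E ≤ C4 := by linarith
        calc Real.sqrt x ≤ _ := h3
          _ ≤ _ := h4
          _ = (2 * Λ * E) * ((Real.log x) ^ m * ((B ∩ Set.Iio x).ncard : ℝ)) := by
            rw [hE]; ring
          _ ≤ C4 * ((Real.log x) ^ m * ((B ∩ Set.Iio x).ncard : ℝ)) :=
            mul_le_mul_of_nonneg_right h5 (by positivity)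
          _ = _ := by ring
      · -- impossible
        exfalso
        have hg := hgap j
        have hY1x : Y1 ≤ Real.log x := (le_max_left _ _).trans hxY
        have hlx1 : 1 ≤ Real.log x := hY1.trans hY1x
        have e1 := hY1' (Real.log x) hY1x
        have e2 : C0 * (K : ℝ) ^ (1 - c') ≤ 2 * C0 * (Real.log x) ^ (1 - c') := by
          have e3 : (K : ℝ) ^ (1 - c') ≤ (2 * Real.log x) ^ (1 - c') :=
            Real.rpow_le_rpow (Nat.cast_nonneg _) hKl (by linarith)
          have e4 : (2 * Real.log x) ^ (1 - c') = 2 ^ (1 - c') * (Real.log x) ^ (1 - c') :=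
            Real.mul_rpow (by norm_num) (by linarith)
          have e5 : (2 : ℝ) ^ (1 - c') ≤ 2 ^ (1 : ℝ) :=
            Real.rpow_le_rpow_of_exponent_le (by norm_num) (by linarith)
          rw [Real.rpow_one] at e5
          have e6 : 0 ≤ (Real.log x) ^ (1 - c') := Real.rpow_nonneg (by linarith) _
          calc C0 * (K : ℝ) ^ (1 - c') ≤ C0 * (2 ^ (1 - c') * (Real.log x) ^ (1 - c')) := by
                rw [← e4]; exact mul_le_mul_of_nonneg_left e3 hC0
            _ ≤ C0 * (2 * (Real.log x) ^ (1 - c')) :=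
                mul_le_mul_of_nonneg_left (mul_le_mul_of_nonneg_right e5 e6) hC0
            _ = _ := by ring
        have e7 : 1 ≤ (Real.log x) ^ (1 - c') := Real.one_le_rpow hlx1 (by linarith)
        have hxr : (0 : ℝ) < x := by exact_mod_cast (by omega : 0 < x)
        have e8 : Real.log (N K) ≤ Real.log x := by
          apply Real.log_le_log (hNposr K)
          have := hN K
          exact_mod_cast (by omega : N K ≤ x)
        have e9 : Real.log x ≤ Real.log (N (K + 2)) + 1 := by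
          have f1 : (x : ℝ) ≤ 2 * N (K + 2) := by exact_mod_cast hKb.le
          have f2 := Real.log_le_log hxr f1
          rw [Real.log_mul (by norm_num) (hNposr _).ne'] at f2
          have f3 : Real.log 2 < 1 := by linarith [Real.log_two_lt_d9]
          linarith
        have e10 : |Real.log x - b j| ≤ C0 * (K : ℝ) ^ (1 - c') + 1 := by
          rw [abs_le] at hj1 hj2 ⊢
          constructor <;> linarith
        have e11 : (2 * C0 + 2) * (Real.log x) ^ (1 - c') =
            2 * C0 * (Real.log x) ^ (1 - c') + 2 * (Real.log x) ^ (1 - c') := by ring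
        linarith
  · -- always
    intro x hx
    have hlogx : Real.log 2 ≤ Real.log x := by
      apply Real.log_le_log (by norm_num)
      exact_mod_cast hx
    have hlx : 0 < Real.log x := hlog2.trans_le hlogx
    have hxr : (0 : ℝ) < x := by exact_mod_cast (by omega : 0 < x)
    have g1 : (Real.log 2) ^ (1 - c) ≤ (Real.log x) ^ (1 - c) :=
      Real.rpow_le_rpow hlog2.le hlogx (by linarith)
    have g2 : 1 + 1 + |Real.log (2 * E)| + |Real.log (Real.sqrt x0 + 1)| ≤
        (C4 - 2) * (Real.log x) ^ (1 - c) := by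
      have g3 : (1 + 1 + |Real.log (2 * E)| + |Real.log (Real.sqrt x0 + 1)|) /
        (Real.log 2) ^ (1 - c) ≤ C4 - 2 := by linarith
      rw [div_le_iff₀ hl2e] at g3
      refine g3.trans (mul_le_mul_of_nonneg_left g1 ?_)
      linarith
    have g4 := abs_nonneg (Real.log (2 * E))
    have g5 := abs_nonneg (Real.log (Real.sqrt x0 + 1))
    have g6 : 0 ≤ (Real.log x) ^ (1 - c) := hl2e.le.trans g1
    have h1' := one_le_count hB hx
    rcases lt_or_ge x x0 with hlt | hge
    · refine le_trans ?_ h1'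
      have h2 : Real.sqrt x ≤ Real.sqrt x0 + 1 := by
        have : Real.sqrt x ≤ Real.sqrt x0 := Real.sqrt_le_sqrt (by exact_mod_cast hlt.le)
        linarith
      have h3 : 0 < Real.sqrt x0 + 1 := by positivity
      have h4 : Real.sqrt x ≤ Real.exp (C4 * (Real.log x) ^ (1 - c)) := by
        refine h2.trans ?_
        rw [← Real.log_le_iff_le_exp h3]
        have := le_abs_self (Real.log (Real.sqrt x0 + 1))
        nlinarith
      rw [Real.exp_neg, mul_inv_le_iff₀ (Real.exp_pos _)]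
      linarith
    · obtain ⟨K, hK, hKa, hKb⟩ := exists_scale hN hN0 K4 x (hx0.1.trans hge)
      have hxY : Y ≤ Real.log x := by
        rw [Real.le_log_iff_exp_le hxr]
        exact hx0.2.trans (by exact_mod_cast hge)
      have hKl : (K : ℝ) ≤ 2 * Real.log x := by
        apply scale_le_log hN hN0
        have := hN K
        omega
      obtain ⟨K', k1, k2, k3, k4⟩ := hK2 K (((le_max_right _ _).trans (le_max_left _ _)).trans hK)
      have h5 := hscale K' k1 k3 x (le_trans (Nat.mul_le_mul_left 2 (hmono (by omega))) hKa)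
      have hY1x : Y1 ≤ Real.log x := (le_max_left _ _).trans hxY
      have hY2x : Y2 ≤ Real.log x := (le_max_right _ _).trans hxY
      have hlx1 : 1 ≤ Real.log x := hY1.trans hY1x
      have e1 := hY1' (Real.log x) hY1x
      have e1' := hY2' (Real.log x) hY2x
      have e2 : C0 * (K : ℝ) ^ (1 - c') ≤ 2 * C0 * (Real.log x) ^ (1 - c') := by
        have e3 : (K : ℝ) ^ (1 - c') ≤ (2 * Real.log x) ^ (1 - c') :=
          Real.rpow_le_rpow (Nat.cast_nonneg _) hKl (by linarith)
        have e4 : (2 * Real.log x) ^ (1 - c') = 2 ^ (1 - c') * (Real.log x) ^ (1 - c') :=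
          Real.mul_rpow (by norm_num) (by linarith)
        have e5 : (2 : ℝ) ^ (1 - c') ≤ 2 ^ (1 : ℝ) :=
          Real.rpow_le_rpow_of_exponent_le (by norm_num) (by linarith)
        rw [Real.rpow_one] at e5
        have e6 : 0 ≤ (Real.log x) ^ (1 - c') := Real.rpow_nonneg (by linarith) _
        calc C0 * (K : ℝ) ^ (1 - c') ≤ C0 * (2 ^ (1 - c') * (Real.log x) ^ (1 - c')) := by
              rw [← e4]; exact mul_le_mul_of_nonneg_left e3 hC0
          _ ≤ C0 * (2 * (Real.log x) ^ (1 - c')) :=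
              mul_le_mul_of_nonneg_left (mul_le_mul_of_nonneg_right e5 e6) hC0
          _ = _ := by ring
      have e7 : 0 ≤ (Real.log x) ^ (1 - c') := Real.rpow_nonneg (by linarith) _
      have e8 : (2 * C0 + 2) * (Real.log x) ^ (1 - c') =
          2 * C0 * (Real.log x) ^ (1 - c') + 2 * (Real.log x) ^ (1 - c') := by ring
      -- positivity of the count
      set n := ((B ∩ Set.Iio x).ncard : ℝ) with hn
      have hn0 : 0 < n := by linarith
      -- logarithms
      have f1 : (x : ℝ) ≤ 2 * N (K + 2) := by exact_mod_cast hKb.le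
      have f2 := Real.log_le_log hxr f1
      rw [Real.log_mul (by norm_num) (hNposr _).ne'] at f2
      have f3 : Real.log 2 < 1 := by linarith [Real.log_two_lt_d9]
      have f4 : Real.log (Real.sqrt (N K')) ≤ Real.log (E * (Real.log x) ^ m * n) := by
        apply Real.log_le_log (Real.sqrt_pos.2 (hNposr K'))
        exact h5
      have f5 : Real.log (Real.sqrt (N K')) = Real.log (N K') / 2 := by
        rw [Real.log_sqrt (hNposr K').le]
      have f6 : Real.log (E * (Real.log x) ^ m * n) =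
          Real.log E + m * Real.log (Real.log x) + Real.log n := by
        rw [Real.log_mul (by positivity) hn0.ne', Real.log_mul hEp.ne' (by positivity),
          Real.log_pow]
      have f7 : Real.log (2 * E) = Real.log 2 + Real.log E :=
        Real.log_mul (by norm_num) hEp.ne'
      have f8 := le_abs_self (Real.log (2 * E))
      -- conclusion
      have f9 : Real.log (Real.sqrt x * Real.exp (-(C4 * (Real.log x) ^ (1 - c)))) ≤
          Real.log n := by
        rw [Real.log_mul (Real.sqrt_pos.2 hxr).ne' (Real.exp_pos _).ne', Real.log_exp,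
          Real.log_sqrt hxr.le]
        rw [f5, f6] at f4
        nlinarith
      exact (Real.log_le_log_iff (by positivity) hn0).1 f9

end Pool.Agent.Helper42.T5
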