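import Pool.Agent.Helper11.T5.Dep

/-!
# T5: change of the numbers of values of the keys; pairs of states with different parameters
-/

set_option autoImplicit false

namespace Pool.Agent.Helper42.T5

open Finset Pool.Agent.Helper27.T5 Pool.Agent.Helper30.T5 Pool.Agent.Helper27.T4
open Pool.Agent.Helper11.T5 Pool.Agent.Helper42.T5.Pr

/-! ## change of the numbers of values -/

section gen

variable {κ : Type*} [DecidableEq κ]

theorem OmK_congr {M M' : κ → ℕ} {K : Finset κ} (h : ∀ k ∈ K, M k = M' k) :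
    OmK M K = OmK M' K := by
  unfold OmK
  congr 1
  funext k
  exact h k.1 k.2

theorem PrLe_congr_M {M M' : κ → ℕ} {K : Finset κ} (h : ∀ k ∈ K, M k = M' k)
    {B : (κ → ℕ) → Prop} {ε : ℝ} : PrLe M K B ε ↔ PrLe M' K B ε := by
  unfold PrLe
  rw [OmK_congr h]

/-- **transfer**: an event which depends only on the keys of `K0`, where `M` and `M'` agree -/
theorem PrLe_transfer {M M' : κ → ℕ} {K0 K : Finset κ} (hK : K0 ⊆ K)
    (h : ∀ k ∈ K0, M k = M' k) {B : (κ → ℕ) → Prop} {ε : ℝ} (hdep : DepOn K0 B)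
    (hB : PrLe M K0 B ε) : PrLe M' K B ε :=
  PrLe_of_dep hK hdep ((PrLe_congr_M h).1 hB)

end gen

/-! ## the pairs of states, possibly with different parameters -/

/-- number of representations by two states with their own parameters -/
noncomputable def Rq (m k l m' k' l' : ℕ) (w : Key → ℕ) (n : ℕ) : ℕ :=
  ((AA m k l w ×ˢ AA m' k' l' w).filter (fun q => q.1 + q.2 = n)).card

theorem Rq_same (m k l l' : ℕ) (w : Key → ℕ) (n : ℕ) :
    Rq m k l m k l' w n = Rp m k l l' w n := rfl

theorem depOn_Rq (m k l m' k' l' : ℕ) (c : ℝ) :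
    DepOn (keysOf m k l ∪ keysOf m' k' l') (fun w => ∃ n, c < (Rq m k l m' k' l' w n : ℝ)) := by
  intro w w' h
  have h1 : AA m k l w = AA m k l w' := AA_congr fun q hq => h q (mem_union_left _ hq)
  have h2 : AA m' k' l' w = AA m' k' l' w' := AA_congr fun q hq => h q (mem_union_right _ hq)
  show (∃ n, c < (Rq m k l m' k' l' w n : ℝ)) ↔ (∃ n, c < (Rq m k l m' k' l' w' n : ℝ))
  unfold Rq
  rw [h1, h2]

end Pool.Agent.Helper42.T5
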