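import Pool.Agent.Helper42.T5.Dep
import Pool.Agent.Helper5.T5.Pair

/-!
# T5a: the far block with two parameters
-/

set_option autoImplicit false

namespace Pool.Agent.Helper42.T5

open Finset Pool.Agent.Helper27.T5 Pool.Agent.Helper11.T5
open Pool.Agent.Helper42.T5.Pr
open Pool.Agent.Helper5.ET (era bb Nj)

/-- FAR with two parameters: the number `k` of static levels of the state `l` may be larger than
the number `k'` of the earlier state `l'`; `M` is any table of numbers of values which agrees with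
the two tables on the keys of the two states -/
def FarStmt2 : Prop := ∃ (E k0 : ℕ) (K0 : ℕ → ℕ) (C1 : ℕ → ℝ), ∀ k' k, k0 ≤ k' → k' ≤ k →
  ∀ l l', K0 k' ≤ l' → K0 k ≤ l → l' ≤ l → used (k + 2) l → used (k' + 2) l' →
  200 * W (k + 2) (era l) 1 ≤ l - l' →
  ∀ M : Key → ℕ, (∀ q, 0 < M q) → (∀ q ∈ keysOf (k + 2) k l, M q = Mk (k + 2) q) →
    (∀ q ∈ keysOf (k' + 2) k' l', M q = Mk (k' + 2) q) →
  ∀ K : Finset Key, keysOf (k + 2) k l ⊆ K → keysOf (k' + 2) k' l' ⊆ K →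
  PrLe M K
    (fun w => ∃ n, C1 k * (l : ℝ) ^ ((E : ℝ) / ((k + 2 : ℕ) : ℝ)) <
      (Rq (k + 2) k l (k' + 2) k' l' w n : ℝ))
    (Real.exp (-(l : ℝ)))

/-- the far block with one parameter -/
theorem FarStmt2.far (h : FarStmt2) : Pool.Agent.Helper5.T5.FarStmt := by
  obtain ⟨E, k0, K0, C1, h⟩ := h
  refine ⟨E, k0, fun k hk => ⟨K0 k + 1, |C1 k|, 1, 1, abs_nonneg _, one_pos, zero_le_one, ?_⟩⟩
  intro l l' hl' hll hu hu' hp K hK hK'
  refine PrLe_mono (fun w _ hw => ?_) ?_ (h k k hk le_rfl l l' (by omega) (by omega) hll hu hu' hp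
    (Mk (k + 2)) (Mk_pos _) (fun _ _ => rfl) (fun _ _ => rfl) K hK hK')
  · obtain ⟨n, hn⟩ := hw
    refine ⟨n, lt_of_le_of_lt ?_ hn⟩
    exact mul_le_mul_of_nonneg_right (le_abs_self _) (Real.rpow_nonneg (Nat.cast_nonneg _) _)
  · rw [one_mul, Real.rpow_one]

end Pool.Agent.Helper42.T5
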