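import Pool.Agent.Helper42.T5.SetR

/-!
# T5, block Z with gaps of relative length `d` for every `d > 0`, general loss

The bound for a pair of states is `r l`, the failure probability `δ l`, the loss in the count of a
state is `Lo l` (all arbitrary functions with the growth conditions stated).
-/

set_option autoImplicit false

namespace Pool.Agent.Helper42.T5

open Finset Pool.Agent.Helper44.T4 Pool.Agent.Helper42.T5.Pr

/-! ## sets -/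

/-- one horizon, general bound and loss -/
theorem horizon_set_L {N : ℕ → ℕ} (hN : ∀ K, 2 * N K ≤ N (K + 1)) (hN0 : 1 ≤ N 0) {K0 : ℕ}
    (hK0 : 7 ≤ K0) {Lo : ℕ → ℝ} (hLo : ∀ K, 0 ≤ Lo K) {R : ℕ → ℝ} (hR : Monotone R)
    (hR0 : ∀ K, 0 ≤ R K) (Used : ℕ → Prop) (S : ℕ) (A : ℕ → Finset ℕ)
    (h1 : ∀ K, K0 ≤ K → ∀ a ∈ A K, N K ≤ a ∧ a < N (K + 1))
    (h2 : ∀ K, K0 ≤ K → K < S → Used K → Real.sqrt (N K) ≤ Lo K * (A K).card)
    (h3 : ∀ K K', K0 ≤ K' → K' ≤ K → ∀ n : ℕ,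
      (((A K ×ˢ A K').filter (fun q => q.1 + q.2 = n)).card : ℝ) ≤ R K) :
    ∃ B : Set ℕ, (∀ n : ℕ, 2 ≤ n → (rep B n : ℝ) ≤ 6 * R (Nat.log 2 n)) ∧
      ∀ K, K0 ≤ K → K < S → Used K → Real.sqrt (N K) ≤
        2 * (K : ℝ) ^ 2 * Lo K * ((B ∩ Set.Iio (2 * N (K + 1))).ncard : ℝ) := by
  have hp := two_pow_le_chain hN hN0
  obtain ⟨B, hB1, hB2⟩ := label_chain (A := A) (N := N) (K0 := K0) (by omega) hN
    (fun K hK => (two_mul_sq_le_two_pow (hK0.trans hK)).trans (hp K)) hR hR0 h1 h3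
  refine ⟨B, ?_, ?_⟩
  · intro n hn
    exact hB1 n _ ((Nat.lt_pow_succ_log_self (by norm_num) n).trans_le (hp _))
  · intro K hK hKS hU
    have h7 := h2 K hK hKS hU
    have h8 := hB2 K hK (2 * N (K + 1)) le_rfl
    have h9 : (((A K).card : ℕ) : ℝ) ≤
        2 * (K : ℝ) ^ 2 * ((B ∩ Set.Iio (2 * N (K + 1))).ncard : ℝ) := by exact_mod_cast h8
    calc Real.sqrt (N K) ≤ Lo K * (A K).card := h7
      _ ≤ Lo K * (2 * (K : ℝ) ^ 2 * ((B ∩ Set.Iio (2 * N (K + 1))).ncard : ℝ)) :=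
        mul_le_mul_of_nonneg_left h9 (hLo K)
      _ = _ := by ring

/-- **from the horizons to one set, general bound and loss** -/
theorem set_of_horizons_L {N : ℕ → ℕ} (hN : ∀ K, 2 * N K ≤ N (K + 1)) (hN0 : 1 ≤ N 0)
    {K0 : ℕ} {Lo : ℕ → ℝ} (hLo : ∀ K, 0 ≤ Lo K) {R : ℕ → ℝ} (hR : Monotone R)
    (hR0 : ∀ K, 0 ≤ R K) (Used : ℕ → Prop)
    (h : ∀ S : ℕ, ∃ A : ℕ → Finset ℕ,
      (∀ K, K0 ≤ K → ∀ a ∈ A K, N K ≤ a ∧ a < N (K + 1)) ∧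
      (∀ K, K0 ≤ K → K < S → Used K → Real.sqrt (N K) ≤ Lo K * (A K).card) ∧
      (∀ K K', K0 ≤ K' → K' ≤ K → ∀ n : ℕ,
        (((A K ×ˢ A K').filter (fun q => q.1 + q.2 = n)).card : ℝ) ≤ R K)) :
    ∃ (B : Set ℕ) (K1 : ℕ), 1 ∈ B ∧
      (∀ n : ℕ, 2 ≤ n → (rep B n : ℝ) ≤ 6 * R (Nat.log 2 n) + 2) ∧
      ∀ K, K1 ≤ K → Used K → ∀ x : ℕ, 2 * N (K + 1) ≤ x → Real.sqrt (N K) ≤
        2 * (K : ℝ) ^ 2 * Lo K * ((B ∩ Set.Iio x).ncard : ℝ) := by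
  set K1 := max K0 7 with hK1
  obtain ⟨B, hB⟩ := limit_sets (ι := ℕ ⊕ ℕ)
    (Sum.elim (fun n => n) (fun K => 2 * N (K + 1)))
    (Sum.elim (fun n B => 2 ≤ n → (rep B n : ℝ) ≤ 6 * R (Nat.log 2 n))
      (fun K B => K1 ≤ K → Used K → Real.sqrt (N K) ≤
        2 * (K : ℝ) ^ 2 * Lo K * ((B ∩ Set.Iio (2 * N (K + 1))).ncard : ℝ)))
    (by
      rintro (n | K) A B hAB hP
      · simp only [Sum.elim_inl] at *
        rw [← rep_congr A B n hAB]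
        exact hP
      · simp only [Sum.elim_inr] at *
        rw [← inter_Iio_congr A B _ hAB]
        exact hP)
    (by
      intro M
      obtain ⟨A, h1, h2, h3⟩ := h (M + 1)
      obtain ⟨B, b1, b2⟩ := horizon_set_L (K0 := K1)
        hN hN0 (le_max_right _ _) hLo hR hR0 Used
        (M + 1) A (fun K hK => h1 K ((le_max_left _ _).trans hK))
        (fun K hK => h2 K ((le_max_left _ _).trans hK))
        (fun K K' hK' => h3 K K' ((le_max_left _ _).trans hK'))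
      refine ⟨B, ?_⟩
      rintro (n | K) hi
      · simp only [Sum.elim_inl]
        exact b1 n
      · simp only [Sum.elim_inr] at *
        intro hK hU
        refine b2 K hK ?_ hU
        have h4 : K + 1 < 2 ^ (K + 1) := Nat.lt_two_pow_self
        have h5 := two_pow_le_chain hN hN0 (K + 1)
        omega)
  refine ⟨insert 1 B, K1, Set.mem_insert _ _, ?_, ?_⟩
  · intro n hn
    have e0 := hB (Sum.inl n)
    simp only [Sum.elim_inl] at e0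
    have e2 := e0 hn
    have e1 : ((rep (insert 1 B) n : ℕ) : ℝ) ≤ (rep B n : ℝ) + 2 := by
      exact_mod_cast rep_insert_le B 1 n
    linarith
  · intro K hK hU x hx
    have e0 := hB (Sum.inr K)
    simp only [Sum.elim_inr] at e0
    refine (e0 hK hU).trans ?_
    have e1 : (B ∩ Set.Iio (2 * N (K + 1))).ncard ≤ ((insert 1 B) ∩ Set.Iio x).ncard := by
      apply Set.ncard_le_ncard _ ((Set.finite_Iio x).subset Set.inter_subset_right)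
      rintro b ⟨b1, b2⟩
      exact ⟨Set.mem_insert_of_mem _ b1, lt_of_lt_of_le b2 hx⟩
    have e2 : ((B ∩ Set.Iio (2 * N (K + 1))).ncard : ℝ) ≤
        (((insert 1 B) ∩ Set.Iio x).ncard : ℝ) := by exact_mod_cast e1
    exact mul_le_mul_of_nonneg_left e2 (mul_nonneg (by positivity) (hLo K))

variable {κ : Type*} [DecidableEq κ] {M : κ → ℕ}

/-- the families for all horizons, general bound and loss -/
theorem horizons_of_pairs_L (hM : ∀ k, 0 < M k) (keysOf : ℕ → Finset κ)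
    (AA : ℕ → (κ → ℕ) → Finset ℕ) (N : ℕ → ℕ) (Used : ℕ → Prop) {K0 : ℕ}
    {Lo r δ : ℕ → ℝ} (hr0 : ∀ l, 0 ≤ r l) (hδ : ∀ l, 0 ≤ δ l)
    (hs : Summable (fun l : ℕ => ((l : ℝ) + 1) * δ l))
    (hrange : ∀ l, K0 ≤ l → Used l → ∀ w : κ → ℕ, (∀ k, w k < M k) →
      ∀ a ∈ AA l w, N l ≤ a ∧ a < N (l + 1))
    (hcount : ∀ l, K0 ≤ l → Used l → ∀ w : κ → ℕ, (∀ k, w k < M k) →
      Real.sqrt (N l) ≤ Lo l * (AA l w).card)
    (hpair : ∀ l l', K0 ≤ l' → l' ≤ l → Used l → Used l' → ∀ K : Finset κ,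
      keysOf l ⊆ K → keysOf l' ⊆ K →
      PrLe M K (fun w => ∃ n, r l <
        (((AA l w ×ˢ AA l' w).filter (fun q => q.1 + q.2 = n)).card : ℝ)) (δ l)) :
    ∃ K1, ∀ S : ℕ, ∃ A : ℕ → Finset ℕ,
      (∀ K, K1 ≤ K → ∀ a ∈ A K, N K ≤ a ∧ a < N (K + 1)) ∧
      (∀ K, K1 ≤ K → K < S → Used K → Real.sqrt (N K) ≤ Lo K * (A K).card) ∧
      (∀ K K', K1 ≤ K' → K' ≤ K → ∀ n : ℕ,
        (((A K ×ˢ A K').filter (fun q => q.1 + q.2 = n)).card : ℝ) ≤ hull r K) := by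
  classical
  obtain ⟨K1, hK01, hK1⟩ := exists_all_pairs_R hM keysOf hδ hs K0
    (fun l l' w => (Used l ∧ Used l') ∧ ∃ n, r l <
        (((AA l w ×ˢ AA l' w).filter (fun q => q.1 + q.2 = n)).card : ℝ))
    (by
      intro l l' h1 h2 K hK hK'
      by_cases hU : Used l ∧ Used l'
      · exact PrLe_mono (fun _ _ hw => hw.2) le_rfl (hpair l l' h1 h2 hU.1 hU.2 K hK hK')
      · exact PrLe_false (fun _ _ hw => hU hw.1) (hδ l))
  refine ⟨K1, fun S => ?_⟩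
  obtain ⟨w, hw, hgood⟩ := hK1 S
  refine ⟨fun l => if l < S ∧ Used l then AA l w else ∅, ?_, ?_, ?_⟩
  · intro l hl a ha
    dsimp only at ha
    split_ifs at ha with hc
    · exact hrange l (hK01.trans hl) hc.2 w hw a ha
    · simp at ha
  · intro l hl hlS hU
    dsimp only
    rw [if_pos ⟨hlS, hU⟩]
    exact hcount l (hK01.trans hl) hU w hw
  · intro l l' hl' hll n
    have hnn : 0 ≤ hull r l := hull_nonneg hr0 l
    dsimp only
    by_cases hc : l < S ∧ Used l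
    · by_cases hc' : l' < S ∧ Used l'
      · rw [if_pos hc, if_pos hc']
        refine le_trans ?_ (le_hull r l)
        by_contra hcon
        rw [not_le] at hcon
        exact hgood l l' hl' hll hc.1 ⟨⟨hc.2, hc'.2⟩, n, hcon⟩
      · rw [if_neg hc']
        simpa using hnn
    · rw [if_neg hc]
      simpa using hnn

/-! ## the counting function -/

theorem chain_mono {N : ℕ → ℕ} (hN : ∀ K, 2 * N K ≤ N (K + 1)) : Monotone N := by
  apply monotone_nat_of_le_succ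
  intro K
  have := hN K
  omega

theorem chain_pos {N : ℕ → ℕ} (hN : ∀ K, 2 * N K ≤ N (K + 1)) (hN0 : 1 ≤ N 0) (K : ℕ) :
    (0 : ℝ) < N K := by
  have h : 1 ≤ N K := (Nat.one_le_two_pow).trans (two_pow_le_chain hN hN0 K)
  exact_mod_cast h

/-- off the neighbourhoods of relative length `d` of the numbers `b j` -/
theorem count_off {N : ℕ → ℕ} (hN : ∀ K, 2 * N K ≤ N (K + 1)) (hN0 : 1 ≤ N 0)
    {K1 Λ : ℕ} (hΛ : 1 ≤ Λ) {Lo : ℕ → ℝ} (hLm : Monotone Lo)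
    {B : Set ℕ} {Used : ℕ → Prop} (b : ℕ → ℝ)
    (h : ∀ K, K1 ≤ K → Used K → ∀ x : ℕ, 2 * N (K + 1) ≤ x → Real.sqrt (N K) ≤
        Lo K * ((B ∩ Set.Iio x).ncard : ℝ))
    (H2 : ∀ d : ℝ, 0 < d → ∃ K2 : ℕ, ∀ K, K2 ≤ K → (Used K ∧ N (K + 2) ≤ Λ * N K) ∨
      ∃ j, |Real.log (N (K + 2)) - b j| ≤ d * K ∧ |Real.log (N K) - b j| ≤ d * K)
    (d : ℝ) (hd : 0 < d) :
    ∃ x0 : ℕ, ∀ x : ℕ, x0 ≤ x → (∀ j, d * Real.log x ≤ |Real.log x - b j|) →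
      Real.sqrt x ≤ 2 * Λ * Lo ⌊2 * Real.log x⌋₊ * ((B ∩ Set.Iio x).ncard : ℝ) := by
  obtain ⟨K3, hK3⟩ := H2 (d / 4) (by positivity)
  set K4 := max K1 K3 with hK4
  have hNposr := chain_pos hN hN0
  obtain ⟨x0, hx0, hx0'⟩ : ∃ x0 : ℕ, 2 * N (K4 + 1) ≤ x0 ∧ Real.exp (2 / d) ≤ x0 := by
    obtain ⟨n, hn⟩ := exists_nat_ge (Real.exp (2 / d))
    exact ⟨max (2 * N (K4 + 1)) n, le_max_left _ _, hn.trans (by exact_mod_cast le_max_right _ _)⟩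
  refine ⟨x0, fun x hx hgap => ?_⟩
  have hx1 : 0 < x := by
    have h0 : (0 : ℝ) < x0 := lt_of_lt_of_le (Real.exp_pos _) hx0'
    have h0' : 0 < x0 := by exact_mod_cast h0
    omega
  have hxr : (0 : ℝ) < x := by exact_mod_cast hx1
  have hxd : 2 / d ≤ Real.log x := by
    rw [Real.le_log_iff_exp_le hxr]
    exact hx0'.trans (by exact_mod_cast hx)
  rw [div_le_iff₀ hd] at hxd
  obtain ⟨K, hK, hKa, hKb⟩ := exists_scale hN hN0 K4 x (hx0.trans hx)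
  have hNK := hN K
  have hKl : (K : ℝ) ≤ 2 * Real.log x := scale_le_log hN hN0 (by omega)
  rcases hK3 K ((le_max_right _ _).trans hK) with ⟨hU, hr⟩ | ⟨j, hj1, hj2⟩
  · have h1 := h K ((le_max_left _ _).trans hK) hU x hKa
    have h2 : x ≤ 2 * (Λ * N K) := by omega
    have hΛr : (1 : ℝ) ≤ Λ := by exact_mod_cast hΛ
    have h3 : Real.sqrt x ≤ 2 * Λ * Real.sqrt (N K) := by
      have e1 : (x : ℝ) ≤ (2 * Λ) ^ 2 * N K := by
        have e0 : (x : ℝ) ≤ 2 * (Λ * N K) := by exact_mod_cast h2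
        have e2 : (0 : ℝ) ≤ (Λ : ℝ) * N K := by positivity
        have e3 : (Λ : ℝ) * N K ≤ Λ * (Λ * N K) := by nlinarith
        nlinarith
      calc Real.sqrt x ≤ Real.sqrt ((2 * Λ) ^ 2 * N K) := Real.sqrt_le_sqrt e1
        _ = 2 * Λ * Real.sqrt (N K) := by
          rw [Real.sqrt_mul (by positivity), Real.sqrt_sq (by positivity)]
    have h4 : Lo K ≤ Lo ⌊2 * Real.log x⌋₊ := hLm (Nat.le_floor hKl)
    calc Real.sqrt x ≤ 2 * Λ * Real.sqrt (N K) := h3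
      _ ≤ 2 * Λ * (Lo K * ((B ∩ Set.Iio x).ncard : ℝ)) :=
        mul_le_mul_of_nonneg_left h1 (by positivity)
      _ ≤ 2 * Λ * (Lo ⌊2 * Real.log x⌋₊ * ((B ∩ Set.Iio x).ncard : ℝ)) :=
        mul_le_mul_of_nonneg_left (mul_le_mul_of_nonneg_right h4 (Nat.cast_nonneg _))
          (by positivity)
      _ = _ := by ring
  · exfalso
    have hg := hgap j
    have e8 : Real.log (N K) ≤ Real.log x := by
      apply Real.log_le_log (hNposr K)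
      exact_mod_cast (by omega : N K ≤ x)
    have f3 : Real.log 2 < 1 := by linarith [Real.log_two_lt_d9]
    have e9 : Real.log x ≤ Real.log (N (K + 2)) + Real.log 2 := by
      have f1 : (x : ℝ) ≤ 2 * N (K + 2) := by exact_mod_cast hKb.le
      have f2 := Real.log_le_log hxr f1
      rw [Real.log_mul (by norm_num) (hNposr _).ne'] at f2
      linarith
    have e10 : |Real.log x - b j| ≤ d / 4 * K + Real.log 2 := by
      have f4 : 0 < Real.log 2 := Real.log_pos (by norm_num)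
      rw [abs_le] at hj1 hj2 ⊢
      constructor <;> linarith
    have e11 : d / 4 * (K : ℝ) ≤ d / 4 * (2 * Real.log x) :=
      mul_le_mul_of_nonneg_left hKl (by positivity)
    nlinarith

/-- every `x` -/
theorem count_everywhere {N : ℕ → ℕ} (hN : ∀ K, 2 * N K ≤ N (K + 1)) (hN0 : 1 ≤ N 0)
    {K1 : ℕ} {Lo : ℕ → ℝ} (hLm : Monotone Lo)
    (hLs : ∀ d : ℝ, 0 < d → ∃ K2 : ℕ, ∀ K : ℕ, K2 ≤ K → Lo K ≤ Real.exp (d * K))
    {B : Set ℕ} (hB : 1 ∈ B) {Used : ℕ → Prop}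
    (h : ∀ K, K1 ≤ K → Used K → ∀ x : ℕ, 2 * N (K + 1) ≤ x → Real.sqrt (N K) ≤
        Lo K * ((B ∩ Set.Iio x).ncard : ℝ))
    (H1 : ∀ d : ℝ, 0 < d → ∀ K1 : ℕ, ∃ K2 : ℕ, ∀ K, K2 ≤ K → ∃ K', K1 ≤ K' ∧ K' ≤ K ∧
      Used K' ∧ Real.log (N (K + 2)) - Real.log (N K') ≤ d * K)
    (d : ℝ) (hd : 0 < d) :
    ∃ C : ℝ, 0 < C ∧ ∀ x : ℕ, 2 ≤ x →
      (x : ℝ) ^ (1 / 2 - d) ≤ C * ((B ∩ Set.Iio x).ncard : ℝ) := by
  obtain ⟨K2, hK2⟩ := H1 (d / 4) (by positivity) K1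
  obtain ⟨K3, hK3⟩ := hLs (d / 4) (by positivity)
  set K4 := max K2 K3 with hK4
  have hNposr := chain_pos hN hN0
  have hmono := chain_mono hN
  set x0 := 2 * N (K4 + 1) with hx0
  have he : (0 : ℝ) < Real.exp 1 := Real.exp_pos _
  refine ⟨Real.exp 1 + x0, by positivity, fun x hx => ?_⟩
  have hxr : (0 : ℝ) < x := by exact_mod_cast (by omega : 0 < x)
  have hx1 : (1 : ℝ) ≤ x := by exact_mod_cast (by omega : 1 ≤ x)
  set n := ((B ∩ Set.Iio x).ncard : ℝ) with hn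
  have hn1 : 1 ≤ n := one_le_count hB hx
  rcases lt_or_ge x x0 with hlt | hge
  · have h1 : (x : ℝ) ^ (1 / 2 - d) ≤ (x : ℝ) ^ (1 : ℝ) :=
      Real.rpow_le_rpow_of_exponent_le hx1 (by linarith)
    rw [Real.rpow_one] at h1
    have h2 : (x : ℝ) ≤ x0 := by exact_mod_cast hlt.le
    nlinarith
  · obtain ⟨K, hK, hKa, hKb⟩ := exists_scale hN hN0 K4 x hge
    have hNK := hN K
    have hKl : (K : ℝ) ≤ 2 * Real.log x := scale_le_log hN hN0 (by omega)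
    obtain ⟨K', k1, k2, k3, k4⟩ := hK2 K ((le_max_left _ _).trans hK)
    have h5 := h K' k1 k3 x (le_trans (Nat.mul_le_mul_left 2 (hmono (by omega))) hKa)
    have h6 : Lo K' ≤ Real.exp (d / 4 * K) := (hLm k2).trans (hK3 K ((le_max_right _ _).trans hK))
    have h7 : Real.sqrt (N K') ≤ Real.exp (d / 4 * K) * n :=
      h5.trans (mul_le_mul_of_nonneg_right h6 (by linarith))
    -- logarithms
    have f1 : (x : ℝ) ≤ 2 * N (K + 2) := by exact_mod_cast hKb.le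
    have f2 := Real.log_le_log hxr f1
    rw [Real.log_mul (by norm_num) (hNposr _).ne'] at f2
    have f3 : Real.log 2 < 1 := by linarith [Real.log_two_lt_d9]
    have f4 := Real.log_le_log (Real.sqrt_pos.2 (hNposr K')) h7
    rw [Real.log_sqrt (hNposr K').le, Real.log_mul (Real.exp_pos _).ne' (by linarith),
      Real.log_exp] at f4
    have f5 : d * (K : ℝ) ≤ d * (2 * Real.log x) := mul_le_mul_of_nonneg_left hKl hd.le
    have f6 : Real.log ((x : ℝ) ^ (1 / 2 - d)) ≤ Real.log (Real.exp 1 * n) := by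
      rw [Real.log_rpow hxr, Real.log_mul he.ne' (by linarith), Real.log_exp]
      have f7 : 0 ≤ Real.log x := Real.log_nonneg hx1
      nlinarith
    have f8 : (x : ℝ) ^ (1 / 2 - d) ≤ Real.exp 1 * n :=
      (Real.log_le_log_iff (Real.rpow_pos_of_pos hxr _) (by positivity)).1 f6
    have f9 : (0 : ℝ) ≤ x0 * n := by positivity
    linarith

/-- the loss `2 K ^ 2 Lo K` -/
theorem sub_exp_of {Lo : ℕ → ℝ}
    (hLs : ∀ d : ℝ, 0 < d → ∃ K2 : ℕ, ∀ K : ℕ, K2 ≤ K → Lo K ≤ Real.exp (d * K)) :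
    ∀ d : ℝ, 0 < d → ∃ K2 : ℕ, ∀ K : ℕ, K2 ≤ K → 2 * (K : ℝ) ^ 2 * Lo K ≤ Real.exp (d * K) := by
  intro d hd
  obtain ⟨K2, hK2⟩ := hLs (d / 2) (by positivity)
  have h1 := (Real.tendsto_pow_mul_exp_neg_atTop_nhds_zero 2).comp
    ((tendsto_natCast_atTop_atTop (R := ℝ)).const_mul_atTop (show 0 < d / 2 by positivity))
  have h2 := h1.eventually (Iio_mem_nhds (show (0 : ℝ) < (d / 2) ^ 2 / 2 by positivity))
  obtain ⟨K3, hK3⟩ := h2.exists_forall_of_atTop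
  refine ⟨max K2 K3, fun K hK => ?_⟩
  have h3 := hK3 K ((le_max_right _ _).trans hK)
  simp only [Function.comp, Set.mem_Iio] at h3
  have h4 := hK2 K ((le_max_left _ _).trans hK)
  have h5 : 2 * (K : ℝ) ^ 2 ≤ Real.exp (d / 2 * K) := by
    rw [Real.exp_neg] at h3
    have h6 : 0 < Real.exp (d / 2 * K) := Real.exp_pos _
    rw [mul_inv_lt_iff₀ h6, mul_pow] at h3
    have h7 : 0 < (d / 2) ^ 2 := by positivity
    have h8 : (d / 2) ^ 2 * (2 * (K : ℝ) ^ 2) ≤ (d / 2) ^ 2 * Real.exp (d / 2 * K) := by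
      nlinarith
    exact le_of_mul_le_mul_left h8 h7
  calc 2 * (K : ℝ) ^ 2 * Lo K ≤ 2 * (K : ℝ) ^ 2 * Real.exp (d / 2 * K) :=
        mul_le_mul_of_nonneg_left h4 (by positivity)
    _ ≤ Real.exp (d / 2 * K) * Real.exp (d / 2 * K) :=
        mul_le_mul_of_nonneg_right h5 (Real.exp_pos _).le
    _ = Real.exp (d * K) := by
        rw [← Real.exp_add]
        congr 1
        ring

/-- **one set for all exponents, gaps of relative length `d` for every `d > 0`** -/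
theorem gap_final_L (hM : ∀ k, 0 < M k) (keysOf : ℕ → Finset κ)
    (AA : ℕ → (κ → ℕ) → Finset ℕ) {N : ℕ → ℕ} (hN : ∀ K, 2 * N K ≤ N (K + 1)) (hN0 : 1 ≤ N 0)
    {K0 Λ : ℕ} (hΛ : 1 ≤ Λ)
    {r δ Lo : ℕ → ℝ} (hr0 : ∀ l, 0 ≤ r l)
    (hr : ∀ ε : ℝ, 0 < ε → ∃ C' : ℝ, ∀ l : ℕ, r l ≤ C' * ((l : ℝ) + 1) ^ ε)
    (hδ : ∀ l, 0 ≤ δ l) (hs : Summable (fun l : ℕ => ((l : ℝ) + 1) * δ l))
    (hLm : Monotone Lo) (hL0 : ∀ l, 0 ≤ Lo l)
    (hLs : ∀ d : ℝ, 0 < d → ∃ K2 : ℕ, ∀ K : ℕ, K2 ≤ K → Lo K ≤ Real.exp (d * K))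
    (Used : ℕ → Prop) (b : ℕ → ℝ)
    (H1 : ∀ d : ℝ, 0 < d → ∀ K1 : ℕ, ∃ K2 : ℕ, ∀ K, K2 ≤ K → ∃ K', K1 ≤ K' ∧ K' ≤ K ∧
      Used K' ∧ Real.log (N (K + 2)) - Real.log (N K') ≤ d * K)
    (H2 : ∀ d : ℝ, 0 < d → ∃ K2 : ℕ, ∀ K, K2 ≤ K → (Used K ∧ N (K + 2) ≤ Λ * N K) ∨
      ∃ j, |Real.log (N (K + 2)) - b j| ≤ d * K ∧ |Real.log (N K) - b j| ≤ d * K)
    (hrange : ∀ l, K0 ≤ l → Used l → ∀ w : κ → ℕ, (∀ k, w k < M k) →
      ∀ a ∈ AA l w, N l ≤ a ∧ a < N (l + 1))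
    (hcount : ∀ l, K0 ≤ l → Used l → ∀ w : κ → ℕ, (∀ k, w k < M k) →
      Real.sqrt (N l) ≤ Lo l * (AA l w).card)
    (hpair : ∀ l l', K0 ≤ l' → l' ≤ l → Used l → Used l' → ∀ K : Finset κ,
      keysOf l ⊆ K → keysOf l' ⊆ K →
      PrLe M K (fun w => ∃ n, r l <
        (((AA l w ×ˢ AA l' w).filter (fun q => q.1 + q.2 = n)).card : ℝ)) (δ l)) :
    ∃ A : Set ℕ,
      (∀ ε : ℝ, 0 < ε → ∃ C : ℝ, ∀ n : ℕ, 2 ≤ n →
        (({q : ℕ × ℕ | q.1 ∈ A ∧ q.2 ∈ A ∧ q.1 + q.2 = n}.ncard : ℕ) : ℝ) ≤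
          C * (Real.log n) ^ ε) ∧
      (∀ d : ℝ, 0 < d → ∃ x0 : ℕ, ∀ x : ℕ, x0 ≤ x →
        (∀ j, d * Real.log x ≤ |Real.log x - b j|) →
        Real.sqrt x ≤ 16 * Λ * (Real.log x) ^ 2 * Lo ⌊2 * Real.log x⌋₊ *
          ((A ∩ Set.Iio x).ncard : ℝ)) ∧
      (∀ d : ℝ, 0 < d → ∃ C : ℝ, 0 < C ∧ ∀ x : ℕ, 2 ≤ x →
        (x : ℝ) ^ (1 / 2 - d) / C ≤ ((A ∩ Set.Iio x).ncard : ℝ)) := by
  obtain ⟨K1, h⟩ := horizons_of_pairs_L hM keysOf AA N Used hr0 hδ hs hrange hcount hpair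
  obtain ⟨B, K2, hB1, hrep, hcnt⟩ := set_of_horizons_L (K0 := K1) hN hN0 hL0
    (hull_mono r) (hull_nonneg hr0) Used h
  have hLm2 : Monotone (fun K : ℕ => 2 * (K : ℝ) ^ 2 * Lo K) := by
    intro K K' hKK
    have h1 : (K : ℝ) ≤ K' := by exact_mod_cast hKK
    have h2 := hLm hKK
    have h3 : 2 * (K : ℝ) ^ 2 ≤ 2 * (K' : ℝ) ^ 2 := by
      have h4 : (0 : ℝ) ≤ K := Nat.cast_nonneg _
      nlinarith
    exact mul_le_mul h3 h2 (hL0 K) (by positivity)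
  refine ⟨B, ?_, ?_, ?_⟩
  · intro ε hε
    obtain ⟨C', hC'⟩ := hr ε hε
    have hC'2 : ∀ l : ℕ, r l ≤ |C'| * ((l : ℝ) + 1) ^ ε := fun l =>
      (hC' l).trans (mul_le_mul_of_nonneg_right (le_abs_self _) (by positivity))
    obtain ⟨C4, -, h4⟩ := rep_of_log2 hε (abs_nonneg C') (hull_le hε.le (abs_nonneg _) hC'2) hrep
    exact ⟨C4, h4⟩
  · intro d hd
    obtain ⟨x0, hx0⟩ := count_off hN hN0 hΛ hLm2 (Used := Used) b hcnt H2 d hd
    refine ⟨max x0 2, fun x hx hgap => ?_⟩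
    have h1 := hx0 x ((le_max_left _ _).trans hx) hgap
    refine h1.trans ?_
    have hx2 : 2 ≤ x := (le_max_right _ _).trans hx
    have hlx : 0 ≤ Real.log x := Real.log_nonneg (by exact_mod_cast (by omega : 1 ≤ x))
    have h2 : ((⌊2 * Real.log x⌋₊ : ℕ) : ℝ) ≤ 2 * Real.log x := Nat.floor_le (by linarith)
    have h3 : 2 * ((⌊2 * Real.log x⌋₊ : ℕ) : ℝ) ^ 2 ≤ 8 * (Real.log x) ^ 2 := by
      have h4 : (0 : ℝ) ≤ ((⌊2 * Real.log x⌋₊ : ℕ) : ℝ) := Nat.cast_nonneg _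
      nlinarith
    have h5 : 0 ≤ Lo ⌊2 * Real.log x⌋₊ := hL0 _
    have h6 : (0 : ℝ) ≤ ((B ∩ Set.Iio x).ncard : ℝ) := Nat.cast_nonneg _
    calc 2 * (Λ : ℝ) * (2 * ((⌊2 * Real.log x⌋₊ : ℕ) : ℝ) ^ 2 * Lo ⌊2 * Real.log x⌋₊) *
          ((B ∩ Set.Iio x).ncard : ℝ)
        ≤ 2 * (Λ : ℝ) * (8 * (Real.log x) ^ 2 * Lo ⌊2 * Real.log x⌋₊) *
          ((B ∩ Set.Iio x).ncard : ℝ) := by gcongr
      _ = _ := by ring
  · intro d hd
    obtain ⟨C, hC, h5⟩ := count_everywhere hN hN0 hLm2 (sub_exp_of hLs) hB1 hcnt H1 d hd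
    refine ⟨C, hC, fun x hx => ?_⟩
    rw [div_le_iff₀ hC, mul_comm]
    exact h5 x hx

end Pool.Agent.Helper42.T5
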