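import Pool.Agent.Helper42.T5.LabelChain
import Pool.Agent.Helper44.T4.Fin

/-!
# T5 (MP_12a1af_nt): from finite horizons to one set

`N` is a chain with `2 N_K ≤ N_(K+1)`; `Used K` says that the scale `K` carries elements.
-/

set_option autoImplicit false

namespace Pool.Agent.Helper42.T5

open Finset Pool.Agent.Helper44.T4

theorem two_pow_le_chain {N : ℕ → ℕ} (hN : ∀ K, 2 * N K ≤ N (K + 1)) (hN0 : 1 ≤ N 0) (K : ℕ) :
    2 ^ K ≤ N K := by
  induction K with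
  | zero => simpa using hN0
  | succ K ih =>
    have := hN K
    rw [pow_succ]
    omega

theorem two_mul_sq_le_two_pow {K : ℕ} (hK : 7 ≤ K) : 2 * K ^ 2 ≤ 2 ^ K := by
  induction K, hK using Nat.le_induction with
  | base => norm_num
  | succ K hK ih =>
    rw [pow_succ 2 K]
    nlinarith

/-- one horizon -/
theorem horizon_set {N : ℕ → ℕ} (hN : ∀ K, 2 * N K ≤ N (K + 1)) (hN0 : 1 ≤ N 0) {K0 c : ℕ}
    (hK0 : 7 ≤ K0) {C C1 ε : ℝ} (hC : 0 < C) (hC1 : 0 ≤ C1) (hε : 0 ≤ ε)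
    (Used : ℕ → Prop) (S : ℕ) (A : ℕ → Finset ℕ)
    (h1 : ∀ K, K0 ≤ K → ∀ a ∈ A K, N K ≤ a ∧ a < N (K + 1))
    (h2 : ∀ K, K0 ≤ K → K < S → Used K → Real.sqrt (N K) ≤ C * (K : ℝ) ^ c * (A K).card)
    (h3 : ∀ K K', K0 ≤ K' → K' ≤ K → ∀ n : ℕ,
      (((A K ×ˢ A K').filter (fun q => q.1 + q.2 = n)).card : ℝ) ≤ C1 * (K : ℝ) ^ ε) :
    ∃ B : Set ℕ, (∀ n : ℕ, 2 ≤ n → (rep B n : ℝ) ≤ 6 * C1 * 2 ^ ε * (Real.log n) ^ ε) ∧
      ∀ K, K0 ≤ K → K < S → Used K → Real.sqrt (N K) ≤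
        2 * C * (K : ℝ) ^ (c + 2) * ((B ∩ Set.Iio (2 * N (K + 1))).ncard : ℝ) := by
  have hp := two_pow_le_chain hN hN0
  obtain ⟨B, hB1, hB2⟩ := label_chain (A := A) (N := N) (K0 := K0) (by omega) hN
    (fun K hK => (two_mul_sq_le_two_pow (hK0.trans hK)).trans (hp K))
    (R := fun K => C1 * (K : ℝ) ^ ε)
    (by
      intro K K' h
      exact mul_le_mul_of_nonneg_left
        (Real.rpow_le_rpow (Nat.cast_nonneg _) (by exact_mod_cast h) hε) hC1)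
    (fun K => mul_nonneg hC1 (Real.rpow_nonneg (Nat.cast_nonneg _) _)) h1 h3
  refine ⟨B, ?_, ?_⟩
  · intro n hn
    have hn0 : n ≠ 0 := by omega
    have h4 : n < N (Nat.log 2 n + 1) :=
      (Nat.lt_pow_succ_log_self (by norm_num) n).trans_le (hp _)
    refine (hB1 n _ h4).trans ?_
    have hlog2 : (0.69 : ℝ) < Real.log 2 := by linarith [Real.log_two_gt_d9]
    have hln : 0 ≤ Real.log n := Real.log_nonneg (by exact_mod_cast (by omega : 1 ≤ n))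
    have hl1 : ((Nat.log 2 n : ℕ) : ℝ) * Real.log 2 ≤ Real.log n := by
      have h2 : 2 ^ Nat.log 2 n ≤ n := Nat.pow_log_le_self 2 hn0
      have h4 : ((2 : ℝ) ^ Nat.log 2 n) ≤ n := by exact_mod_cast h2
      have h5 := Real.log_le_log (by positivity) h4
      rwa [Real.log_pow] at h5
    have hl2 : ((Nat.log 2 n : ℕ) : ℝ) ≤ 2 * Real.log n := by
      have : (0 : ℝ) ≤ ((Nat.log 2 n : ℕ) : ℝ) := Nat.cast_nonneg _
      nlinarith
    have hl3 : ((Nat.log 2 n : ℕ) : ℝ) ^ ε ≤ 2 ^ ε * (Real.log n) ^ ε := by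
      rw [← Real.mul_rpow (by norm_num) hln]
      exact Real.rpow_le_rpow (Nat.cast_nonneg _) hl2 hε
    have := mul_le_mul_of_nonneg_left hl3 (by positivity : (0 : ℝ) ≤ 6 * C1)
    linarith
  · intro K hK hKS hU
    have h7 := h2 K hK hKS hU
    have h8 := hB2 K hK (2 * N (K + 1)) le_rfl
    have h9 : (((A K).card : ℕ) : ℝ) ≤
        2 * (K : ℝ) ^ 2 * ((B ∩ Set.Iio (2 * N (K + 1))).ncard : ℝ) := by exact_mod_cast h8
    have h10 : (0 : ℝ) ≤ C * (K : ℝ) ^ c := by positivity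
    calc Real.sqrt (N K) ≤ C * (K : ℝ) ^ c * (A K).card := h7
      _ ≤ C * (K : ℝ) ^ c *
          (2 * (K : ℝ) ^ 2 * ((B ∩ Set.Iio (2 * N (K + 1))).ncard : ℝ)) :=
        mul_le_mul_of_nonneg_left h9 h10
      _ = _ := by ring

/-- **from the horizons to one set** -/
theorem set_of_horizons {N : ℕ → ℕ} (hN : ∀ K, 2 * N K ≤ N (K + 1)) (hN0 : 1 ≤ N 0) {K0 c : ℕ}
    {C C1 ε : ℝ} (hC : 0 < C) (hC1 : 0 ≤ C1) (hε : 0 ≤ ε) (Used : ℕ → Prop)
    (h : ∀ S : ℕ, ∃ A : ℕ → Finset ℕ,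
      (∀ K, K0 ≤ K → ∀ a ∈ A K, N K ≤ a ∧ a < N (K + 1)) ∧
      (∀ K, K0 ≤ K → K < S → Used K → Real.sqrt (N K) ≤ C * (K : ℝ) ^ c * (A K).card) ∧
      (∀ K K', K0 ≤ K' → K' ≤ K → ∀ n : ℕ,
        (((A K ×ˢ A K').filter (fun q => q.1 + q.2 = n)).card : ℝ) ≤ C1 * (K : ℝ) ^ ε)) :
    ∃ (B : Set ℕ) (C2 : ℝ) (K1 : ℕ), 0 < C2 ∧ 1 ∈ B ∧
      (∀ n : ℕ, 2 ≤ n → (rep B n : ℝ) ≤ C2 * (Real.log n) ^ ε) ∧
      ∀ K, K1 ≤ K → Used K → ∀ x : ℕ, 2 * N (K + 1) ≤ x → Real.sqrt (N K) ≤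
        C2 * (K : ℝ) ^ (c + 2) * ((B ∩ Set.Iio x).ncard : ℝ) := by
  set K1 := max K0 7 with hK1
  obtain ⟨B, hB⟩ := limit_sets (ι := ℕ ⊕ ℕ)
    (Sum.elim (fun n => n) (fun K => 2 * N (K + 1)))
    (Sum.elim (fun n B => 2 ≤ n → (rep B n : ℝ) ≤ 6 * C1 * 2 ^ ε * (Real.log n) ^ ε)
      (fun K B => K1 ≤ K → Used K → Real.sqrt (N K) ≤
        2 * C * (K : ℝ) ^ (c + 2) * ((B ∩ Set.Iio (2 * N (K + 1))).ncard : ℝ)))
    (by
      rintro (n | K) A B hAB hP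
      · simp only [Sum.elim_inl] at *
        rw [← rep_congr A B n hAB]
        exact hP
      · simp only [Sum.elim_inr] at *
        rw [← inter_Iio_congr A B _ hAB]
        exact hP)
    (by
      intro M
      obtain ⟨A, h1, h2, h3⟩ := h (M + 1)
      obtain ⟨B, b1, b2⟩ := horizon_set (K0 := K1) (c := c) (C := C) (C1 := C1) (ε := ε)
        hN hN0 (le_max_right _ _) hC hC1 hε Used
        (M + 1) A (fun K hK => h1 K ((le_max_left _ _).trans hK))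
        (fun K hK => h2 K ((le_max_left _ _).trans hK))
        (fun K K' hK' => h3 K K' ((le_max_left _ _).trans hK'))
      refine ⟨B, ?_⟩
      rintro (n | K) hi
      · simp only [Sum.elim_inl]
        exact b1 n
      · simp only [Sum.elim_inr] at *
        intro hK hU
        refine b2 K hK ?_ hU
        have h4 : K + 1 < 2 ^ (K + 1) := Nat.lt_two_pow_self
        have h5 := two_pow_le_chain hN hN0 (K + 1)
        omega)
  have hlog2 : (0 : ℝ) < Real.log 2 := Real.log_pos (by norm_num)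
  have hl2e : 0 < (Real.log 2) ^ ε := Real.rpow_pos_of_pos hlog2 _
  refine ⟨insert 1 B, 2 * C + 6 * C1 * 2 ^ ε + 2 / (Real.log 2) ^ ε, K1, by positivity,
    Set.mem_insert _ _, ?_, ?_⟩
  · intro n hn
    have e0 := hB (Sum.inl n)
    simp only [Sum.elim_inl] at e0
    have e2 := e0 hn
    have e1 : ((rep (insert 1 B) n : ℕ) : ℝ) ≤ (rep B n : ℝ) + 2 := by
      exact_mod_cast rep_insert_le B 1 n
    have e3 : (Real.log 2) ^ ε ≤ (Real.log n) ^ ε := by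
      apply Real.rpow_le_rpow hlog2.le _ hε
      apply Real.log_le_log (by norm_num)
      exact_mod_cast hn
    have e4 : 2 ≤ 2 / (Real.log 2) ^ ε * (Real.log n) ^ ε := by
      rw [div_mul_eq_mul_div, le_div_iff₀ hl2e]
      linarith
    have e5 : 0 ≤ (Real.log n) ^ ε := hl2e.le.trans e3
    have e6 : 0 ≤ 2 * C * (Real.log n) ^ ε := by positivity
    calc ((rep (insert 1 B) n : ℕ) : ℝ) ≤ (rep B n : ℝ) + 2 := e1
      _ ≤ 6 * C1 * 2 ^ ε * (Real.log n) ^ ε + 2 / (Real.log 2) ^ ε * (Real.log n) ^ ε := by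
        linarith
      _ ≤ _ := by rw [add_mul, add_mul]; linarith
  · intro K hK hU x hx
    have e0 := hB (Sum.inr K)
    simp only [Sum.elim_inr] at e0
    refine (e0 hK hU).trans ?_
    have e1 : (B ∩ Set.Iio (2 * N (K + 1))).ncard ≤ ((insert 1 B) ∩ Set.Iio x).ncard := by
      apply Set.ncard_le_ncard _ ((Set.finite_Iio x).subset Set.inter_subset_right)
      rintro b ⟨b1, b2⟩
      exact ⟨Set.mem_insert_of_mem _ b1, lt_of_lt_of_le b2 hx⟩
    have e2 : ((B ∩ Set.Iio (2 * N (K + 1))).ncard : ℝ) ≤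
        (((insert 1 B) ∩ Set.Iio x).ncard : ℝ) := by exact_mod_cast e1
    apply mul_le_mul _ e2 (Nat.cast_nonneg _) (by positivity)
    apply mul_le_mul_of_nonneg_right _ (by positivity)
    have e3 : 0 ≤ 6 * C1 * 2 ^ ε := by positivity
    have e4 : 0 ≤ 2 / (Real.log 2) ^ ε := by positivity
    linarith

end Pool.Agent.Helper42.T5
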