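import Pool.Agent.Helper11.T4.Label
import Pool.Agent.Helper44.T4.Limit

/-!
# T5 (MP_12a1af_nt): the label lemma for a chain

`Pool.Agent.Helper11.T4.label` with `2 ^ K` replaced by any chain `N K` with `2 N_K ≤ N_(K+1)`.
-/

set_option autoImplicit false

namespace Pool.Agent.Helper42.T5

open Finset Pool.Agent.Helper11.T4 Pool.Agent.Helper44.T4

/-- a set of indices `K` with `N K ≤ n < N (K + 3)` has at most three elements -/
theorem index_card_le {N : ℕ → ℕ} (hN : ∀ K, 2 * N K ≤ N (K + 1)) (n : ℕ) (I : Finset ℕ)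
    (hI : ∀ K ∈ I, N K ≤ n ∧ n < N (K + 3)) : I.card ≤ 3 := by
  rcases I.eq_empty_or_nonempty with rfl | hne
  · simp
  have hmono : Monotone N := by
    apply monotone_nat_of_le_succ
    intro K
    have := hN K
    omega
  have hsub : I ⊆ Finset.Ico (I.min' hne) (I.min' hne + 3) := by
    intro K hK
    rw [Finset.mem_Ico]
    refine ⟨I.min'_le K hK, ?_⟩
    by_contra hcon
    push Not at hcon
    have h1 := (hI K hK).1
    have h2 := (hI _ (I.min'_mem hne)).2
    have h3 := hmono hcon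
    omega
  refine (card_le_card hsub).trans ?_
  rw [Nat.card_Ico]
  omega

/-- **the label lemma for a chain** -/
theorem label_chain {A : ℕ → Finset ℕ} {N : ℕ → ℕ} {K0 : ℕ} (hK0 : 1 ≤ K0)
    (hN : ∀ K, 2 * N K ≤ N (K + 1)) (hN8 : ∀ K, K0 ≤ K → 2 * K ^ 2 ≤ N K)
    {R : ℕ → ℝ} (hR : Monotone R) (hR0 : ∀ K, 0 ≤ R K)
    (h1 : ∀ K, K0 ≤ K → ∀ a ∈ A K, N K ≤ a ∧ a < N (K + 1))
    (h3 : ∀ K K', K0 ≤ K' → K' ≤ K → ∀ n : ℕ,
      (((A K ×ˢ A K').filter (fun q => q.1 + q.2 = n)).card : ℝ) ≤ R K) :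
    ∃ B : Set ℕ,
      (∀ n κ : ℕ, n < N (κ + 1) → (rep B n : ℝ) ≤ 6 * R κ) ∧
      ∀ K, K0 ≤ K → ∀ x, 2 * N (K + 1) ≤ x →
        (A K).card ≤ 2 * K ^ 2 * (B ∩ Set.Iio x).ncard := by
  classical
  have hmono : Monotone N := by
    apply monotone_nat_of_le_succ
    intro K
    have := hN K
    omega
  have hlab : ∀ K, ∃ (T : Finset ℕ) (t : ℕ), K0 ≤ K → (T ⊆ A K ∧ t < lm K ∧
      (A K).card ≤ lm K * T.card ∧ ∀ a ∈ T, a + t ≡ lc K [MOD lm K]) := by
    intro K
    by_cases hK : K0 ≤ K
    · obtain ⟨T, t, h⟩ := exists_label (A K) K (by omega)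
      exact ⟨T, t, fun _ => h⟩
    · exact ⟨∅, 0, fun h => absurd h hK⟩
  choose T t hT using hlab
  have hsmall : ∀ K, K0 ≤ K → lm K ≤ N K := by
    intro K hK
    exact (lm_le (by omega)).trans (hN8 K hK)
  set D : ℕ → Finset ℕ := fun K => (T K).image (fun a => a + t K) with hD
  have hDmem : ∀ K, K0 ≤ K → ∀ b ∈ D K, N K ≤ b ∧ b < 2 * N (K + 1) ∧
      b ≡ lc K [MOD lm K] := by
    intro K hK b hb
    rw [hD, mem_image] at hb
    obtain ⟨a, ha, rfl⟩ := hb
    obtain ⟨g1, g2, g3, g4⟩ := hT K hK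
    obtain ⟨f1, f2⟩ := h1 K hK a (g1 ha)
    have f3 := hsmall K hK
    have f4 := hN K
    refine ⟨by omega, by omega, g4 a ha⟩
  set B : Set ℕ := {b | ∃ K, K0 ≤ K ∧ b ∈ D K} with hB
  refine ⟨B, ?_, ?_⟩
  · intro n κ hn
    -- pairs for given indices
    set P : ℕ → ℕ → Finset (ℕ × ℕ) := fun K K' => (D K ×ˢ D K').filter (fun q => q.1 + q.2 = n)
      with hP
    have hPc : ∀ K K', K0 ≤ K' → K' ≤ K → ((P K K').card : ℝ) ≤ R K := by
      intro K K' hK' hKK
      have hle : (P K K').card ≤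
          ((A K ×ˢ A K').filter (fun q => q.1 + q.2 = n - t K - t K')).card := by
        apply card_le_card_of_injOn (fun q => (q.1 - t K, q.2 - t K'))
        · intro q hq
          simp only [hP, coe_filter, mem_product, Set.mem_setOf_eq] at hq
          obtain ⟨⟨q1, q2⟩, q3⟩ := hq
          simp only [hD, mem_image] at q1 q2
          obtain ⟨a, ha, ha2⟩ := q1
          obtain ⟨a', ha', ha2'⟩ := q2
          simp only [coe_filter, mem_product, Set.mem_setOf_eq]
          have g := (hT K (hK'.trans hKK)).1 ha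
          have g' := (hT K' hK').1 ha'
          refine ⟨⟨?_, ?_⟩, ?_⟩
          · rw [← ha2, Nat.add_sub_cancel]; exact g
          · rw [← ha2', Nat.add_sub_cancel]; exact g'
          · omega
        · intro q hq r hr hqr
          simp only [hP, coe_filter, mem_product, Set.mem_setOf_eq] at hq hr
          obtain ⟨⟨q1, q2⟩, q3⟩ := hq
          obtain ⟨⟨r1, r2⟩, r3⟩ := hr
          simp only [hD, mem_image] at q1 q2 r1 r2
          obtain ⟨a, -, ha2⟩ := q1
          obtain ⟨a', -, ha2'⟩ := q2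
          obtain ⟨b, -, hb2⟩ := r1
          obtain ⟨b', -, hb2'⟩ := r2
          simp only [Prod.mk.injEq] at hqr
          apply Prod.ext
          · omega
          · omega
      calc ((P K K').card : ℝ) ≤ _ := by exact_mod_cast hle
        _ ≤ R K := h3 K K' hK' hKK _
    -- for given `K` one `K'`
    have huniq : ∀ K K' K'', K0 ≤ K' → K' ≤ K → K0 ≤ K'' → K'' ≤ K → (P K K').Nonempty →
        (P K K'').Nonempty → K' = K'' := by
      intro K K' K'' hK' hKK' hK'' hKK'' ⟨q, hq⟩ ⟨r, hr⟩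
      simp only [hP, mem_filter, mem_product] at hq hr
      obtain ⟨-, -, c1⟩ := hDmem K (hK'.trans hKK') _ hq.1.1
      obtain ⟨-, -, c2⟩ := hDmem K' hK' _ hq.1.2
      obtain ⟨-, -, c3⟩ := hDmem K (hK'.trans hKK') _ hr.1.1
      obtain ⟨-, -, c4⟩ := hDmem K'' hK'' _ hr.1.2
      have e1 : q.2 ≡ r.2 [MOD lm K] := by
        have e2 : q.1 ≡ r.1 [MOD lm K] := c1.trans c3.symm
        have e3 : q.1 + q.2 ≡ r.1 + r.2 [MOD lm K] := by rw [hq.2, hr.2]
        exact Nat.ModEq.add_left_cancel e2 e3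
      apply label_disj (z := r.2) (by omega) (by omega) _ c4
      exact (e1.of_dvd (lm_dvd hKK')).symm.trans c2
    -- the pairs with larger first index
    set Q : ℕ → Finset (ℕ × ℕ) := fun K => (Finset.Icc K0 K).biUnion (fun K' => P K K') with hQ
    have hQc : ∀ K, ((Q K).card : ℝ) ≤ R K := by
      intro K
      by_cases hne : ∃ K', K' ∈ Finset.Icc K0 K ∧ (P K K').Nonempty
      · obtain ⟨K', hK', hne'⟩ := hne
        rw [mem_Icc] at hK'
        have hsub : Q K ⊆ P K K' := by
          intro q hq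
          rw [hQ, mem_biUnion] at hq
          obtain ⟨K'', hK'', hq2⟩ := hq
          rw [mem_Icc] at hK''
          have := huniq K K' K'' hK'.1 hK'.2 hK''.1 hK''.2 hne' ⟨q, hq2⟩
          rw [this]; exact hq2
        calc ((Q K).card : ℝ) ≤ ((P K K').card : ℝ) := by exact_mod_cast card_le_card hsub
          _ ≤ R K := hPc K K' hK'.1 hK'.2
      · push Not at hne
        have : Q K = ∅ := by
          rw [hQ]
          rw [eq_empty_iff_forall_notMem]
          intro q hq
          rw [mem_biUnion] at hq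
          obtain ⟨K', hK', hq2⟩ := hq
          have h5 := hne K' hK'
          simp [h5] at hq2
        rw [this]
        simpa using hR0 K
    set I : Finset ℕ := (range (κ + 1)).filter (fun K => N K ≤ n ∧ n < N (K + 3)) with hI
    have hIc : I.card ≤ 3 := by
      apply index_card_le hN n
      intro K hK
      rw [hI, mem_filter] at hK
      exact hK.2
    set W : Finset (ℕ × ℕ) := I.biUnion Q with hW
    have hWc : (W.card : ℝ) ≤ 3 * R κ := by
      have hc1 : W.card ≤ ∑ K ∈ I, (Q K).card := card_biUnion_le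
      have hc2 : ((∑ K ∈ I, (Q K).card : ℕ) : ℝ) ≤ ∑ K ∈ I, R κ := by
        push_cast
        apply sum_le_sum
        intro K hK
        rw [hI, mem_filter, mem_range] at hK
        exact (hQc K).trans (hR (by omega))
      rw [sum_const, nsmul_eq_mul] at hc2
      have hc3 : (I.card : ℝ) ≤ 3 := by exact_mod_cast hIc
      calc (W.card : ℝ) ≤ _ := by exact_mod_cast hc1
        _ ≤ _ := hc2
        _ ≤ 3 * R κ := mul_le_mul_of_nonneg_right hc3 (hR0 _)
    have hcov : {q : ℕ × ℕ | q.1 ∈ B ∧ q.2 ∈ B ∧ q.1 + q.2 = n} ⊆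
        ((W ∪ W.image Prod.swap : Finset (ℕ × ℕ)) : Set (ℕ × ℕ)) := by
      have key : ∀ q : ℕ × ℕ, ∀ K K', K0 ≤ K' → K' ≤ K → q.1 ∈ D K → q.2 ∈ D K' →
          q.1 + q.2 = n → q ∈ W := by
        intro q K K' hK' hKK hq1 hq2 hq
        rw [hW, mem_biUnion]
        obtain ⟨a1, a2, -⟩ := hDmem K (hK'.trans hKK) _ hq1
        obtain ⟨b1, b2, -⟩ := hDmem K' hK' _ hq2
        have m1 : N (K' + 1) ≤ N (K + 1) := hmono (by omega)
        have m2 := hN (K + 1)
        have m3 := hN (K + 2)
        refine ⟨K, ?_, ?_⟩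
        · rw [hI, mem_filter, mem_range]
          refine ⟨?_, by omega, ?_⟩
          · by_contra hcon
            have m4 : N (κ + 1) ≤ N K := hmono (by omega)
            omega
          · have e2 : N (K + 1 + 1) = N (K + 2) := rfl
            have e3 : N (K + 2 + 1) = N (K + 3) := rfl
            omega
        · rw [hQ, mem_biUnion]
          refine ⟨K', by rw [mem_Icc]; exact ⟨hK', hKK⟩, ?_⟩
          rw [hP, mem_filter, mem_product]
          exact ⟨⟨hq1, hq2⟩, hq⟩
      rintro q ⟨⟨K, hK, hq1⟩, ⟨K', hK', hq2⟩, hq⟩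
      rw [coe_union, Set.mem_union, mem_coe, mem_coe]
      rcases le_total K' K with h | h
      · left; exact key q K K' hK' h hq1 hq2 hq
      · right
        rw [mem_image]
        exact ⟨q.swap, key q.swap K' K hK h hq2 hq1 (by simpa [add_comm] using hq), by simp⟩
    have hfin : ((rep B n : ℕ) : ℝ) ≤ ((W ∪ W.image Prod.swap).card : ℝ) := by
      have := Set.ncard_le_ncard hcov (finite_toSet _)
      rw [Set.ncard_coe_finset] at this
      exact_mod_cast this
    refine hfin.trans ?_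
    have h6 : ((W ∪ W.image Prod.swap).card : ℝ) ≤ (W.card : ℝ) + W.card := by
      have h7 : (W ∪ W.image Prod.swap).card ≤ W.card + W.card :=
        (card_union_le _ _).trans (Nat.add_le_add_left card_image_le _)
      exact_mod_cast h7
    linarith
  · intro K hK x hx
    obtain ⟨g1, g2, g3, g4⟩ := hT K hK
    have hsub : ((D K : Finset ℕ) : Set ℕ) ⊆ B ∩ Set.Iio x := by
      intro b hb
      have := hDmem K hK b hb
      exact ⟨⟨K, hK, hb⟩, by rw [Set.mem_Iio]; omega⟩
    have hfin : (B ∩ Set.Iio x).Finite := (Set.finite_Iio x).subset Set.inter_subset_right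
    have hc := Set.ncard_le_ncard hsub hfin
    rw [Set.ncard_coe_finset] at hc
    have hDc : (D K).card = (T K).card := by
      rw [hD]
      exact card_image_of_injective _ (add_left_injective (t K))
    calc (A K).card ≤ lm K * (T K).card := g3
      _ ≤ (2 * K ^ 2) * (B ∩ Set.Iio x).ncard := by
        rw [← hDc]
        exact Nat.mul_le_mul (lm_le (by omega)) hc

end Pool.Agent.Helper42.T5
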