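import Pool.Agent.Helper42.T5.GapD
import Pool.Agent.Helper42.T5.Dep
import Pool.Agent.Helper27.T5.ScaleMu

/-!
# T5a: one set for all exponents

A family of constructions with a parameter `k` (`m = k + 2` windows); the parameter grows slowly
with the era.
-/

set_option autoImplicit false

namespace Pool.Agent.Helper42.T5

open Finset Pool.Agent.Helper27.T5 Pool.Agent.Helper42.T5.Pr
open Pool.Agent.Helper5.ET (bb era Nj)

/-- a family of constructions with the parameter `k` -/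
structure Fam (κ : Type*) [DecidableEq κ] where
  /-- the state of a key -/
  pos : κ → ℕ
  /-- the numbers of values -/
  Mv : ℕ → κ → ℕ
  Mv_pos : ∀ k q, 0 < Mv k q
  /-- the keys of a state -/
  keys : ℕ → ℕ → Finset κ
  keys_pos : ∀ k l, ∀ q ∈ keys k l, pos q = l
  /-- the set of a state -/
  As : ℕ → ℕ → (κ → ℕ) → Finset ℕ
  dep : ∀ k l (w w' : κ → ℕ), (∀ q ∈ keys k l, w q = w' q) → As k l w = As k l w'
  /-- the inner part of the chain -/
  T : ℕ → ℕ → ℕ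
  tb : ∀ k, TB (k + 2) (T k)

variable {κ : Type*} [DecidableEq κ] (F : Fam κ)

/-- number of representations by two states with their own parameters -/
def Fam.Rr (k l k' l' : ℕ) (w : κ → ℕ) (n : ℕ) : ℕ :=
  ((F.As k l w ×ˢ F.As k' l' w).filter (fun q => q.1 + q.2 = n)).card

theorem Fam.depOn_Rr (k l k' l' : ℕ) (c : ℝ) :
    DepOn (F.keys k l ∪ F.keys k' l') (fun w => ∃ n, c < (F.Rr k l k' l' w n : ℝ)) := by
  intro w w' h
  have h1 : F.As k l w = F.As k l w' := F.dep _ _ _ _ fun q hq => h q (mem_union_left _ hq)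
  have h2 : F.As k' l' w = F.As k' l' w' := F.dep _ _ _ _ fun q hq => h q (mem_union_right _ hq)
  show (∃ n, c < (F.Rr k l k' l' w n : ℝ)) ↔ (∃ n, c < (F.Rr k l k' l' w' n : ℝ))
  unfold Fam.Rr
  rw [h1, h2]

/-- the range -/
def Fam.Range (k : ℕ) : Prop := ∃ K0 : ℕ, ∀ l, K0 ≤ l → used (k + 2) l →
  ∀ w : κ → ℕ, (∀ q, w q < F.Mv k q) → ∀ a ∈ F.As k l w,
    XT (F.T k) l ≤ a ∧ a < XT (F.T k) (l + 1)

/-- the count with the exponent `c` -/
def Fam.Count (c k : ℕ) : Prop := ∃ (K0 : ℕ) (C : ℝ), 0 < C ∧ ∀ l, K0 ≤ l → used (k + 2) l →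
  ∀ w : κ → ℕ, (∀ q, w q < F.Mv k q) →
    Real.sqrt (XT (F.T k) l) ≤ C * (l : ℝ) ^ c * ((F.As k l w).card : ℝ)

/-- pairs of states of one era -/
def Fam.Same (E k : ℕ) : Prop := ∃ (K0 : ℕ) (C1 c0 m' : ℝ), 0 ≤ C1 ∧ 0 < c0 ∧ 0 ≤ m' ∧
  ∀ l l', K0 ≤ l' → l' ≤ l → used (k + 2) l → used (k + 2) l' → era l' = era l →
  ∀ K : Finset κ, F.keys k l ⊆ K → F.keys k l' ⊆ K →
  PrLe (F.Mv k) K
    (fun w => ∃ n, C1 * (l : ℝ) ^ ((E : ℝ) / ((k + 2 : ℕ) : ℝ)) < (F.Rr k l k l' w n : ℝ))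
    (m' * Real.exp (-((l : ℝ) ^ c0)))

/-- pairs of states of different eras -/
def Fam.Far (E k0 : ℕ) : Prop := ∃ (K0 : ℕ → ℕ) (C1 : ℕ → ℝ), ∀ k' k, k0 ≤ k' → k' ≤ k →
  ∀ l l', K0 k' ≤ l' → K0 k ≤ l → l' ≤ l → used (k + 2) l → used (k' + 2) l' →
  200 * W (k + 2) (era l) 1 ≤ l - l' →
  ∀ M : κ → ℕ, (∀ q, 0 < M q) → (∀ q ∈ F.keys k l, M q = F.Mv k q) →
    (∀ q ∈ F.keys k' l', M q = F.Mv k' q) →
  ∀ K : Finset κ, F.keys k l ⊆ K → F.keys k' l' ⊆ K →
  PrLe M K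
    (fun w => ∃ n, C1 k * (l : ℝ) ^ ((E : ℝ) / ((k + 2 : ℕ) : ℝ)) < (F.Rr k l k' l' w n : ℝ))
    (Real.exp (-(l : ℝ)))

/-! ## thresholds -/

/-- a constant is absorbed by a small power -/
theorem absorb (C : ℝ) {a b : ℝ} (ha : 0 ≤ a) (hab : a < b) :
    ∃ l0 : ℕ, ∀ l : ℕ, l0 ≤ l → C * (l : ℝ) ^ a ≤ ((l : ℝ) + 1) ^ b := by
  obtain ⟨X, hX1, hX⟩ := rpow_le_rpow_eventually hab C
  obtain ⟨l0, hl0⟩ := exists_nat_ge X
  refine ⟨l0, fun l hl => ?_⟩
  have h1 : X ≤ (l : ℝ) := hl0.trans (by exact_mod_cast hl)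
  refine (hX l h1).trans ?_
  exact Real.rpow_le_rpow (Nat.cast_nonneg _) (by linarith) (by linarith)

/-- the failure probability is at most `(l + 1) ^ (-3)` -/
theorem fail_small (m' : ℝ) {c0 : ℝ} (hc0 : 0 < c0) :
    ∃ l0 : ℕ, ∀ l : ℕ, l0 ≤ l → m' * Real.exp (-((l : ℝ) ^ c0)) ≤ 1 / ((l : ℝ) + 1) ^ 3 := by
  -- `4 log y ≤ y ^ c0`
  obtain ⟨X, hX1, hX⟩ := log_le_rpow_eventually hc0 4
  obtain ⟨l0, hl0⟩ := exists_nat_ge (max X (8 * (|m'| + 1)))
  refine ⟨l0, fun l hl => ?_⟩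
  have h0 : max X (8 * (|m'| + 1)) ≤ (l : ℝ) := hl0.trans (by exact_mod_cast hl)
  have h1 : X ≤ (l : ℝ) := (le_max_left _ _).trans h0
  have h2 : 8 * (|m'| + 1) ≤ (l : ℝ) := (le_max_right _ _).trans h0
  have hlp : (1 : ℝ) ≤ l := hX1.trans h1
  have h3 := hX l h1
  have h4 : Real.exp (-((l : ℝ) ^ c0)) ≤ 1 / (l : ℝ) ^ 4 := by
    rw [Real.exp_neg, one_div]
    apply inv_anti₀ (by positivity)
    calc (l : ℝ) ^ 4 = Real.exp (4 * Real.log l) := by
          rw [mul_comm, Real.exp_mul, Real.exp_log (by linarith)]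
          norm_cast
      _ ≤ Real.exp ((l : ℝ) ^ c0) := Real.exp_le_exp.2 h3
  have h5 : m' * Real.exp (-((l : ℝ) ^ c0)) ≤ |m'| * (1 / (l : ℝ) ^ 4) :=
    mul_le_mul (le_abs_self _) h4 (Real.exp_pos _).le (abs_nonneg _)
  refine h5.trans ?_
  rw [mul_one_div, div_le_div_iff₀ (by positivity) (by positivity), one_mul]
  have h6 : ((l : ℝ) + 1) ^ 3 ≤ (2 * (l : ℝ)) ^ 3 :=
    pow_le_pow_left₀ (by linarith) (by linarith) 3
  have h7 : |m'| * ((l : ℝ) + 1) ^ 3 ≤ |m'| * (2 * (l : ℝ)) ^ 3 :=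
    mul_le_mul_of_nonneg_left h6 (abs_nonneg _)
  have h8 : |m'| * (2 * (l : ℝ)) ^ 3 = (8 * |m'|) * (l : ℝ) ^ 3 := by ring
  have h9 : (8 * |m'|) * (l : ℝ) ^ 3 ≤ (l : ℝ) * (l : ℝ) ^ 3 :=
    mul_le_mul_of_nonneg_right (by linarith) (by positivity)
  calc |m'| * ((l : ℝ) + 1) ^ 3 ≤ (l : ℝ) * (l : ℝ) ^ 3 := by linarith
    _ = (l : ℝ) ^ 4 := by ring

theorem summable_del : Summable (fun l : ℕ => ((l : ℝ) + 1) * (1 / ((l : ℝ) + 1) ^ 3)) := by
  have h1 : Summable (fun l : ℕ => 1 / ((l : ℝ) + 1) ^ 2) := by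
    have h2 := (summable_nat_add_iff 1).2 (Real.summable_one_div_nat_pow.2 (show 1 < 2 by norm_num))
    simpa using h2
  refine h1.congr fun l => ?_
  have h3 : (0 : ℝ) < (l : ℝ) + 1 := by positivity
  field_simp

/-- states of different eras are far apart -/
theorem far_of_era_lt {m l l' : ℕ} (hl' : bb 0 ≤ l') (hu : used m l)
    (he : era l' < era l) : 200 * W m (era l) 1 ≤ l - l' := by
  have h2 := (Pool.Agent.Helper27.T4.era_spec l' hl').2
  have h3 : bb (era l' + 1) ≤ bb (era l) :=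
    Pool.Agent.Helper27.T4.bb_strictMono.monotone he
  have h4 := hu.1
  omega

theorem era_large (j0 : ℕ) {l : ℕ} (hl : bb j0 ≤ l) : j0 ≤ era l := by
  have h1 : bb 0 ≤ l := (Pool.Agent.Helper27.T4.bb_strictMono.monotone (Nat.zero_le _)).trans hl
  have h2 := (Pool.Agent.Helper27.T4.era_spec l h1).2
  by_contra hc
  have h3 := Pool.Agent.Helper27.T4.bb_strictMono.monotone (show era l + 1 ≤ j0 by omega)
  omega

/-! ## the final theorem -/

/-- **one set for all exponents** -/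
theorem mu_final {E k0 : ℕ} (hR : ∀ k, k0 ≤ k → F.Range k) {c : ℕ → ℕ} (hcm : Monotone c)
    (hC : ∀ k, k0 ≤ k → F.Count (c k) k) (hS : ∀ k, k0 ≤ k → F.Same E k) (hF : F.Far E k0)
    (L0 : ℕ → ℕ) :
    ∃ (A : Set ℕ) (kk : ℕ → ℕ) (b : ℕ → ℝ), Monotone kk ∧
      (∀ M, ∃ j1, ∀ j ≥ j1, M ≤ kk j) ∧ (∃ j1, ∀ j ≥ j1, L0 (kk j) ≤ bb j) ∧
      (∀ j, 0 < b j ∧ 1.4 * b j ≤ b (j + 1)) ∧
      (∀ ε : ℝ, 0 < ε → ∃ C : ℝ, ∀ n : ℕ, 2 ≤ n →
        (({q : ℕ × ℕ | q.1 ∈ A ∧ q.2 ∈ A ∧ q.1 + q.2 = n}.ncard : ℕ) : ℝ) ≤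
          C * (Real.log n) ^ ε) ∧
      (∀ d : ℝ, 0 < d → ∃ x0 : ℕ, ∀ x : ℕ, x0 ≤ x →
        (∀ j, d * Real.log x ≤ |Real.log x - b j|) →
        Real.sqrt x ≤ 16 * (1000037 ^ 2 : ℕ) * (Real.log x) ^ 2 *
          (2 * Real.log x + 1) ^ (c (kk (era ⌊2 * Real.log x⌋₊)) + 1) *
          ((A ∩ Set.Iio x).ncard : ℝ)) ∧
      (∀ d : ℝ, 0 < d → ∃ C : ℝ, 0 < C ∧ ∀ x : ℕ, 2 ≤ x →
        (x : ℝ) ^ (1 / 2 - d) / C ≤ ((A ∩ Set.Iio x).ncard : ℝ)) := by
  classical
  -- the thresholds for one parameter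
  obtain ⟨KF, CF, hF⟩ := hF
  have hkey : ∀ k : ℕ, ∃ l0 : ℕ, L0 k ≤ l0 ∧ 2 ^ (c k) ≤ l0 ∧ (k0 ≤ k →
      (KF k ≤ l0) ∧
      (∀ l : ℕ, l0 ≤ l → CF k * (l : ℝ) ^ ((E : ℝ) / ((k + 2 : ℕ) : ℝ)) ≤
        ((l : ℝ) + 1) ^ (((E : ℝ) + 1) / ((k + 2 : ℕ) : ℝ))) ∧
      (∀ l : ℕ, l0 ≤ l → used (k + 2) l → ∀ w : κ → ℕ, (∀ q, w q < F.Mv k q) →
        ∀ a ∈ F.As k l w, XT (F.T k) l ≤ a ∧ a < XT (F.T k) (l + 1)) ∧
      (∀ l : ℕ, l0 ≤ l → used (k + 2) l → ∀ w : κ → ℕ, (∀ q, w q < F.Mv k q) →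
        Real.sqrt (XT (F.T k) l) ≤ ((l : ℝ) + 1) ^ (c k + 1) * ((F.As k l w).card : ℝ)) ∧
      (∀ l l' : ℕ, l0 ≤ l' → l' ≤ l → used (k + 2) l → used (k + 2) l' → era l' = era l →
        ∀ K : Finset κ, F.keys k l ⊆ K → F.keys k l' ⊆ K →
        PrLe (F.Mv k) K
          (fun w => ∃ n, ((l : ℝ) + 1) ^ (((E : ℝ) + 1) / ((k + 2 : ℕ) : ℝ)) <
            (F.Rr k l k l' w n : ℝ)) (1 / ((l : ℝ) + 1) ^ 3))) := by
    intro k
    obtain ⟨P, hP⟩ : ∃ P : ℕ, P = 2 ^ (c k) := ⟨_, rfl⟩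
    rw [← hP]
    by_cases hk : k0 ≤ k
    · obtain ⟨a1, ha1⟩ := hR k hk
      obtain ⟨a2, C2, hC2, ha2⟩ := hC k hk
      obtain ⟨a3, C3, c3, m3, hC3, hc3, hm3, ha3⟩ := hS k hk
      have hk2 : (0 : ℝ) < ((k + 2 : ℕ) : ℝ) := by positivity
      have hE1 : (0 : ℝ) ≤ (E : ℝ) / ((k + 2 : ℕ) : ℝ) := by positivity
      have hE2 : (E : ℝ) / ((k + 2 : ℕ) : ℝ) < ((E : ℝ) + 1) / ((k + 2 : ℕ) : ℝ) :=
        div_lt_div_of_pos_right (by linarith) hk2
      obtain ⟨a4, ha4⟩ := absorb C3 hE1 hE2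
      obtain ⟨a5, ha5⟩ := absorb (CF k) hE1 hE2
      obtain ⟨a6, ha6⟩ := fail_small m3 hc3
      obtain ⟨a7, ha7⟩ := exists_nat_ge C2
      refine ⟨L0 k + P + KF k + a1 + a2 + a3 + a4 + a5 + a6 + a7, by omega, by omega,
        fun _ => ⟨by omega, fun l hl => ha5 l (by omega), fun l hl => ha1 l (by omega), ?_, ?_⟩⟩
      · intro l hl hu w hw
        refine (ha2 l (by omega) hu w hw).trans ?_
        apply mul_le_mul_of_nonneg_right _ (Nat.cast_nonneg _)
        have e1 : C2 ≤ (l : ℝ) + 1 := by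
          have : (a7 : ℝ) ≤ l := by exact_mod_cast (by omega : a7 ≤ l)
          linarith
        calc C2 * (l : ℝ) ^ (c k) ≤ ((l : ℝ) + 1) * ((l : ℝ) + 1) ^ (c k) :=
              mul_le_mul e1 (pow_le_pow_left₀ (Nat.cast_nonneg _) (by linarith) _)
                (by positivity) (by positivity)
          _ = ((l : ℝ) + 1) ^ (c k + 1) := by ring
      · intro l l' hl' hll hu hu' he K hK hK'
        refine PrLe_mono (fun w _ hw => ?_) (ha6 l (by omega))
          (ha3 l l' (by omega) hll hu hu' he K hK hK')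
        obtain ⟨n, hn⟩ := hw
        exact ⟨n, lt_of_le_of_lt (ha4 l (by omega)) hn⟩
    · exact ⟨L0 k + P, by omega, by omega, fun h => absurd h hk⟩
  choose l0 hl1 hl2 hl3 using hkey
  -- the slow parameter
  obtain ⟨mu, hs, ⟨j2, hj2⟩, hmu⟩ := exists_slow (fun m => l0 (m - 2))
  set kk : ℕ → ℕ := fun j => mu j - 2 with hkk
  have hmk : ∀ j, mu j = kk j + 2 := fun j => by
    have := hs.one_lt j
    simp only [hkk]
    omega
  have hkm : Monotone kk := fun i j hij => Nat.sub_le_sub_right (hs.mono hij) 2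
  have hkinf : ∀ M, ∃ j1, ∀ j ≥ j1, M ≤ kk j := by
    intro M
    obtain ⟨j1, hj1⟩ := hmu (M + 2)
    refine ⟨j1, fun j hj => ?_⟩
    have := hj1 j hj
    have := hmk j
    omega
  obtain ⟨j3, hj3⟩ := hkinf k0
  -- the chain
  set T : ℕ → ℕ := fun j => F.T (kk j) j with hT
  have hTB : TBm mu T := by
    constructor
    · intro j
      rw [hmk j]
      exact (F.tb (kk j)).lo j
    · intro j
      rw [hmk j]
      exact (F.tb (kk j)).hi j
  obtain ⟨j1, hj1⟩ := schm_14 hTB hs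
  -- the constant far bound
  obtain ⟨a8, ha8⟩ := fail_small 1 one_pos
  set J := max (max j2 j3) 0 with hJ
  obtain ⟨j10, hj10⟩ := hs.slow 10
  set JJ := max J j10 with hJJ
  set K0 := max (bb JJ) a8 with hK0
  have hst : ∀ l, K0 ≤ l → bb 0 ≤ l ∧ l0 (kk (era l)) ≤ l ∧ k0 ≤ kk (era l) ∧
      l0 (kk (era l)) ≤ bb (era l) ∧ 10 * mu (era l) ≤ Pool.Agent.Helper27.T5.la (era l) := by
    intro l hl
    have h1 : bb JJ ≤ l := (le_max_left _ _).trans hl
    have h0 : bb 0 ≤ l := (Pool.Agent.Helper27.T4.bb_strictMono.monotone (Nat.zero_le _)).trans h1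
    have h2 := era_large JJ h1
    have h3 : bb (era l) ≤ l := (Pool.Agent.Helper27.T4.era_spec l h0).1
    have h4 := hj2 (era l) (by omega)
    have h5 := hj3 (era l) (by omega)
    have h6 := hj10 (era l) (by omega)
    have h7 : l0 (kk (era l)) ≤ bb (era l) := h4
    exact ⟨h0, h7.trans h3, h5, h7, h6⟩
  -- used states
  have husd : ∀ l, usedm mu l → used (kk (era l) + 2) l := by
    intro l hl
    rw [← hmk]
    exact hl
  -- the next state belongs to the same era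
  have hnext : ∀ l, K0 ≤ l → usedm mu l → era (l + 1) = era l := by
    intro l hl hu
    exact (era_add_two hu (hst l hl).2.2.2.2 (hs.one_lt _)).1
  set Mm : κ → ℕ := fun q => F.Mv (kk (era (F.pos q))) q with hMm
  have hMpos : ∀ q, 0 < Mm q := fun q => F.Mv_pos _ _
  have hMk : ∀ l, ∀ q ∈ F.keys (kk (era l)) l, Mm q = F.Mv (kk (era l)) q := by
    intro l q hq
    simp only [hMm]
    rw [F.keys_pos _ _ q hq]
  -- restriction of the values to the keys of the state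
  have hcut : ∀ l, ∀ w : κ → ℕ, (∀ q, w q < Mm q) → ∃ w' : κ → ℕ,
      (∀ q, w' q < F.Mv (kk (era l)) q) ∧
      F.As (kk (era l)) l w = F.As (kk (era l)) l w' := by
    intro l w hw
    refine ⟨fun q => if q ∈ F.keys (kk (era l)) l then w q else 0, ?_, ?_⟩
    · intro q
      dsimp only
      split_ifs with hq
      · rw [← hMk l q hq]
        exact hw q
      · exact F.Mv_pos _ _
    · apply F.dep
      intro q hq
      rw [if_pos hq]
  set Lo : ℕ → ℝ := fun l => ((l : ℝ) + 1) ^ (c (kk (era l)) + 1) with hLo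
  have hLo1 : ∀ l, 0 ≤ Lo l := fun l => by
    simp only [hLo]
    positivity
  have hLom : Monotone Lo := by
    intro l l' hl
    simp only [hLo]
    have h1 : c (kk (era l)) ≤ c (kk (era l')) :=
      hcm (hkm (Pool.Agent.Helper50.ET.era_mono hl))
    have h2 : (l : ℝ) ≤ l' := by exact_mod_cast hl
    calc ((l : ℝ) + 1) ^ (c (kk (era l)) + 1) ≤ ((l' : ℝ) + 1) ^ (c (kk (era l)) + 1) :=
          pow_le_pow_left₀ (by positivity) (by linarith) _
      _ ≤ ((l' : ℝ) + 1) ^ (c (kk (era l')) + 1) :=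
          pow_le_pow_right₀ (by
            have : (0 : ℝ) ≤ l' := Nat.cast_nonneg _
            linarith) (by omega)
  set r : ℕ → ℝ := fun l => ((l : ℝ) + 1) ^ (((E : ℝ) + 1) / ((kk (era l) + 2 : ℕ) : ℝ)) with hr
  set δ : ℕ → ℝ := fun l => 1 / ((l : ℝ) + 1) ^ 3 with hδ
  obtain ⟨A, q1, q2, q3⟩ := gap_final_L (κ := κ) (M := Mm) hMpos
    (fun l => F.keys (kk (era l)) l) (fun l w => F.As (kk (era l)) l w) (N := XT T)
    (fun K => XTm_succ hTB hs K) (XTm_pos hTB 0) (K0 := K0) (Λ := 1000037 ^ 2) (by norm_num)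
    (r := r) (δ := δ) (Lo := Lo)
    (fun l => by simp only [hr]; positivity)
    (by
      intro ε hε
      obtain ⟨k1, hk1⟩ := exists_nat_gt (((E : ℝ) + 1) / ε)
      obtain ⟨j4, hj4⟩ := hkinf k1
      refine ⟨((bb j4 : ℝ) + 1) ^ ((E : ℝ) + 1), fun l => ?_⟩
      have hl1 : (1 : ℝ) ≤ (l : ℝ) + 1 := by
        have : (0 : ℝ) ≤ l := Nat.cast_nonneg _
        linarith
      have hb1 : (1 : ℝ) ≤ ((bb j4 : ℝ) + 1) ^ ((E : ℝ) + 1) :=
        Real.one_le_rpow (by
          have : (0 : ℝ) ≤ bb j4 := Nat.cast_nonneg _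
          linarith) (by positivity)
      have hp1 : (1 : ℝ) ≤ ((l : ℝ) + 1) ^ ε := Real.one_le_rpow hl1 hε.le
      rcases le_or_gt (bb j4) l with h1 | h1
      · have h2 := hj4 (era l) (era_large j4 h1)
        have h3 : ((E : ℝ) + 1) / ((kk (era l) + 2 : ℕ) : ℝ) ≤ ε := by
          have h4 : (0 : ℝ) < ((kk (era l) + 2 : ℕ) : ℝ) := by positivity
          rw [div_le_iff₀ h4]
          rw [div_lt_iff₀ hε] at hk1
          have h5 : (k1 : ℝ) ≤ ((kk (era l) + 2 : ℕ) : ℝ) := by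
            exact_mod_cast (by omega : k1 ≤ kk (era l) + 2)
          nlinarith
        have h6 : r l ≤ ((l : ℝ) + 1) ^ ε := Real.rpow_le_rpow_of_exponent_le hl1 h3
        nlinarith
      · have h3 : ((E : ℝ) + 1) / ((kk (era l) + 2 : ℕ) : ℝ) ≤ (E : ℝ) + 1 := by
          apply div_le_self (by positivity)
          exact_mod_cast (by omega : 1 ≤ kk (era l) + 2)
        have h4 : r l ≤ ((l : ℝ) + 1) ^ ((E : ℝ) + 1) := Real.rpow_le_rpow_of_exponent_le hl1 h3
        have h5 : ((l : ℝ) + 1) ^ ((E : ℝ) + 1) ≤ ((bb j4 : ℝ) + 1) ^ ((E : ℝ) + 1) := by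
          apply Real.rpow_le_rpow (by linarith) _ (by positivity)
          have : (l : ℝ) ≤ bb j4 := by exact_mod_cast h1.le
          linarith
        nlinarith)
    (fun l => by simp only [hδ]; positivity) summable_del hLom hLo1
    (by
      -- the loss is subexponential
      intro d hd
      obtain ⟨X, hX1, hX⟩ := log_le_rpow_eventually (show (0 : ℝ) < 1 / 4 by norm_num) 1
      obtain ⟨Y, hY1, hY⟩ := rpow_le_rpow_eventually (show (1 / 2 : ℝ) < 1 by norm_num) (6 / d)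
      obtain ⟨n1, hn1⟩ := exists_nat_ge (max X Y)
      refine ⟨max (max n1 K0) 1, fun l hl => ?_⟩
      have hlK : K0 ≤ l := ((le_max_right _ _).trans (le_max_left _ _)).trans hl
      have hln : n1 ≤ l := ((le_max_left _ _).trans (le_max_left _ _)).trans hl
      have hl1 : 1 ≤ l := (le_max_right _ _).trans hl
      obtain ⟨s1, s2, s3, s4, -⟩ := hst l hlK
      have h0 : max X Y ≤ (l : ℝ) := hn1.trans (by exact_mod_cast hln)
      have hl1r : (1 : ℝ) ≤ l := by exact_mod_cast hl1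
      -- `c + 1 ≤ 3 log l`
      have h1 : 2 ^ (c (kk (era l))) ≤ l := (hl2 _).trans s2
      have h2 : (c (kk (era l)) : ℝ) * Real.log 2 ≤ Real.log l := by
        have h3 : ((2 : ℝ) ^ (c (kk (era l)))) ≤ l := by exact_mod_cast h1
        have h4 := Real.log_le_log (by positivity) h3
        rwa [Real.log_pow] at h4
      have hl64 : 2 ^ 64 ≤ l := s1
      have h5 : (1 : ℝ) ≤ Real.log l := by
        rw [Real.le_log_iff_exp_le (by linarith)]
        have e1 : Real.exp 1 ≤ 3 := by linarith [Real.exp_one_lt_d9]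
        have e2 : (3 : ℝ) ≤ l := by
          have : 3 ≤ l := le_trans (by norm_num) hl64
          exact_mod_cast this
        linarith
      have h6 : (c (kk (era l)) : ℝ) + 1 ≤ 3 * Real.log l := by
        have e1 : (0.69 : ℝ) < Real.log 2 := by linarith [Real.log_two_gt_d9]
        have e2 : (0 : ℝ) ≤ c (kk (era l)) := Nat.cast_nonneg _
        nlinarith
      have h7 : Real.log ((l : ℝ) + 1) ≤ 2 * Real.log l := by
        have e1 : (l : ℝ) + 1 ≤ (l : ℝ) ^ 2 := by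
          have : (3 : ℝ) ≤ l := by
            have : 3 ≤ l := le_trans (by norm_num) hl64
            exact_mod_cast this
          nlinarith
        have e2 := Real.log_le_log (by linarith) e1
        rwa [Real.log_pow] at e2
      have h8 : 1 * Real.log l ≤ (l : ℝ) ^ (1 / 4 : ℝ) := hX l ((le_max_left _ _).trans h0)
      have h9 : 6 / d * (l : ℝ) ^ (1 / 2 : ℝ) ≤ (l : ℝ) ^ (1 : ℝ) :=
        hY l ((le_max_right _ _).trans h0)
      rw [Real.rpow_one, div_mul_eq_mul_div, div_le_iff₀ hd] at h9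
      have h10 : Real.log l ^ 2 ≤ (l : ℝ) ^ (1 / 2 : ℝ) := by
        have e1 : ((l : ℝ) ^ (1 / 4 : ℝ)) ^ 2 = (l : ℝ) ^ (1 / 2 : ℝ) := by
          rw [← Real.rpow_natCast, ← Real.rpow_mul (by linarith)]
          norm_num
        rw [← e1]
        exact pow_le_pow_left₀ (by linarith) (by linarith) 2
      simp only [hLo]
      have h11 : (0 : ℝ) < (l : ℝ) + 1 := by linarith
      rw [← Real.log_le_iff_le_exp (by positivity), Real.log_pow]
      push_cast
      have h12 : 0 ≤ Real.log ((l : ℝ) + 1) := Real.log_nonneg (by linarith)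
      calc ((c (kk (era l)) : ℝ) + 1) * Real.log ((l : ℝ) + 1)
          ≤ (3 * Real.log l) * (2 * Real.log l) :=
            mul_le_mul h6 h7 h12 (by linarith)
        _ = 6 * Real.log l ^ 2 := by ring
        _ ≤ d * l := by linarith)
    (usedm mu) (fun j => Real.log (XT T (bb (j1 + j))))
    (fun d hd => schm_H1 hTB hs hd) (fun d hd => schm_H2 hTB hs j1 hd)
    (by
      -- the range
      intro l hl hu w hw a ha
      obtain ⟨s1, s2, s3, s4, -⟩ := hst l hl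
      obtain ⟨w', hw', e⟩ := hcut l w hw
      rw [e] at ha
      have h1 := (hl3 (kk (era l)) s3).2.2.1 l s2 (husd l hu) w' hw' a ha
      have h2 : XT T l = XT (F.T (kk (era l))) l := rfl
      have h3 : XT T (l + 1) = XT (F.T (kk (era l))) (l + 1) := by
        unfold XT
        simp only [hT]
        rw [hnext l hl hu]
      rw [h2, h3]
      exact h1)
    (by
      -- the count
      intro l hl hu w hw
      obtain ⟨s1, s2, s3, s4, -⟩ := hst l hl
      obtain ⟨w', hw', e⟩ := hcut l w hw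
      rw [e]
      exact (hl3 (kk (era l)) s3).2.2.2.1 l s2 (husd l hu) w' hw')
    (by
      -- the pairs
      intro l l' hl' hll hu hu' K hK hK'
      obtain ⟨s1, s2, s3, s4, -⟩ := hst l (hl'.trans hll)
      obtain ⟨s1', s2', s3', s4', -⟩ := hst l' hl'
      have hem : era l' ≤ era l := Pool.Agent.Helper50.ET.era_mono hll
      rcases hem.eq_or_lt with he | he
      · -- one era
        have h0 := (hl3 (kk (era l)) s3).2.2.2.2 l l' (by rw [← he]; exact s2') hll (husd l hu)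
          (by have := husd l' hu'; rw [he] at this; exact this) he
          (F.keys (kk (era l)) l ∪ F.keys (kk (era l)) l')
          subset_union_left subset_union_right
        have h1 : F.keys (kk (era l)) l ∪ F.keys (kk (era l)) l' ⊆ K :=
          union_subset hK (by rw [he] at hK'; exact hK')
        have h2 := PrLe_transfer (M' := Mm) h1 (by
          intro q hq
          rw [mem_union] at hq
          rcases hq with hq | hq
          · exact (hMk l q hq).symm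
          · have := hMk l' q (by rw [he]; exact hq)
            rw [he] at this
            exact this.symm) (F.depOn_Rr _ _ _ _ _) h0
        rw [he]
        exact h2
      · -- different eras
        have hfar := far_of_era_lt (m := kk (era l) + 2) s1' (husd l hu) he
        have h0 := hF (kk (era l')) (kk (era l)) s3' (hkm hem) l l'
          (((hl3 (kk (era l')) s3').1).trans s2') (((hl3 (kk (era l)) s3).1).trans s2) hll
          (husd l hu) (husd l' hu') hfar Mm hMpos (hMk l) (hMk l') K hK hK'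
        refine PrLe_mono (fun w _ hw => ?_) ?_ h0
        · obtain ⟨n, hn⟩ := hw
          exact ⟨n, lt_of_le_of_lt ((hl3 (kk (era l)) s3).2.1 l s2) hn⟩
        · have h1 := ha8 l (((le_max_right _ _).trans hl').trans hll)
          rw [one_mul, Real.rpow_one] at h1
          exact h1)
  refine ⟨A, kk, fun j => Real.log (XT T (bb (j1 + j))), hkm, hkinf, ⟨max j2 0, ?_⟩, ?_, q1, ?_,
    q3⟩
  · intro j hj
    exact (hl1 _).trans (hj2 j (by omega))
  · intro j
    exact ⟨log_XTm_bb_pos hTB _, hj1 (j1 + j) (by omega)⟩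
  · intro d hd
    obtain ⟨x0, hx0⟩ := q2 d hd
    refine ⟨max x0 2, fun x hx hgap => ?_⟩
    refine (hx0 x ((le_max_left _ _).trans hx) hgap).trans ?_
    have hx2 : 2 ≤ x := (le_max_right _ _).trans hx
    have hlx : 0 ≤ Real.log x := Real.log_nonneg (by exact_mod_cast (by omega : 1 ≤ x))
    have h2 : ((⌊2 * Real.log x⌋₊ : ℕ) : ℝ) ≤ 2 * Real.log x := Nat.floor_le (by linarith)
    simp only [hLo]
    have h3 : (((⌊2 * Real.log x⌋₊ : ℕ) : ℝ) + 1) ^ (c (kk (era ⌊2 * Real.log x⌋₊)) + 1) ≤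
        (2 * Real.log x + 1) ^ (c (kk (era ⌊2 * Real.log x⌋₊)) + 1) :=
      pow_le_pow_left₀ (by positivity) (by linarith) _
    gcongr

end Pool.Agent.Helper42.T5
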