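import Pool.Agent.Helper42.T5.Mu
import Pool.Agent.Helper42.T5.Far2
import Pool.Agent.Helper5.T5.Top

/-!
# T5a: one set for all exponents, from the block statements
-/

set_option autoImplicit false

namespace Pool.Agent.Helper42.T5

open Finset Pool.Agent.Helper27.T5 Pool.Agent.Helper11.T5 Pool.Agent.Helper5.T5
open Pool.Agent.Helper42.T5.Pr
open Pool.Agent.Helper5.ET (era bb Nj)

/-- the family of the constructions of T5a -/
noncomputable def famA : Fam Key where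
  pos := Prod.fst
  Mv k := Mk (k + 2)
  Mv_pos k := Mk_pos (k + 2)
  keys k l := keysOf (k + 2) k l
  keys_pos := by
    intro k l q hq
    unfold keysOf at hq
    rw [mem_product] at hq
    exact mem_singleton.1 hq.1
  As k l w := AA (k + 2) k l w
  dep := fun _ _ _ _ h => AA_congr h
  T k := TA (k + 2) k
  tb k := Pool.Agent.Helper5.T5.TA_TB (k + 2) k

theorem famA_range {k : ℕ} (h : RangeStmt k) : famA.Range k := h

theorem famA_count {k c : ℕ} (h : ∃ (K0 : ℕ) (C : ℝ), 0 < C ∧ ∀ l, K0 ≤ l → used (k + 2) l →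
    ∀ w : Key → ℕ, (∀ q, w q < Mk (k + 2) q) →
      Real.sqrt (XA (k + 2) k l) ≤ C * (l : ℝ) ^ c * ((AA (k + 2) k l w).card : ℝ)) :
    famA.Count c k := h

theorem famA_far (h : FarStmt2) : ∃ E k0, famA.Far E k0 := h

/-- pairs of states of one era -/
theorem same_of (hbot : BotStmt) (hstat : StaticStmt) (hzero : ZeroStmt) (hfar : FarStmt) :
    ∃ E k0 : ℕ, ∀ k, k0 ≤ k → famA.Same E k := by
  obtain ⟨E, k0, h⟩ := pair_of hbot hstat hzero hfar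
  refine ⟨E, k0, fun k hk => ?_⟩
  obtain ⟨K0, C1, c0, m', h1, h2, h3, h4⟩ := h k hk
  exact ⟨K0, C1, c0, m', h1, h2, h3, fun l l' hl' hll hu hu' _ K hK hK' =>
    h4 l l' hl' hll hu hu' trivial K hK hK'⟩

theorem Fam.Same.mono {κ : Type*} [DecidableEq κ] {F : Fam κ} {E E' k : ℕ} (h : F.Same E k)
    (hE : E ≤ E') : F.Same E' k := by
  obtain ⟨K0, C1, c0, m', h1, h2, h3, h⟩ := h
  refine ⟨K0 + 1, C1, c0, m', h1, h2, h3, ?_⟩
  intro l l' hl' hll hu hu' he K hK hK'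
  refine PrLe_mono (fun w _ hw => ?_) le_rfl (h l l' (by omega) hll hu hu' he K hK hK')
  obtain ⟨n, hn⟩ := hw
  refine ⟨n, lt_of_le_of_lt (mul_le_mul_of_nonneg_left ?_ h1) hn⟩
  refine Real.rpow_le_rpow_of_exponent_le ?_ ?_
  · exact_mod_cast (show 1 ≤ l by omega)
  · exact div_le_div_of_nonneg_right (by exact_mod_cast hE) (Nat.cast_nonneg _)

theorem Fam.Far.mono {κ : Type*} [DecidableEq κ] {F : Fam κ} {E E' k0 k0' : ℕ}
    (h : F.Far E k0) (hE : E ≤ E') (hk : k0 ≤ k0') : F.Far E' k0' := by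
  obtain ⟨K0, C1, h⟩ := h
  refine ⟨fun k => K0 k + 1, fun k => |C1 k|, ?_⟩
  intro k' k hk' hkk l l' hl' hl hll hu hu' hf M hM h1 h2 K hK hK'
  dsimp only at hl' hl
  refine PrLe_mono (fun w _ hw => ?_) le_rfl
    (h k' k (hk.trans hk') hkk l l' (by omega) (by omega) hll hu hu' hf M hM h1 h2 K hK hK')
  obtain ⟨n, hn⟩ := hw
  refine ⟨n, lt_of_le_of_lt ?_ hn⟩
  have hr : (l : ℝ) ^ ((E : ℝ) / ((k + 2 : ℕ) : ℝ)) ≤ (l : ℝ) ^ ((E' : ℝ) / ((k + 2 : ℕ) : ℝ)) := by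
    refine Real.rpow_le_rpow_of_exponent_le ?_ ?_
    · exact_mod_cast (show 1 ≤ l by omega)
    · exact div_le_div_of_nonneg_right (by exact_mod_cast hE) (Nat.cast_nonneg _)
  calc C1 k * (l : ℝ) ^ ((E : ℝ) / ((k + 2 : ℕ) : ℝ))
      ≤ |C1 k| * (l : ℝ) ^ ((E : ℝ) / ((k + 2 : ℕ) : ℝ)) :=
        mul_le_mul_of_nonneg_right (le_abs_self _) (Real.rpow_nonneg (Nat.cast_nonneg _) _)
    _ ≤ |C1 k| * (l : ℝ) ^ ((E' : ℝ) / ((k + 2 : ℕ) : ℝ)) :=
        mul_le_mul_of_nonneg_left hr (abs_nonneg _)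

/-- **T5a, one set for all exponents**, from the block statements; `c k` is the exponent in the
count of a state with `k` static levels, `g` any function which tends to infinity -/
theorem t5a_all_of (hrange : ∀ k, RangeStmt k) {c : ℕ → ℕ} (hcm : Monotone c)
    (hcount : ∀ k, famA.Count (c k) k) (hbot : BotStmt)
    (hstat : StaticStmt) (hzero : ZeroStmt) (hfar : FarStmt2) (L0 : ℕ → ℕ) :
    ∃ (A : Set ℕ) (kk : ℕ → ℕ) (b : ℕ → ℝ), Monotone kk ∧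
      (∀ M, ∃ j1, ∀ j ≥ j1, M ≤ kk j) ∧ (∃ j1, ∀ j ≥ j1, L0 (kk j) ≤ bb j) ∧
      (∀ j, 0 < b j ∧ 1.4 * b j ≤ b (j + 1)) ∧
      (∀ ε : ℝ, 0 < ε → ∃ C : ℝ, ∀ n : ℕ, 2 ≤ n →
        (({q : ℕ × ℕ | q.1 ∈ A ∧ q.2 ∈ A ∧ q.1 + q.2 = n}.ncard : ℕ) : ℝ) ≤
          C * (Real.log n) ^ ε) ∧
      (∀ d : ℝ, 0 < d → ∃ x0 : ℕ, ∀ x : ℕ, x0 ≤ x →
        (∀ j, d * Real.log x ≤ |Real.log x - b j|) →
        Real.sqrt x ≤ 16 * (1000037 ^ 2 : ℕ) * (Real.log x) ^ 2 *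
          (2 * Real.log x + 1) ^ (c (kk (era ⌊2 * Real.log x⌋₊)) + 1) *
          ((A ∩ Set.Iio x).ncard : ℝ)) ∧
      (∀ d : ℝ, 0 < d → ∃ C : ℝ, 0 < C ∧ ∀ x : ℕ, 2 ≤ x →
        (x : ℝ) ^ (1 / 2 - d) / C ≤ ((A ∩ Set.Iio x).ncard : ℝ)) := by
  obtain ⟨E1, k1, h1⟩ := same_of hbot hstat hzero hfar.far
  obtain ⟨E2, k2, h2⟩ := famA_far hfar
  exact mu_final famA (E := E1 + E2) (k0 := k1 + k2) (fun k _ => famA_range (hrange k)) hcm
    (fun k _ => hcount k) (fun k hk => (h1 k (by omega)).mono (by omega))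
    (h2.mono (by omega) (by omega)) L0

end Pool.Agent.Helper42.T5
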