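import Pool.Agent.Helper42.T5.Mu

/-!
# One set for all exponents: final forms
-/

set_option autoImplicit false

namespace Pool.Agent.Helper42.T5

open Finset Pool.Agent.Helper27.T5 Pool.Agent.Helper42.T5.Pr
open Pool.Agent.Helper5.ET (bb era Nj)

variable {κ : Type*} [DecidableEq κ] (F : Fam κ)

theorem exists_log_large (R : ℝ) : ∃ x0 : ℕ, 2 ≤ x0 ∧ ∀ x : ℕ, x0 ≤ x → R ≤ Real.log x := by
  obtain ⟨n, hn⟩ := exists_nat_ge (Real.exp R)
  refine ⟨max n 2, le_max_right _ _, fun x hx => ?_⟩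
  have h1 : 0 < x := by
    have := (le_max_right n 2).trans hx
    omega
  rw [Real.le_log_iff_exp_le (by exact_mod_cast h1)]
  exact hn.trans (by exact_mod_cast (le_max_left _ _).trans hx)

/-- **one set for all exponents**, the power of the logarithm in the count is any function which
tends to infinity -/
theorem mu_final_g {E k0 : ℕ} (hR : ∀ k, k0 ≤ k → F.Range k) {c : ℕ → ℕ} (hcm : Monotone c)
    (hC : ∀ k, k0 ≤ k → F.Count (c k) k) (hS : ∀ k, k0 ≤ k → F.Same E k) (hF : F.Far E k0)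
    (g : ℕ → ℕ) (hg : ∀ M, ∃ x0, ∀ x, x0 ≤ x → M ≤ g x) :
    ∃ (A : Set ℕ) (b : ℕ → ℝ), (∀ j, 0 < b j ∧ 1.4 * b j ≤ b (j + 1)) ∧
      (∀ ε : ℝ, 0 < ε → ∃ C : ℝ, ∀ n : ℕ, 2 ≤ n →
        (({q : ℕ × ℕ | q.1 ∈ A ∧ q.2 ∈ A ∧ q.1 + q.2 = n}.ncard : ℕ) : ℝ) ≤
          C * (Real.log n) ^ ε) ∧
      (∀ d : ℝ, 0 < d → ∃ x0 : ℕ, ∀ x : ℕ, x0 ≤ x →
        (∀ j, d * Real.log x ≤ |Real.log x - b j|) →
        Real.sqrt x / (Real.log x) ^ (g x) ≤ ((A ∩ Set.Iio x).ncard : ℝ)) ∧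
      (∀ d : ℝ, 0 < d → ∃ C : ℝ, 0 < C ∧ ∀ x : ℕ, 2 ≤ x →
        (x : ℝ) ^ (1 / 2 - d) / C ≤ ((A ∩ Set.Iio x).ncard : ℝ)) := by
  choose X hX using hg
  obtain ⟨A, kk, b, hkm, -, ⟨j1, hj1⟩, hb, h1, h2, h3⟩ := mu_final F hR hcm hC hS hF
    (fun k => ⌈2 * Real.log (X (2 * c k + 6))⌉₊ + 1)
  refine ⟨A, b, hb, h1, ?_, h3⟩
  intro d hd
  obtain ⟨x0, hx0⟩ := h2 d hd
  obtain ⟨x1, hx1, hx1'⟩ := exists_log_large (max (16 * 1000037 ^ 2) ((bb j1 : ℝ) + 1))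
  refine ⟨max x0 x1, fun x hx hgap => ?_⟩
  have h4 := hx0 x ((le_max_left _ _).trans hx) hgap
  have h5 := hx1' x ((le_max_right _ _).trans hx)
  have h6 : (16 * 1000037 ^ 2 : ℝ) ≤ Real.log x := (le_max_left _ _).trans h5
  have h7 : (bb j1 : ℝ) + 1 ≤ Real.log x := (le_max_right _ _).trans h5
  have hx2 : 2 ≤ x := hx1.trans ((le_max_right _ _).trans hx)
  have hl3 : (3 : ℝ) ≤ Real.log x := le_trans (by norm_num) h6
  set p := ⌊2 * Real.log x⌋₊ with hp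
  have hpb : bb j1 ≤ p := by
    apply Nat.le_floor
    linarith
  have hpl : (p : ℝ) ≤ 2 * Real.log x := Nat.floor_le (by linarith)
  have h8 := hj1 (era p) (era_large j1 hpb)
  have hp0 : bb 0 ≤ p := (Pool.Agent.Helper27.T4.bb_strictMono.monotone (Nat.zero_le _)).trans hpb
  have h9 : bb (era p) ≤ p := (Pool.Agent.Helper27.T4.era_spec p hp0).1
  set k := kk (era p) with hk
  -- `x` is beyond the threshold of the parameter
  have h10 : 2 * c k + 6 ≤ g x := by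
    apply hX
    have e1 : ((⌈2 * Real.log (X (2 * c k + 6))⌉₊ + 1 : ℕ) : ℝ) ≤ 2 * Real.log x := by
      have : ((⌈2 * Real.log (X (2 * c k + 6))⌉₊ + 1 : ℕ) : ℝ) ≤ (p : ℝ) := by
        exact_mod_cast h8.trans h9
      linarith
    have e2 := Nat.le_ceil (2 * Real.log (X (2 * c k + 6)))
    push_cast at e1
    have e3 : Real.log (X (2 * c k + 6)) < Real.log x := by linarith
    by_contra hcon
    push Not at hcon
    have e4 : Real.log x ≤ Real.log (X (2 * c k + 6)) := by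
      apply Real.log_le_log
      · exact_mod_cast (by omega : 0 < x)
      · exact_mod_cast hcon.le
    linarith
  have hl0 : 0 < Real.log x := by linarith
  rw [div_le_iff₀ (by positivity)]
  refine h4.trans ?_
  rw [mul_comm _ ((Real.log x) ^ (g x))]
  apply mul_le_mul_of_nonneg_right _ (Nat.cast_nonneg _)
  have e5 : (2 * Real.log x + 1) ≤ (Real.log x) ^ 2 := by nlinarith
  have e6 : (2 * Real.log x + 1) ^ (c k + 1) ≤ ((Real.log x) ^ 2) ^ (c k + 1) :=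
    pow_le_pow_left₀ (by linarith) e5 _
  have e7 : (16 : ℝ) * (1000037 ^ 2 : ℕ) ≤ Real.log x := by
    rw [Nat.cast_pow]
    exact_mod_cast h6
  calc 16 * ((1000037 ^ 2 : ℕ) : ℝ) * (Real.log x) ^ 2 * (2 * Real.log x + 1) ^ (c k + 1)
      ≤ Real.log x * (Real.log x) ^ 2 * ((Real.log x) ^ 2) ^ (c k + 1) := by gcongr
    _ = (Real.log x) ^ (2 * c k + 5) := by
        rw [← pow_mul]
        ring
    _ ≤ (Real.log x) ^ (g x) := pow_le_pow_right₀ (by linarith) (by omega)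

/-- **one set for all exponents**, if the exponent `c` in the count of a state does not depend on
the parameter -/
theorem mu_final_c {E k0 c : ℕ} (hR : ∀ k, k0 ≤ k → F.Range k)
    (hC : ∀ k, k0 ≤ k → F.Count c k) (hS : ∀ k, k0 ≤ k → F.Same E k) (hF : F.Far E k0) :
    ∃ (A : Set ℕ) (b : ℕ → ℝ), (∀ j, 0 < b j ∧ 1.4 * b j ≤ b (j + 1)) ∧
      (∀ ε : ℝ, 0 < ε → ∃ C : ℝ, ∀ n : ℕ, 2 ≤ n →
        (({q : ℕ × ℕ | q.1 ∈ A ∧ q.2 ∈ A ∧ q.1 + q.2 = n}.ncard : ℕ) : ℝ) ≤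
          C * (Real.log n) ^ ε) ∧
      (∃ C : ℝ, 0 < C ∧ ∀ d : ℝ, 0 < d → ∃ x0 : ℕ, ∀ x : ℕ, x0 ≤ x →
        (∀ j, d * Real.log x ≤ |Real.log x - b j|) →
        Real.sqrt x / (C * (Real.log x) ^ (c + 3)) ≤ ((A ∩ Set.Iio x).ncard : ℝ)) ∧
      (∀ d : ℝ, 0 < d → ∃ C : ℝ, 0 < C ∧ ∀ x : ℕ, 2 ≤ x →
        (x : ℝ) ^ (1 / 2 - d) / C ≤ ((A ∩ Set.Iio x).ncard : ℝ)) := by
  obtain ⟨A, kk, b, hkm, -, -, hb, h1, h2, h3⟩ := mu_final F hR (c := fun _ => c)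
    monotone_const hC hS hF (fun _ => 0)
  refine ⟨A, b, hb, h1, ⟨16 * (1000037 ^ 2 : ℕ) * 3 ^ (c + 1), by positivity, ?_⟩, h3⟩
  intro d hd
  obtain ⟨x0, hx0⟩ := h2 d hd
  obtain ⟨x1, hx1, hx1'⟩ := exists_log_large 1
  refine ⟨max x0 x1, fun x hx hgap => ?_⟩
  have h4 := hx0 x ((le_max_left _ _).trans hx) hgap
  have h5 := hx1' x ((le_max_right _ _).trans hx)
  have hl0 : 0 < Real.log x := by linarith
  rw [div_le_iff₀ (by positivity)]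
  refine h4.trans ?_
  rw [mul_comm ((((A ∩ Set.Iio x).ncard : ℕ)) : ℝ)]
  apply mul_le_mul_of_nonneg_right _ (Nat.cast_nonneg _)
  have e6 : (2 * Real.log x + 1) ^ (c + 1) ≤ (3 * Real.log x) ^ (c + 1) :=
    pow_le_pow_left₀ (by linarith) (by linarith) _
  calc 16 * ((1000037 ^ 2 : ℕ) : ℝ) * (Real.log x) ^ 2 * (2 * Real.log x + 1) ^ (c + 1)
      ≤ 16 * ((1000037 ^ 2 : ℕ) : ℝ) * (Real.log x) ^ 2 * (3 * Real.log x) ^ (c + 1) := by gcongr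
    _ = 16 * ((1000037 ^ 2 : ℕ) : ℝ) * 3 ^ (c + 1) * (Real.log x) ^ (c + 3) := by
        rw [mul_pow]
        ring

end Pool.Agent.Helper42.T5
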