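import Pool.Agent.Helper42.T5.CountGap
import Pool.Agent.Helper42.T5.Sums
import Pool.Agent.Helper42.T5.Pairs

/-!
# T5, block Z with an arbitrary bound (one set for all exponents)

The bound for one pair of states is `r l` with `r l ≤ C(ε) (l + 1) ^ ε` for every `ε > 0`; the
failure probability is `δ l` with `∑ (l + 1) δ l < ∞`.
-/

set_option autoImplicit false

namespace Pool.Agent.Helper42.T5

open Finset Pool.Agent.Helper44.T4 Pool.Agent.Helper42.T5.Pr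

/-- one horizon, general bound -/
theorem horizon_set_R {N : ℕ → ℕ} (hN : ∀ K, 2 * N K ≤ N (K + 1)) (hN0 : 1 ≤ N 0) {K0 c : ℕ}
    (hK0 : 7 ≤ K0) {C : ℝ} (hC : 0 < C) {R : ℕ → ℝ} (hR : Monotone R) (hR0 : ∀ K, 0 ≤ R K)
    (Used : ℕ → Prop) (S : ℕ) (A : ℕ → Finset ℕ)
    (h1 : ∀ K, K0 ≤ K → ∀ a ∈ A K, N K ≤ a ∧ a < N (K + 1))
    (h2 : ∀ K, K0 ≤ K → K < S → Used K → Real.sqrt (N K) ≤ C * (K : ℝ) ^ c * (A K).card)
    (h3 : ∀ K K', K0 ≤ K' → K' ≤ K → ∀ n : ℕ,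
      (((A K ×ˢ A K').filter (fun q => q.1 + q.2 = n)).card : ℝ) ≤ R K) :
    ∃ B : Set ℕ, (∀ n : ℕ, 2 ≤ n → (rep B n : ℝ) ≤ 6 * R (Nat.log 2 n)) ∧
      ∀ K, K0 ≤ K → K < S → Used K → Real.sqrt (N K) ≤
        2 * C * (K : ℝ) ^ (c + 2) * ((B ∩ Set.Iio (2 * N (K + 1))).ncard : ℝ) := by
  have hp := two_pow_le_chain hN hN0
  obtain ⟨B, hB1, hB2⟩ := label_chain (A := A) (N := N) (K0 := K0) (by omega) hN
    (fun K hK => (two_mul_sq_le_two_pow (hK0.trans hK)).trans (hp K)) hR hR0 h1 h3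
  refine ⟨B, ?_, ?_⟩
  · intro n hn
    exact hB1 n _ ((Nat.lt_pow_succ_log_self (by norm_num) n).trans_le (hp _))
  · intro K hK hKS hU
    have h7 := h2 K hK hKS hU
    have h8 := hB2 K hK (2 * N (K + 1)) le_rfl
    have h9 : (((A K).card : ℕ) : ℝ) ≤
        2 * (K : ℝ) ^ 2 * ((B ∩ Set.Iio (2 * N (K + 1))).ncard : ℝ) := by exact_mod_cast h8
    have h10 : (0 : ℝ) ≤ C * (K : ℝ) ^ c := by positivity
    calc Real.sqrt (N K) ≤ C * (K : ℝ) ^ c * (A K).card := h7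
      _ ≤ C * (K : ℝ) ^ c *
          (2 * (K : ℝ) ^ 2 * ((B ∩ Set.Iio (2 * N (K + 1))).ncard : ℝ)) :=
        mul_le_mul_of_nonneg_left h9 h10
      _ = _ := by ring

/-- **from the horizons to one set, general bound** -/
theorem set_of_horizons_R {N : ℕ → ℕ} (hN : ∀ K, 2 * N K ≤ N (K + 1)) (hN0 : 1 ≤ N 0)
    {K0 c : ℕ} {C : ℝ} (hC : 0 < C) {R : ℕ → ℝ} (hR : Monotone R) (hR0 : ∀ K, 0 ≤ R K)
    (Used : ℕ → Prop)
    (h : ∀ S : ℕ, ∃ A : ℕ → Finset ℕ,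
      (∀ K, K0 ≤ K → ∀ a ∈ A K, N K ≤ a ∧ a < N (K + 1)) ∧
      (∀ K, K0 ≤ K → K < S → Used K → Real.sqrt (N K) ≤ C * (K : ℝ) ^ c * (A K).card) ∧
      (∀ K K', K0 ≤ K' → K' ≤ K → ∀ n : ℕ,
        (((A K ×ˢ A K').filter (fun q => q.1 + q.2 = n)).card : ℝ) ≤ R K)) :
    ∃ (B : Set ℕ) (K1 : ℕ), 1 ∈ B ∧
      (∀ n : ℕ, 2 ≤ n → (rep B n : ℝ) ≤ 6 * R (Nat.log 2 n) + 2) ∧
      ∀ K, K1 ≤ K → Used K → ∀ x : ℕ, 2 * N (K + 1) ≤ x → Real.sqrt (N K) ≤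
        2 * C * (K : ℝ) ^ (c + 2) * ((B ∩ Set.Iio x).ncard : ℝ) := by
  set K1 := max K0 7 with hK1
  obtain ⟨B, hB⟩ := limit_sets (ι := ℕ ⊕ ℕ)
    (Sum.elim (fun n => n) (fun K => 2 * N (K + 1)))
    (Sum.elim (fun n B => 2 ≤ n → (rep B n : ℝ) ≤ 6 * R (Nat.log 2 n))
      (fun K B => K1 ≤ K → Used K → Real.sqrt (N K) ≤
        2 * C * (K : ℝ) ^ (c + 2) * ((B ∩ Set.Iio (2 * N (K + 1))).ncard : ℝ)))
    (by
      rintro (n | K) A B hAB hP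
      · simp only [Sum.elim_inl] at *
        rw [← rep_congr A B n hAB]
        exact hP
      · simp only [Sum.elim_inr] at *
        rw [← inter_Iio_congr A B _ hAB]
        exact hP)
    (by
      intro M
      obtain ⟨A, h1, h2, h3⟩ := h (M + 1)
      obtain ⟨B, b1, b2⟩ := horizon_set_R (K0 := K1) (c := c) (C := C)
        hN hN0 (le_max_right _ _) hC hR hR0 Used
        (M + 1) A (fun K hK => h1 K ((le_max_left _ _).trans hK))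
        (fun K hK => h2 K ((le_max_left _ _).trans hK))
        (fun K K' hK' => h3 K K' ((le_max_left _ _).trans hK'))
      refine ⟨B, ?_⟩
      rintro (n | K) hi
      · simp only [Sum.elim_inl]
        exact b1 n
      · simp only [Sum.elim_inr] at *
        intro hK hU
        refine b2 K hK ?_ hU
        have h4 : K + 1 < 2 ^ (K + 1) := Nat.lt_two_pow_self
        have h5 := two_pow_le_chain hN hN0 (K + 1)
        omega)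
  refine ⟨insert 1 B, K1, Set.mem_insert _ _, ?_, ?_⟩
  · intro n hn
    have e0 := hB (Sum.inl n)
    simp only [Sum.elim_inl] at e0
    have e2 := e0 hn
    have e1 : ((rep (insert 1 B) n : ℕ) : ℝ) ≤ (rep B n : ℝ) + 2 := by
      exact_mod_cast rep_insert_le B 1 n
    linarith
  · intro K hK hU x hx
    have e0 := hB (Sum.inr K)
    simp only [Sum.elim_inr] at e0
    refine (e0 hK hU).trans ?_
    have e1 : (B ∩ Set.Iio (2 * N (K + 1))).ncard ≤ ((insert 1 B) ∩ Set.Iio x).ncard := by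
      apply Set.ncard_le_ncard _ ((Set.finite_Iio x).subset Set.inter_subset_right)
      rintro b ⟨b1, b2⟩
      exact ⟨Set.mem_insert_of_mem _ b1, lt_of_lt_of_le b2 hx⟩
    have e2 : ((B ∩ Set.Iio (2 * N (K + 1))).ncard : ℝ) ≤
        (((insert 1 B) ∩ Set.Iio x).ncard : ℝ) := by exact_mod_cast e1
    exact mul_le_mul_of_nonneg_left e2 (by positivity)

/-- monotone hull of a bound -/
noncomputable def hull (r : ℕ → ℝ) (K : ℕ) : ℝ :=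
  (range (K + 1)).sup' nonempty_range_add_one r

theorem hull_mono (r : ℕ → ℝ) : Monotone (hull r) := by
  intro K K' h
  unfold hull
  apply Finset.sup'_mono
  intro i hi
  rw [mem_range] at hi ⊢
  omega

theorem le_hull (r : ℕ → ℝ) (K : ℕ) : r K ≤ hull r K :=
  Finset.le_sup' r (mem_range.2 (by omega))

theorem hull_nonneg {r : ℕ → ℝ} (hr : ∀ K, 0 ≤ r K) (K : ℕ) : 0 ≤ hull r K :=
  (hr K).trans (le_hull r K)

theorem hull_le {r : ℕ → ℝ} {ε C : ℝ} (hε : 0 ≤ ε) (hC : 0 ≤ C)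
    (h : ∀ l : ℕ, r l ≤ C * ((l : ℝ) + 1) ^ ε) (K : ℕ) : hull r K ≤ C * ((K : ℝ) + 1) ^ ε := by
  unfold hull
  apply Finset.sup'_le
  intro l hl
  rw [mem_range] at hl
  refine (h l).trans (mul_le_mul_of_nonneg_left ?_ hC)
  have h1 : (l : ℝ) ≤ K := by exact_mod_cast (by omega : l ≤ K)
  exact Real.rpow_le_rpow (by positivity) (by linarith) hε

/-- `r_A(n)` from the bound in terms of `log_2 n` -/
theorem rep_of_log2 {B : Set ℕ} {R : ℕ → ℝ} {ε C : ℝ} (hε : 0 < ε) (hC : 0 ≤ C)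
    (hR : ∀ K : ℕ, R K ≤ C * ((K : ℝ) + 1) ^ ε)
    (h : ∀ n : ℕ, 2 ≤ n → (rep B n : ℝ) ≤ 6 * R (Nat.log 2 n) + 2) :
    ∃ C' : ℝ, 0 < C' ∧ ∀ n : ℕ, 2 ≤ n → (rep B n : ℝ) ≤ C' * (Real.log n) ^ ε := by
  have hlog2 : (0 : ℝ) < Real.log 2 := Real.log_pos (by norm_num)
  have hl2e : 0 < (Real.log 2) ^ ε := Real.rpow_pos_of_pos hlog2 _
  refine ⟨6 * C * 4 ^ ε + 2 / (Real.log 2) ^ ε, by positivity, fun n hn => ?_⟩
  have hn0 : n ≠ 0 := by omega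
  have hln2 : Real.log 2 ≤ Real.log n := by
    apply Real.log_le_log (by norm_num)
    exact_mod_cast hn
  have hl1 : ((Nat.log 2 n : ℕ) : ℝ) * Real.log 2 ≤ Real.log n := by
    have h2 : 2 ^ Nat.log 2 n ≤ n := Nat.pow_log_le_self 2 hn0
    have h4 : ((2 : ℝ) ^ Nat.log 2 n) ≤ n := by exact_mod_cast h2
    have h5 := Real.log_le_log (by positivity) h4
    rwa [Real.log_pow] at h5
  have hlog2' : (0.69 : ℝ) < Real.log 2 := by linarith [Real.log_two_gt_d9]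
  have hl2 : ((Nat.log 2 n : ℕ) : ℝ) + 1 ≤ 4 * Real.log n := by
    have : (0 : ℝ) ≤ ((Nat.log 2 n : ℕ) : ℝ) := Nat.cast_nonneg _
    nlinarith
  have hln : 0 ≤ Real.log n := hlog2.le.trans hln2
  have hl3 : (((Nat.log 2 n : ℕ) : ℝ) + 1) ^ ε ≤ 4 ^ ε * (Real.log n) ^ ε := by
    rw [← Real.mul_rpow (by norm_num) hln]
    exact Real.rpow_le_rpow (by positivity) hl2 hε.le
  have e3 : (Real.log 2) ^ ε ≤ (Real.log n) ^ ε := Real.rpow_le_rpow hlog2.le hln2 hε.le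
  have e4 : 2 ≤ 2 / (Real.log 2) ^ ε * (Real.log n) ^ ε := by
    rw [div_mul_eq_mul_div, le_div_iff₀ hl2e]
    linarith
  have e5 := h n hn
  have e6 := hR (Nat.log 2 n)
  have e7 := mul_le_mul_of_nonneg_left hl3 hC
  rw [add_mul]
  nlinarith

variable {κ : Type*} [DecidableEq κ] {M : κ → ℕ}

/-- union bound over all pairs of states below the horizon, general failure probability -/
theorem exists_all_pairs_R (hM : ∀ k, 0 < M k) (keysOf : ℕ → Finset κ) {δ : ℕ → ℝ}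
    (hδ : ∀ l, 0 ≤ δ l) (hs : Summable (fun l : ℕ => ((l : ℝ) + 1) * δ l))
    (K0 : ℕ) (Bad : ℕ → ℕ → (κ → ℕ) → Prop)
    (h : ∀ l l', K0 ≤ l' → l' ≤ l → ∀ K : Finset κ, keysOf l ⊆ K → keysOf l' ⊆ K →
      PrLe M K (Bad l l') (δ l)) :
    ∃ K1, K0 ≤ K1 ∧ ∀ S, ∃ w : κ → ℕ, (∀ k, w k < M k) ∧
      ∀ l l', K1 ≤ l' → l' ≤ l → l < S → ¬ Bad l l' w := by
  obtain ⟨K2, hK2⟩ := tail_small hs (fun l => mul_nonneg (by positivity) (hδ l)) one_pos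
  refine ⟨max K0 K2, le_max_left _ _, fun S => ?_⟩
  set K1 := max K0 K2 with hK1
  set K : Finset κ := (range S).biUnion keysOf with hK
  have hKs : ∀ s, s < S → keysOf s ⊆ K := fun s hs => subset_biUnion_of_mem keysOf (mem_range.2 hs)
  have hev : ∀ l ∈ Ico K1 S, ∀ l' ∈ range (l + 1),
      PrLe M K (fun w => K1 ≤ l' ∧ Bad l l' w) (δ l) := by
    intro l hl l' hl'
    rw [mem_Ico] at hl
    rw [mem_range] at hl'
    by_cases hc : K1 ≤ l'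
    · exact PrLe_mono (fun _ _ hw => hw.2) le_rfl
        (h l l' ((le_max_left _ _).trans hc) (by omega) K (hKs l hl.2) (hKs l' (by omega)))
    · exact PrLe_false (fun _ _ hw => hc hw.1) (hδ l)
  have hall : PrLe M K (fun w => ∃ l ∈ Ico K1 S, ∃ l' ∈ range (l + 1), K1 ≤ l' ∧ Bad l l' w)
      (∑ l ∈ Ico K1 S, ((l : ℝ) + 1) * δ l) := by
    refine PrLe_exists _ fun l hl => ?_
    have h := PrLe_exists (range (l + 1)) (fun l' hl' => hev l hl l' hl')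
    refine PrLe_mono (fun _ _ hw => hw) ?_ h
    rw [sum_const, card_range, nsmul_eq_mul]
    push_cast
    exact le_rfl
  obtain ⟨w, hw, hgood⟩ := exists_of_PrLe hM (hK2 K1 (le_max_right _ _) S) hall
  exact ⟨w, hw, fun l l' h1 h2 h3 h4 =>
    hgood ⟨l, mem_Ico.2 ⟨h1.trans h2, h3⟩, l', mem_range.2 (by omega), h1, h4⟩⟩

/-- the families for all horizons, general bound -/
theorem horizons_of_pairs_R (hM : ∀ k, 0 < M k) (keysOf : ℕ → Finset κ)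
    (AA : ℕ → (κ → ℕ) → Finset ℕ) (N : ℕ → ℕ) (Used : ℕ → Prop) {K0 m : ℕ} {C : ℝ}
    {r δ : ℕ → ℝ} (hr0 : ∀ l, 0 ≤ r l) (hδ : ∀ l, 0 ≤ δ l)
    (hs : Summable (fun l : ℕ => ((l : ℝ) + 1) * δ l))
    (hrange : ∀ l, K0 ≤ l → Used l → ∀ w : κ → ℕ, (∀ k, w k < M k) →
      ∀ a ∈ AA l w, N l ≤ a ∧ a < N (l + 1))
    (hcount : ∀ l, K0 ≤ l → Used l → ∀ w : κ → ℕ, (∀ k, w k < M k) →
      Real.sqrt (N l) ≤ C * (l : ℝ) ^ m * (AA l w).card)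
    (hpair : ∀ l l', K0 ≤ l' → l' ≤ l → Used l → Used l' → ∀ K : Finset κ,
      keysOf l ⊆ K → keysOf l' ⊆ K →
      PrLe M K (fun w => ∃ n, r l <
        (((AA l w ×ˢ AA l' w).filter (fun q => q.1 + q.2 = n)).card : ℝ)) (δ l)) :
    ∃ K1, ∀ S : ℕ, ∃ A : ℕ → Finset ℕ,
      (∀ K, K1 ≤ K → ∀ a ∈ A K, N K ≤ a ∧ a < N (K + 1)) ∧
      (∀ K, K1 ≤ K → K < S → Used K → Real.sqrt (N K) ≤ C * (K : ℝ) ^ m * (A K).card) ∧
      (∀ K K', K1 ≤ K' → K' ≤ K → ∀ n : ℕ,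
        (((A K ×ˢ A K').filter (fun q => q.1 + q.2 = n)).card : ℝ) ≤ hull r K) := by
  classical
  obtain ⟨K1, hK01, hK1⟩ := exists_all_pairs_R hM keysOf hδ hs K0
    (fun l l' w => (Used l ∧ Used l') ∧ ∃ n, r l <
        (((AA l w ×ˢ AA l' w).filter (fun q => q.1 + q.2 = n)).card : ℝ))
    (by
      intro l l' h1 h2 K hK hK'
      by_cases hU : Used l ∧ Used l'
      · exact PrLe_mono (fun _ _ hw => hw.2) le_rfl (hpair l l' h1 h2 hU.1 hU.2 K hK hK')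
      · exact PrLe_false (fun _ _ hw => hU hw.1) (hδ l))
  refine ⟨K1, fun S => ?_⟩
  obtain ⟨w, hw, hgood⟩ := hK1 S
  refine ⟨fun l => if l < S ∧ Used l then AA l w else ∅, ?_, ?_, ?_⟩
  · intro l hl a ha
    dsimp only at ha
    split_ifs at ha with hc
    · exact hrange l (hK01.trans hl) hc.2 w hw a ha
    · simp at ha
  · intro l hl hlS hU
    dsimp only
    rw [if_pos ⟨hlS, hU⟩]
    exact hcount l (hK01.trans hl) hU w hw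
  · intro l l' hl' hll n
    have hnn : 0 ≤ hull r l := hull_nonneg hr0 l
    dsimp only
    by_cases hc : l < S ∧ Used l
    · by_cases hc' : l' < S ∧ Used l'
      · rw [if_pos hc, if_pos hc']
        refine le_trans ?_ (le_hull r l)
        by_contra hcon
        rw [not_le] at hcon
        exact hgood l l' hl' hll hc.1 ⟨⟨hc.2, hc'.2⟩, n, hcon⟩
      · rw [if_neg hc']
        simpa using hnn
    · rw [if_neg hc]
      simpa using hnn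

/-- **one set for all exponents, no gaps** -/
theorem full_final_R (hM : ∀ k, 0 < M k) (keysOf : ℕ → Finset κ)
    (AA : ℕ → (κ → ℕ) → Finset ℕ) {N : ℕ → ℕ} (hN : ∀ K, 2 * N K ≤ N (K + 1)) (hN0 : 1 ≤ N 0)
    {K0 m Λ : ℕ} (hΛ : ∀ K, N (K + 1) ≤ Λ * N K) {C : ℝ} (hC : 0 < C)
    {r δ : ℕ → ℝ} (hr0 : ∀ l, 0 ≤ r l)
    (hr : ∀ ε : ℝ, 0 < ε → ∃ C' : ℝ, ∀ l : ℕ, r l ≤ C' * ((l : ℝ) + 1) ^ ε)
    (hδ : ∀ l, 0 ≤ δ l) (hs : Summable (fun l : ℕ => ((l : ℝ) + 1) * δ l))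
    (hrange : ∀ l, K0 ≤ l → ∀ w : κ → ℕ, (∀ k, w k < M k) →
      ∀ a ∈ AA l w, N l ≤ a ∧ a < N (l + 1))
    (hcount : ∀ l, K0 ≤ l → ∀ w : κ → ℕ, (∀ k, w k < M k) →
      Real.sqrt (N l) ≤ C * (l : ℝ) ^ m * (AA l w).card)
    (hpair : ∀ l l', K0 ≤ l' → l' ≤ l → ∀ K : Finset κ,
      keysOf l ⊆ K → keysOf l' ⊆ K →
      PrLe M K (fun w => ∃ n, r l <
        (((AA l w ×ˢ AA l' w).filter (fun q => q.1 + q.2 = n)).card : ℝ)) (δ l)) :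
    ∃ (A : Set ℕ) (C : ℝ), 0 < C ∧
      (∀ ε : ℝ, 0 < ε → ∃ C' : ℝ, ∀ n : ℕ, 2 ≤ n →
        (({q : ℕ × ℕ | q.1 ∈ A ∧ q.2 ∈ A ∧ q.1 + q.2 = n}.ncard : ℕ) : ℝ) ≤
          C' * (Real.log n) ^ ε) ∧
      (∀ x : ℕ, 2 ≤ x →
        Real.sqrt x / (C * (Real.log x) ^ (m + 2)) ≤ ((A ∩ Set.Iio x).ncard : ℝ)) := by
  obtain ⟨K1, h⟩ := horizons_of_pairs_R hM keysOf AA N (fun _ => True) hr0 hδ hs
    (fun l hl _ => hrange l hl) (fun l hl _ => hcount l hl)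
    (fun l l' h1 h2 _ _ => hpair l l' h1 h2)
  obtain ⟨B, K2, hB1, hrep, hcnt⟩ := set_of_horizons_R (K0 := K1) (c := m) hN hN0 hC
    (hull_mono r) (hull_nonneg hr0) (fun _ => True) h
  obtain ⟨C3, hC3, hall⟩ := count_all hN hN0 hΛ (C2 := 2 * C) (by positivity) hB1
    (fun K hK => hcnt K hK trivial)
  refine ⟨B, C3, hC3, ?_, hall C3 le_rfl⟩
  intro ε hε
  obtain ⟨C', hC'⟩ := hr ε hε
  have hC'2 : ∀ l : ℕ, r l ≤ |C'| * ((l : ℝ) + 1) ^ ε := fun l =>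
    (hC' l).trans (mul_le_mul_of_nonneg_right (le_abs_self _) (by positivity))
  obtain ⟨C4, -, h4⟩ := rep_of_log2 hε (abs_nonneg C') (hull_le hε.le (abs_nonneg _) hC'2) hrep
  exact ⟨C4, h4⟩

/-- **one set for all exponents, with gaps** -/
theorem gap_final_R (hM : ∀ k, 0 < M k) (keysOf : ℕ → Finset κ)
    (AA : ℕ → (κ → ℕ) → Finset ℕ) {N : ℕ → ℕ} (hN : ∀ K, 2 * N K ≤ N (K + 1)) (hN0 : 1 ≤ N 0)
    {K0 m Λ : ℕ} {C0 C c c' : ℝ} (hC0 : 0 ≤ C0) (hC : 0 < C) (hΛ : 1 ≤ Λ)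
    (hc : 0 < c) (hcc : c < c') (hc' : c' < 1)
    {r δ : ℕ → ℝ} (hr0 : ∀ l, 0 ≤ r l)
    (hr : ∀ ε : ℝ, 0 < ε → ∃ C' : ℝ, ∀ l : ℕ, r l ≤ C' * ((l : ℝ) + 1) ^ ε)
    (hδ : ∀ l, 0 ≤ δ l) (hs : Summable (fun l : ℕ => ((l : ℝ) + 1) * δ l))
    (Used : ℕ → Prop) (b : ℕ → ℝ)
    (H1 : ∀ K1 : ℕ, ∃ K2 : ℕ, ∀ K, K2 ≤ K → ∃ K', K1 ≤ K' ∧ K' ≤ K ∧ Used K' ∧
      Real.log (N (K + 2)) - Real.log (N K') ≤ C0 * (K : ℝ) ^ (1 - c'))
    (H2 : ∃ K2 : ℕ, ∀ K, K2 ≤ K → (Used K ∧ N (K + 2) ≤ Λ * N K) ∨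
      ∃ j, |Real.log (N (K + 2)) - b j| ≤ C0 * (K : ℝ) ^ (1 - c') ∧
        |Real.log (N K) - b j| ≤ C0 * (K : ℝ) ^ (1 - c'))
    (hrange : ∀ l, K0 ≤ l → Used l → ∀ w : κ → ℕ, (∀ k, w k < M k) →
      ∀ a ∈ AA l w, N l ≤ a ∧ a < N (l + 1))
    (hcount : ∀ l, K0 ≤ l → Used l → ∀ w : κ → ℕ, (∀ k, w k < M k) →
      Real.sqrt (N l) ≤ C * (l : ℝ) ^ m * (AA l w).card)
    (hpair : ∀ l l', K0 ≤ l' → l' ≤ l → Used l → Used l' → ∀ K : Finset κ,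
      keysOf l ⊆ K → keysOf l' ⊆ K →
      PrLe M K (fun w => ∃ n, r l <
        (((AA l w ×ˢ AA l' w).filter (fun q => q.1 + q.2 = n)).card : ℝ)) (δ l)) :
    ∃ (A : Set ℕ) (C : ℝ), 0 < C ∧
      (∀ ε : ℝ, 0 < ε → ∃ C' : ℝ, ∀ n : ℕ, 2 ≤ n →
        (({q : ℕ × ℕ | q.1 ∈ A ∧ q.2 ∈ A ∧ q.1 + q.2 = n}.ncard : ℕ) : ℝ) ≤
          C' * (Real.log n) ^ ε) ∧
      (∀ x : ℕ, 2 ≤ x → (∀ j, (Real.log x) ^ (1 - c) ≤ |Real.log x - b j|) →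
        Real.sqrt x / (C * (Real.log x) ^ (m + 2)) ≤ ((A ∩ Set.Iio x).ncard : ℝ)) ∧
      (∀ x : ℕ, 2 ≤ x → Real.sqrt x * Real.exp (-(C * (Real.log x) ^ (1 - c))) ≤
        ((A ∩ Set.Iio x).ncard : ℝ)) := by
  obtain ⟨K1, h⟩ := horizons_of_pairs_R hM keysOf AA N Used hr0 hδ hs hrange hcount hpair
  obtain ⟨B, K2, hB1, hrep, hcnt⟩ := set_of_horizons_R (K0 := K1) (c := m) hN hN0 hC
    (hull_mono r) (hull_nonneg hr0) Used h
  obtain ⟨C3, hC3, hall⟩ := count_gap hN hN0 hC0 (C2 := 2 * C) (by positivity) hΛ hc hcc hc' hB1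
    b hcnt (H1 K2) H2
  refine ⟨B, C3, hC3, ?_, hall C3 le_rfl⟩
  intro ε hε
  obtain ⟨C', hC'⟩ := hr ε hε
  have hC'2 : ∀ l : ℕ, r l ≤ |C'| * ((l : ℝ) + 1) ^ ε := fun l =>
    (hC' l).trans (mul_le_mul_of_nonneg_right (le_abs_self _) (by positivity))
  obtain ⟨C4, -, h4⟩ := rep_of_log2 hε (abs_nonneg C') (hull_le hε.le (abs_nonneg _) hC'2) hrep
  exact ⟨C4, h4⟩

end Pool.Agent.Helper42.T5
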